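import Mathlib

/-!
# Graphs of simple polytopes and total separability: definitions
-/

open Set

namespace Pool.Agent.Helper70.Poly

/-- The `1`-skeleton of a convex set `P`: its nodes are the extreme points (vertices) of `P`, and
two distinct vertices `u, v` are adjacent when the segment `[u, v]` is a face of `P`. -/
def skel {E : Type*} [AddCommGroup E] [Module ℝ E] (P : Set E) :
    SimpleGraph (P.extremePoints ℝ) where
  Adj u v := u ≠ v ∧ IsExtreme ℝ P (segment ℝ u.1 v.1)
  symm := ⟨fun u v h => ⟨h.1.symm, by rw [segment_symm]; exact h.2⟩⟩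
  loopless := ⟨fun u h => h.1 rfl⟩

/-- `P ⊆ ℝ^d` is a simple `d`-polytope: the convex hull of a finite set, of dimension `d`, each
of whose vertices lies in exactly `d` edges. -/
def IsSimplePolytope {d : ℕ} (P : Set (Fin d → ℝ)) : Prop :=
  (∃ V : Set (Fin d → ℝ), V.Finite ∧ P = convexHull ℝ V) ∧ affineSpan ℝ P = ⊤ ∧
    ∀ v, ((skel P).neighborSet v).ncard = d

/-- `N` is totally separated by `M` in the graph `G`: `M` and `N` are disjoint and every path
joining two distinct members of `N` contains a node of `M`. -/
def TotallySeparated {V : Type*} (G : SimpleGraph V) (M N : Finset V) : Prop :=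
  Disjoint M N ∧ ∀ a ∈ N, ∀ b ∈ N, a ≠ b → ∀ p : G.Walk a b, p.IsPath → ∃ x ∈ p.support, x ∈ M

/-- The cardinalities of node sets of graphs of simple `d`-polytopes that are totally separated
by some set of exactly `n` nodes.  The largest member of this set is `s(n, 𝒮^d)`. -/
def sepCards (n d : ℕ) : Set ℕ :=
  {k | ∃ P : Set (Fin d → ℝ), IsSimplePolytope P ∧ ∃ M N : Finset (P.extremePoints ℝ),
    M.card = n ∧ N.card = k ∧ TotallySeparated (skel P) M N}

end Pool.Agent.Helper70.Poly
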