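import Mathlib
import Pool.Agent.Helper70.PolyDefs

/-!
# Basic facts on polytopes: improving edges and a Balinski type theorem
-/

open Set

namespace Pool.Agent.Helper70.Poly

variable {E : Type*} [NormedAddCommGroup E] [NormedSpace ℝ E]

/-- **Improving edge.**  If the continuous linear functional `f` is not maximised over the polytope
`P = conv V` at its vertex `v`, then some edge `[v, w]` of `P` has `f w > f v`. -/
theorem exists_improving {V : Set E} (hV : V.Finite) {v : E}
    (hv : v ∈ (convexHull ℝ V).extremePoints ℝ) (f : E →L[ℝ] ℝ) {y : E}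
    (hy : y ∈ convexHull ℝ V) (hfy : f v < f y) :
    ∃ w ∈ (convexHull ℝ V).extremePoints ℝ, w ≠ v ∧
      IsExtreme ℝ (convexHull ℝ V) (segment ℝ v w) ∧ f v < f w := by
  classical
  set P := convexHull ℝ V with hP
  have hPconv : Convex ℝ P := convex_convexHull ℝ V
  have hPcomp : IsCompact P := Set.Finite.isCompact_convexHull ℝ hV
  have hvP : v ∈ P := extremePoints_subset hv
  have hvV : v ∈ V := extremePoints_convexHull_subset hv
  -- separate v from the hull of the other points
  set V' := V \ {v} with hV'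
  have hV'fin : V'.Finite := hV.subset sdiff_subset
  set K := convexHull ℝ V' with hK
  have hvK : v ∉ K := by
    intro hvK
    have h1 := (hPconv.mem_extremePoints_iff_mem_sdiff_convexHull_sdiff.mp hv).2
    apply h1
    refine convexHull_mono ?_ hvK
    intro w hw
    exact ⟨subset_convexHull ℝ V hw.1, hw.2⟩
  have hKcomp : IsCompact K := Set.Finite.isCompact_convexHull ℝ hV'fin
  obtain ⟨g, u, hgv, hgK⟩ := geometric_hahn_banach_point_closed (convex_convexHull ℝ V')
    hKcomp.isClosed hvK
  have hτ : ∀ w ∈ V', 0 < g w - g v := fun w hw => by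
    have := hgK w (subset_convexHull ℝ V' hw)
    linarith
  -- the polytope of directions
  set D : E → E := fun w => (g w - g v)⁻¹ • (w - v) with hD
  set Q := convexHull ℝ (D '' V') with hQ
  have hQcomp : IsCompact Q := Set.Finite.isCompact_convexHull ℝ (hV'fin.image D)
  have hQconv : Convex ℝ Q := convex_convexHull ℝ _
  have hgQ : ∀ q ∈ Q, g q = 1 := by
    have : Q ⊆ {q | g q = 1} := by
      refine convexHull_min ?_ ?_
      · rintro _ ⟨w, hw, rfl⟩
        simp only [hD, mem_ofPred_eq, map_smul, map_sub, smul_eq_mul]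
        exact inv_mul_cancel₀ (hτ w hw).ne'
      · exact convex_hyperplane g.isLinear 1
    exact this
  -- P is contained in the cone over Q with apex v
  have hV'ne : V'.Nonempty := by
    by_contra hne
    rw [not_nonempty_iff_eq_empty] at hne
    have hVv : V ⊆ {v} := by
      intro w hw
      by_contra hwv
      have : w ∈ V' := ⟨hw, hwv⟩
      rw [hne] at this
      exact this
    have : P ⊆ {v} := convexHull_min hVv (convex_singleton v)
    have hyv : y = v := this hy
    rw [hyv] at hfy
    exact lt_irrefl _ hfy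
  have hQne : Q.Nonempty := (hV'ne.image D).convexHull
  have hcone : ∀ x ∈ P, ∃ t : ℝ, 0 ≤ t ∧ ∃ q ∈ Q, x = v + t • q := by
    have : P ⊆ {x | ∃ t : ℝ, 0 ≤ t ∧ ∃ q ∈ Q, x = v + t • q} := by
      refine convexHull_min ?_ ?_
      · intro w hw
        by_cases hwv : w = v
        · obtain ⟨q, hq⟩ := hQne
          exact ⟨0, le_rfl, q, hq, by simp [hwv]⟩
        · have hw' : w ∈ V' := ⟨hw, hwv⟩
          refine ⟨g w - g v, (hτ w hw').le, D w, subset_convexHull ℝ _ ⟨w, hw', rfl⟩, ?_⟩
          simp only [hD]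
          rw [smul_inv_smul₀ (hτ w hw').ne']
          abel
      · rintro x1 ⟨t1, ht1, q1, hq1, rfl⟩ x2 ⟨t2, ht2, q2, hq2, rfl⟩ a b ha hb hab
        by_cases hs : a * t1 + b * t2 = 0
        · have h1 : a * t1 = 0 := by nlinarith [mul_nonneg ha ht1, mul_nonneg hb ht2]
          have h2 : b * t2 = 0 := by nlinarith [mul_nonneg ha ht1, mul_nonneg hb ht2]
          refine ⟨0, le_rfl, q1, hq1, ?_⟩
          have e : a • (v + t1 • q1) + b • (v + t2 • q2) =
              (a + b) • v + (a * t1) • q1 + (b * t2) • q2 := by module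
          rw [e, h1, h2, hab]
          simp
        · have hspos : 0 < a * t1 + b * t2 :=
            lt_of_le_of_ne (add_nonneg (mul_nonneg ha ht1) (mul_nonneg hb ht2)) (Ne.symm hs)
          refine ⟨a * t1 + b * t2, hspos.le,
            ((a * t1) / (a * t1 + b * t2)) • q1 + ((b * t2) / (a * t1 + b * t2)) • q2,
            hQconv hq1 hq2 (by positivity) (by positivity) (by field_simp), ?_⟩
          have e : a • (v + t1 • q1) + b • (v + t2 • q2) =
              (a + b) • v + ((a * t1) • q1 + (b * t2) • q2) := by module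
          have e2 : (a * t1 + b * t2) • ((a * t1 / (a * t1 + b * t2)) • q1 +
              (b * t2 / (a * t1 + b * t2)) • q2) = (a * t1) • q1 + (b * t2) • q2 := by
            rw [smul_add, smul_smul, smul_smul, mul_div_cancel₀ _ hs, mul_div_cancel₀ _ hs]
          rw [e, e2, hab, one_smul]
    exact this
  -- an extreme point q of Q with f q > 0
  obtain ⟨ty, hty, q0, hq0, hyq0⟩ := hcone y hy
  have hfq0 : 0 < f q0 := by
    rw [hyq0, map_add, map_smul, smul_eq_mul] at hfy
    have : 0 < ty * f q0 := by linarith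
    exact (pos_iff_pos_of_mul_pos this).mp (lt_of_le_of_ne hty (by
      rintro rfl
      simp at this))
  obtain ⟨q, hqext, hfq⟩ : ∃ q ∈ Q.extremePoints ℝ, 0 < f q := by
    obtain ⟨z, hzQ, hz⟩ := hQcomp.exists_isMaxOn hQne f.continuous.continuousOn
    have hexp : IsExposed ℝ Q (f.toExposed Q) := ContinuousLinearMap.toExposed.isExposed
    have hzF : z ∈ f.toExposed Q := ⟨hzQ, fun y hy => hz hy⟩
    have hFc : IsCompact (f.toExposed Q) := hexp.isCompact hQcomp
    obtain ⟨q, hq⟩ := hFc.extremePoints_nonempty ⟨z, hzF⟩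
    refine ⟨q, hexp.isExtreme.extremePoints_subset_extremePoints hq, ?_⟩
    have hqF : q ∈ f.toExposed Q := extremePoints_subset hq
    exact hfq0.trans_le (hqF.2 q0 hq0)
  have hqQ : q ∈ Q := extremePoints_subset hqext
  -- the farthest point of P in direction q
  set R : Set E := {x | x ∈ P ∧ x - v = (g x - g v) • q} with hR
  have hRclosed : IsClosed R := by
    have h1 : IsClosed {x : E | x - v = (g x - g v) • q} :=
      isClosed_eq (continuous_id.sub continuous_const)
        ((g.continuous.sub continuous_const).smul continuous_const)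
    exact hPcomp.isClosed.inter h1
  have hRcomp : IsCompact R := hPcomp.of_isClosed_subset hRclosed fun x hx => hx.1
  obtain ⟨w', hw'V, hw'q⟩ : q ∈ D '' V' := extremePoints_convexHull_subset hqext
  have hw'R : w' ∈ R := by
    refine ⟨subset_convexHull ℝ V hw'V.1, ?_⟩
    rw [← hw'q]
    simp only [hD]
    rw [smul_inv_smul₀ (hτ w' hw'V).ne']
  obtain ⟨w, hwR, hwmax⟩ := hRcomp.exists_isMaxOn ⟨w', hw'R⟩ g.continuous.continuousOn
  have hgw : g v < g w := by
    have h1 : g w' ≤ g w := hwmax hw'R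
    have h2 := hτ w' hw'V
    linarith
  have hwP : w ∈ P := hwR.1
  have hweq : w = v + (g w - g v) • q := by
    rw [← hwR.2]
    abel
  -- points of the segment
  have hseg : ∀ t : ℝ, 0 ≤ t → t ≤ g w - g v → v + t • q ∈ segment ℝ v w := by
    intro t ht htw
    rw [segment_eq_image']
    refine ⟨t / (g w - g v), ⟨by positivity, by rw [div_le_one (by linarith)]; exact htw⟩, ?_⟩
    simp only
    rw [hwR.2, smul_smul, div_mul_cancel₀ _ (by linarith : (g w - g v) ≠ 0).symm.symm]
  have key : ∀ x1 ∈ P, ∀ x2 ∈ P, ∀ z ∈ segment ℝ v w, z ∈ openSegment ℝ x1 x2 →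
      x1 ∈ segment ℝ v w := by
    intro x1 hx1 x2 hx2 z hz hz12
    obtain ⟨t1, ht1, q1, hq1, e1⟩ := hcone x1 hx1
    obtain ⟨t2, ht2, q2, hq2, e2⟩ := hcone x2 hx2
    rw [segment_eq_image'] at hz
    obtain ⟨θ, ⟨hθ0, hθ1⟩, hzθ⟩ := hz
    simp only at hzθ
    obtain ⟨a, b, ha, hb, hab, hzab⟩ := hz12
    set s := θ * (g w - g v) with hs
    have hzs : z = v + s • q := by
      rw [← hzθ, hwR.2, smul_smul]
    have hzz : z = v + ((a * t1) • q1 + (b * t2) • q2) := by
      rw [← hzab, e1, e2]
      have e : a • (v + t1 • q1) + b • (v + t2 • q2) =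
          (a + b) • v + ((a * t1) • q1 + (b * t2) • q2) := by module
      rw [e, hab, one_smul]
    have hqeq : s • q = (a * t1) • q1 + (b * t2) • q2 := by
      have := hzs.symm.trans hzz
      exact add_left_cancel this
    have hsum : s = a * t1 + b * t2 := by
      have := congrArg g hqeq
      simp only [map_smul, map_add, smul_eq_mul, hgQ q hqQ, hgQ q1 hq1, hgQ q2 hq2, mul_one] at this
      exact this
    rcases ht1.eq_or_lt with h0 | h1pos
    · rw [e1, ← h0, zero_smul, add_zero]
      exact left_mem_segment ℝ v w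
    have hq1q : q1 = q := by
      rcases ht2.eq_or_lt with h0 | h2pos
      · rw [← h0, mul_zero, zero_smul, add_zero] at hqeq
        rw [← h0, mul_zero, add_zero] at hsum
        rw [hsum] at hqeq
        have hne : a * t1 ≠ 0 := (mul_pos ha h1pos).ne'
        exact (smul_right_injective E hne hqeq).symm
      · have hspos : 0 < s := by
          rw [hsum]
          positivity
        have hmem : q ∈ openSegment ℝ q1 q2 := by
          refine ⟨a * t1 / s, b * t2 / s, by positivity, by positivity, ?_, ?_⟩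
          · rw [← add_div, ← hsum, div_self hspos.ne']
          · have : q = s⁻¹ • (s • q) := by rw [inv_smul_smul₀ hspos.ne']
            rw [this, hqeq, smul_add, smul_smul, smul_smul]
            congr 2 <;> field_simp
        exact hqext.2 hq1 hq2 hmem
    have hx1R : x1 ∈ R := by
      refine ⟨hx1, ?_⟩
      rw [e1, hq1q, map_add, map_smul, smul_eq_mul, hgQ q hqQ]
      simp
    have hle : t1 ≤ g w - g v := by
      have h1 : g x1 ≤ g w := hwmax hx1R
      rw [e1, map_add, map_smul, smul_eq_mul, hgQ q1 hq1] at h1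
      linarith
    rw [e1, hq1q]
    exact hseg t1 ht1 hle
  have hext : IsExtreme ℝ P (segment ℝ v w) :=
    ⟨hPconv.segment_subset hvP hwP, fun x1 hx1 x2 hx2 z hz hz12 => key x1 hx1 x2 hx2 z hz hz12⟩
  have hgseg : ∀ x ∈ segment ℝ v w, x = v + (g x - g v) • q ∧ g x ≤ g w := by
    intro x hx
    rw [segment_eq_image'] at hx
    obtain ⟨θ, ⟨hθ0, hθ1⟩, hxθ⟩ := hx
    simp only at hxθ
    rw [hwR.2, smul_smul] at hxθ
    have hgx : g x = g v + θ * (g w - g v) := by
      rw [← hxθ, map_add, map_smul, smul_eq_mul, hgQ q hqQ, mul_one]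
    constructor
    · rw [hgx, ← hxθ]
      congr 2
      ring
    · rw [hgx]
      nlinarith
  refine ⟨w, ⟨hwP, ?_⟩, ?_, hext, ?_⟩
  · intro x1 hx1 x2 hx2 hw12
    have h1 := hgseg x1 (hext.left_mem_of_mem_openSegment hx1 hx2 (right_mem_segment ℝ v w) hw12)
    have h2 := hgseg x2 (hext.right_mem_of_mem_openSegment hx1 hx2 (right_mem_segment ℝ v w) hw12)
    obtain ⟨a, b, ha, hb, hab, hwab⟩ := hw12
    have hgw' : g w = a * g x1 + b * g x2 := by
      rw [← hwab, map_add, map_smul, map_smul]
      rfl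
    have : g x1 = g w := by
      refine le_antisymm h1.2 ?_
      by_contra hlt
      push Not at hlt
      have e1 : a * g x1 < a * g w := mul_lt_mul_of_pos_left hlt ha
      have e2 : b * g x2 ≤ b * g w := mul_le_mul_of_nonneg_left h2.2 hb.le
      have e3 : a * g w + b * g w = g w := by rw [← add_mul, hab, one_mul]
      linarith
    rw [h1.1, this]
    exact hweq.symm
  · rintro rfl
    exact lt_irrefl _ hgw
  · rw [hweq, map_add, map_smul, smul_eq_mul]
    have : 0 < (g w - g v) * f q := mul_pos (by linarith) hfq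
    linarith

/-- A perturbation of a linear functional which is injective on a finite set and compatible with
the order given by the functional. -/
lemma exists_generic [FiniteDimensional ℝ E] {T : Set E} (hT : T.Finite) (φ : E →L[ℝ] ℝ) :
    ∃ h : E →L[ℝ] ℝ, (∀ x ∈ T, ∀ y ∈ T, φ x < φ y → h x < h y) ∧ Set.InjOn h T := by
  classical
  have : Finite T := hT
  obtain ⟨g, hg⟩ := Module.exists_dual_forall_apply_ne_zero (K := ℝ)
    (fun p : {p : T × T // p.1 ≠ p.2} => (p.1.1 : E) - (p.1.2 : E))
    (fun p h => p.2 (Subtype.ext (sub_eq_zero.mp h)))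
  have hg' : ∀ x ∈ T, ∀ y ∈ T, x ≠ y → g x ≠ g y := by
    intro x hx y hy hxy h
    apply hg ⟨(⟨x, hx⟩, ⟨y, hy⟩), fun h' => hxy (congrArg Subtype.val h')⟩
    simp [h]
  have hev : ∀ p : T × T, ∃ δ : ℝ, 0 < δ ∧ ∀ ε : ℝ, 0 < ε → ε ≤ δ → φ p.1 < φ p.2 →
      ε * |g p.1 - g p.2| < φ p.2 - φ p.1 := by
    intro p
    by_cases hlt : φ p.1 < φ p.2
    · refine ⟨(φ p.2 - φ p.1) / (|g p.1 - g p.2| + 1), by
        have := abs_nonneg (g p.1 - g p.2)
        exact div_pos (by linarith) (by linarith), fun ε hε hεδ _ => ?_⟩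
      have h0 := abs_nonneg (g p.1 - g p.2)
      rw [le_div_iff₀ (by linarith)] at hεδ
      nlinarith
    · exact ⟨1, one_pos, fun ε _ _ h => absurd h hlt⟩
  choose δ hδ0 hδ using hev
  obtain ⟨ε, hε0, hε⟩ : ∃ ε : ℝ, 0 < ε ∧ ∀ p : T × T, ε ≤ δ p := by
    have : Fintype (T × T) := Fintype.ofFinite _
    by_cases hne : (Finset.univ : Finset (T × T)).Nonempty
    · obtain ⟨p0, _, hp0⟩ := Finset.exists_min_image Finset.univ δ hne
      exact ⟨δ p0, hδ0 p0, fun p => hp0 p (Finset.mem_univ p)⟩
    · refine ⟨1, one_pos, fun p => ?_⟩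
      exact absurd ⟨p, Finset.mem_univ p⟩ hne
  have key : ∀ x ∈ T, ∀ y ∈ T, φ x < φ y → φ x + ε * g x < φ y + ε * g y := by
    intro x hx y hy hxy
    have h1 := hδ (⟨x, hx⟩, ⟨y, hy⟩) ε hε0 (hε _) hxy
    simp only at h1
    have h2 : ε * (g x - g y) ≤ ε * |g x - g y| :=
      mul_le_mul_of_nonneg_left (le_abs_self _) hε0.le
    nlinarith
  refine ⟨φ + ε • (LinearMap.toContinuousLinearMap g), ?_, ?_⟩
  · intro x hx y hy hxy
    simpa using key x hx y hy hxy
  · intro x hx y hy hxy
    by_contra hne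
    have hxy' : φ x + ε * g x = φ y + ε * g y := by simpa using hxy
    rcases lt_trichotomy (φ x) (φ y) with h | h | h
    · exact absurd hxy' (key x hx y hy h).ne
    · rw [h] at hxy'
      have h1 : ε * g x = ε * g y := add_left_cancel hxy'
      exact hg' x hx y hy hne (mul_left_cancel₀ hε0.ne' h1)
    · exact absurd hxy' (key y hy x hx h).ne'

/-- `P` is the convex hull of a finite set. -/
def IsPoly (P : Set E) : Prop := ∃ V : Set E, V.Finite ∧ P = convexHull ℝ V

lemma IsPoly.finite_extremePoints {P : Set E} (hP : IsPoly P) : (P.extremePoints ℝ).Finite := by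
  obtain ⟨V, hV, rfl⟩ := hP
  exact hV.subset extremePoints_convexHull_subset

lemma IsPoly.convex {P : Set E} (hP : IsPoly P) : Convex ℝ P := by
  obtain ⟨V, hV, rfl⟩ := hP
  exact convex_convexHull ℝ V

lemma IsPoly.improving {P : Set E} (hP : IsPoly P) {v : E}
    (hv : v ∈ P.extremePoints ℝ) (f : E →L[ℝ] ℝ) {y : E}
    (hy : y ∈ P) (hfy : f v < f y) :
    ∃ w ∈ P.extremePoints ℝ, w ≠ v ∧ IsExtreme ℝ P (segment ℝ v w) ∧ f v < f w := by
  obtain ⟨V, hV, rfl⟩ := hP
  exact exists_improving hV hv f hy hfy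

section balinski

variable [FiniteDimensional ℝ E] {P : Set E}

/-- All vertices strictly above a level, and all vertices on the level outside `S`, lie on the
same side of a set `C` that is closed under adjacency off `S`. -/
lemma upper_connected (hP : IsPoly P) (φ : E →L[ℝ] ℝ) (c : ℝ)
    (S C : Set (P.extremePoints ℝ)) (hS : ∀ x ∈ S, φ x.1 ≤ c)
    (hC : ∀ x y, (skel P).Adj x y → x ∉ S → y ∉ S → (x ∈ C ↔ y ∈ C))
    {y : E} (hy : y ∈ P) (hcy : c < φ y) :
    ∀ w₁ w₂, w₁ ∉ S → w₂ ∉ S → c ≤ φ w₁.1 → c ≤ φ w₂.1 → (w₁ ∈ C ↔ w₂ ∈ C) := by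
  classical
  have hTfin : (P.extremePoints ℝ).Finite := hP.finite_extremePoints
  have : Finite (P.extremePoints ℝ) := hTfin
  have : Fintype (P.extremePoints ℝ) := Fintype.ofFinite _
  obtain ⟨h, hh, hinj⟩ := exists_generic hTfin φ
  -- above the level everything is equivalent to the maximiser of `h`
  have main : ∀ (n : ℕ) (w : P.extremePoints ℝ), c < φ w.1 →
      (Finset.univ.filter fun x : P.extremePoints ℝ => h w.1 < h x.1).card = n →
      ∀ t : P.extremePoints ℝ, (∀ x : P.extremePoints ℝ, h x.1 ≤ h t.1) → (w ∈ C ↔ t ∈ C) := by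
    intro n
    induction n using Nat.strong_induction_on with
    | _ n ih =>
      intro w hw hn t ht
      by_cases hwt : h w.1 < h t.1
      · obtain ⟨w', hw'ext, hw'ne, hw'edge, hw'lt⟩ :=
          hP.improving w.2 h (extremePoints_subset t.2) hwt
        have hφ : φ w.1 ≤ φ w' := by
          by_contra hlt
          push Not at hlt
          have := hh w' hw'ext w.1 w.2 hlt
          linarith
        set w'' : P.extremePoints ℝ := ⟨w', hw'ext⟩ with hw''
        have hadj : (skel P).Adj w w'' := ⟨fun h' => hw'ne (by rw [h']), hw'edge⟩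
        have hwS : w ∉ S := fun hwS => absurd (hS w hwS) (not_le.mpr hw)
        have hw''S : w'' ∉ S := fun hwS => by
          have := hS w'' hwS
          have h2 : φ w''.1 = φ w' := rfl
          linarith
        have hcard : (Finset.univ.filter fun x : P.extremePoints ℝ => h w''.1 < h x.1).card < n := by
          rw [← hn]
          apply Finset.card_lt_card
          rw [Finset.ssubset_iff_of_subset]
          · exact ⟨w'', by simpa using hw'lt, by simp⟩
          · intro x hx
            simp only [Finset.mem_filter, Finset.mem_univ, true_and] at hx ⊢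
            exact hw'lt.trans hx
        rw [hC w w'' hadj hwS hw''S]
        exact ih _ hcard w'' (lt_of_lt_of_le hw hφ) rfl t ht
      · have : h w.1 = h t.1 := le_antisymm (ht w) (not_lt.mp hwt)
        have : w = t := Subtype.ext (hinj w.2 t.2 this)
        rw [this]
  intro w₁ w₂ h1S h2S hw1 hw2
  obtain ⟨t, ht⟩ : ∃ t : P.extremePoints ℝ, ∀ x : P.extremePoints ℝ, h x.1 ≤ h t.1 := by
    obtain ⟨t, _, ht⟩ := Finset.exists_max_image Finset.univ (fun x : P.extremePoints ℝ => h x.1)
      ⟨w₁, Finset.mem_univ _⟩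
    exact ⟨t, fun x => ht x (Finset.mem_univ x)⟩
  have step : ∀ w, w ∉ S → c ≤ φ w.1 → (w ∈ C ↔ t ∈ C) := by
    intro w hwS hw
    rcases hw.eq_or_lt with h' | h'
    · obtain ⟨w', hw'ext, hw'ne, hw'edge, hw'lt⟩ :=
        hP.improving w.2 φ hy (by rw [← h']; exact hcy)
      set w'' : P.extremePoints ℝ := ⟨w', hw'ext⟩ with hw''
      have hadj : (skel P).Adj w w'' := ⟨fun h' => hw'ne (by rw [h']), hw'edge⟩
      have hgt : c < φ w''.1 := by rw [h']; exact hw'lt
      have hw''S : w'' ∉ S := fun hwS => absurd (hS w'' hwS) (not_le.mpr hgt)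
      rw [hC w w'' hadj hwS hw''S]
      exact main _ w'' hgt rfl t ht
    · exact main _ w h' rfl t ht
  rw [step w₁ h1S hw1, step w₂ h2S hw2]

/-- **Balinski's theorem**, in the form: fewer than `dim P` vertices do not separate the graph of
the polytope `P`. -/
theorem balinski (hP : IsPoly P) (S C : Set (P.extremePoints ℝ))
    (hS : S.ncard < Module.finrank ℝ (vectorSpan ℝ P))
    (hC : ∀ x y, (skel P).Adj x y → x ∉ S → y ∉ S → (x ∈ C ↔ y ∈ C))
    (a b : P.extremePoints ℝ) (ha : a ∉ S) (hb : b ∉ S) : a ∈ C ↔ b ∈ C := by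
  classical
  have hTfin : (P.extremePoints ℝ).Finite := hP.finite_extremePoints
  have : Finite (P.extremePoints ℝ) := hTfin
  have haP : a.1 ∈ P := extremePoints_subset a.2
  -- a functional constant on S ∪ {a} but not on P
  set U : Submodule ℝ E := Submodule.span ℝ ((fun x : P.extremePoints ℝ => x.1 - a.1) '' S) with hU
  have hUrank : Module.finrank ℝ U ≤ S.ncard := by
    have h1 : ((fun x : P.extremePoints ℝ => x.1 - a.1) '' S).Finite := S.toFinite.image _
    have : Fintype ((fun x : P.extremePoints ℝ => x.1 - a.1) '' S) := h1.fintype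
    calc Module.finrank ℝ U ≤ ((fun x : P.extremePoints ℝ => x.1 - a.1) '' S).toFinset.card :=
          finrank_span_le_card _
      _ = ((fun x : P.extremePoints ℝ => x.1 - a.1) '' S).ncard := by
          rw [Set.ncard_eq_toFinset_card']
      _ ≤ S.ncard := Set.ncard_image_le S.toFinite
  obtain ⟨y, hyP, hyU⟩ : ∃ y ∈ P, y - a.1 ∉ U := by
    by_contra hcon
    push Not at hcon
    have hle : vectorSpan ℝ P ≤ U := by
      rw [vectorSpan_eq_span_vsub_set_right ℝ haP, Submodule.span_le]
      rintro _ ⟨y, hy, rfl⟩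
      exact hcon y hy
    have := Submodule.finrank_mono hle
    omega
  obtain ⟨φ0, hφ0y, hφ0U⟩ := Submodule.exists_le_ker_of_notMem hyU
  set φ : E →L[ℝ] ℝ := LinearMap.toContinuousLinearMap φ0 with hφ
  have hφS : ∀ x ∈ S, φ x.1 = φ a.1 := by
    intro x hx
    have h1 : x.1 - a.1 ∈ U := Submodule.subset_span ⟨x, hx, rfl⟩
    have h2 : φ0 (x.1 - a.1) = 0 := hφ0U h1
    rw [map_sub, sub_eq_zero] at h2
    exact h2
  have hφy : φ y ≠ φ a.1 := by
    intro h
    apply hφ0y
    rw [map_sub, sub_eq_zero]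
    exact h
  have hup : ∀ z ∈ P, φ a.1 < φ z → ∀ w, w ∉ S → φ a.1 ≤ φ w.1 → (a ∈ C ↔ w ∈ C) := by
    intro z hz hlt w hwS hw
    exact upper_connected hP φ (φ a.1) S C (fun x hx => (hφS x hx).le) hC hz hlt a w ha hwS le_rfl hw
  have hdown : ∀ z ∈ P, φ z < φ a.1 → ∀ w, w ∉ S → φ w.1 ≤ φ a.1 → (a ∈ C ↔ w ∈ C) := by
    intro z hz hlt w hwS hw
    exact upper_connected hP (-φ) (-φ a.1) S C (fun x hx => by
      simp [hφS x hx]) hC hz (by simpa using hlt) a w ha hwS (by simp) (by simpa using hw)
  by_cases hboth : (∃ z ∈ P, φ a.1 < φ z) ∧ ∃ z ∈ P, φ z < φ a.1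
  · obtain ⟨⟨z1, hz1, h1⟩, ⟨z2, hz2, h2⟩⟩ := hboth
    rcases le_total (φ a.1) (φ b.1) with h | h
    · exact hup z1 hz1 h1 b hb h
    · exact hdown z2 hz2 h2 b hb h
  · rcases lt_or_gt_of_ne hφy with h | h
    · -- then nothing is above a
      have hno : ∀ z ∈ P, φ z ≤ φ a.1 := by
        intro z hz
        by_contra hlt
        push Not at hlt
        exact hboth ⟨⟨z, hz, hlt⟩, ⟨y, hyP, h⟩⟩
      exact hdown y hyP h b hb (hno b.1 (extremePoints_subset b.2))
    · have hno : ∀ z ∈ P, φ a.1 ≤ φ z := by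
        intro z hz
        by_contra hlt
        push Not at hlt
        exact hboth ⟨⟨y, hyP, h⟩, ⟨z, hz, hlt⟩⟩
      exact hup y hyP h b hb (hno b.1 (extremePoints_subset b.2))

end balinski

end Pool.Agent.Helper70.Poly
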