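import Mathlib
import Pool.Agent.Helper70.PolyBasic

/-!
# The upper bound: `n` nodes of a simple polytope totally separate at most `n` nodes
-/

open Set

namespace Pool.Agent.Helper70.Poly

/-- The graph obtained from `G` by isolating the nodes in `M`. -/
def delVerts {V : Type*} (G : SimpleGraph V) (M : Set V) : SimpleGraph V where
  Adj x y := G.Adj x y ∧ x ∉ M ∧ y ∉ M
  symm := ⟨fun _ _ h => ⟨h.1.symm, h.2.2, h.2.1⟩⟩
  loopless := ⟨fun _ h => h.1.ne rfl⟩

lemma delVerts_le {V : Type*} (G : SimpleGraph V) (M : Set V) : delVerts G M ≤ G :=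
  fun _ _ h => h.1

lemma notMem_of_mem_support {V : Type*} (G : SimpleGraph V) (M : Set V) {a b : V}
    (p : (delVerts G M).Walk a b) (ha : a ∉ M) : ∀ x ∈ p.support, x ∉ M := by
  induction p with
  | nil =>
    intro x hx
    simp only [SimpleGraph.Walk.support_nil, List.mem_singleton] at hx
    rwa [hx]
  | cons h p ih =>
    intro x hx
    rw [SimpleGraph.Walk.support_cons, List.mem_cons] at hx
    rcases hx with rfl | hx
    · exact ha
    · exact ih h.2.2 x hx

lemma notMem_of_reachable {V : Type*} (G : SimpleGraph V) (M : Set V) {a b : V}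
    (h : (delVerts G M).Reachable a b) (ha : a ∉ M) : b ∉ M := by
  obtain ⟨p⟩ := h
  exact notMem_of_mem_support G M p ha b p.end_mem_support

lemma TotallySeparated.not_reachable {V : Type*} [DecidableEq V] {G : SimpleGraph V}
    {M N : Finset V} (h : TotallySeparated G M N) {a b : V} (ha : a ∈ N) (hb : b ∈ N)
    (hab : a ≠ b) : ¬ (delVerts G (M : Set V)).Reachable a b := by
  rintro ⟨p⟩
  have haM : a ∉ (M : Set V) := fun h' => (Finset.disjoint_left.mp h.1) h' ha
  have hp := notMem_of_mem_support G (M : Set V) p.toPath.1 haM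
  obtain ⟨x, hx, hxM⟩ := h.2 a ha b hb hab (p.toPath.1.mapLe (delVerts_le G M))
    (SimpleGraph.Walk.IsPath.mapLe _ p.toPath.2)
  rw [SimpleGraph.Walk.support_mapLe_eq_support] at hx
  exact hp x hx hxM

/-- The general counting bound: in a finite graph which is `d`-regular and in which no set of
fewer than `d` nodes separates, `n ≥ 1` nodes totally separate at most `n` nodes. -/
theorem card_le_of_connected {V : Type*} [Fintype V] (G : SimpleGraph V) {d : ℕ} (hd : 1 ≤ d)
    (hreg : ∀ v, (G.neighborSet v).ncard = d)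
    (hconn : ∀ S C : Set V, S.ncard < d →
      (∀ x y, G.Adj x y → x ∉ S → y ∉ S → (x ∈ C ↔ y ∈ C)) →
      ∀ a b, a ∉ S → b ∉ S → (a ∈ C ↔ b ∈ C))
    {M N : Finset V} (hM : 1 ≤ M.card) (h : TotallySeparated G M N) : N.card ≤ M.card := by
  classical
  by_cases hN : N.card ≤ 1
  · exact hN.trans hM
  push Not at hN
  -- components
  let C : V → Set V := fun a => {x | (delVerts G (M : Set V)).Reachable a x}
  have hNM : ∀ a ∈ N, a ∉ M := fun a ha haM => (Finset.disjoint_left.mp h.1) haM ha
  have hCM : ∀ a ∈ N, ∀ x ∈ C a, x ∉ M := fun a ha x hx => by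
    have := notMem_of_reachable G (M : Set V) hx (by simpa using hNM a ha)
    simpa using this
  let D : V → Set V := fun a => {m | m ∈ M ∧ ∃ x ∈ C a, G.Adj m x}
  have hD : ∀ a ∈ N, d ≤ (D a).ncard := by
    intro a ha
    by_contra hlt
    push Not at hlt
    obtain ⟨b, hb, hba⟩ := Finset.exists_mem_ne hN a
    have haD : a ∉ D a := fun h' => hNM a ha h'.1
    have hbD : b ∉ D a := fun h' => hNM b hb h'.1
    have hclosed : ∀ x y, G.Adj x y → x ∉ D a → y ∉ D a → x ∈ C a → y ∈ C a := by
      intro x y hxy _ hy hx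
      have hxM := hCM a ha x hx
      have hyM : y ∉ M := fun hyM => hy ⟨hyM, x, hx, hxy.symm⟩
      exact SimpleGraph.Reachable.trans hx (SimpleGraph.Adj.reachable
        (⟨hxy, by simpa using hxM, by simpa using hyM⟩ : (delVerts G (M : Set V)).Adj x y))
    have := hconn (D a) (C a) hlt (fun x y hxy hx hy =>
      ⟨hclosed x y hxy hx hy, hclosed y x hxy.symm hy hx⟩) a b haD hbD
    exact h.not_reachable ha hb hba.symm (this.mp (SimpleGraph.Reachable.refl a))
  -- double counting
  let EM : Finset (V × V) := (M ×ˢ Finset.univ).filter fun p => G.Adj p.1 p.2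
  let Ea : V → Finset (V × V) := fun a =>
    (M ×ˢ Finset.univ).filter fun p => G.Adj p.1 p.2 ∧ p.2 ∈ C a
  have hEM : EM.card = M.card * d := by
    have h1 : EM.card = ∑ m ∈ M, (Finset.univ.filter fun x => G.Adj m x).card := by
      rw [Finset.card_eq_sum_card_fiberwise (f := Prod.fst) (t := M)
        (fun p hp => (Finset.mem_product.mp (Finset.mem_filter.mp hp).1).1)]
      refine Finset.sum_congr rfl fun m hm => ?_
      refine Finset.card_bij (fun p _ => p.2) ?_ ?_ ?_
      · intro p hp
        simp only [EM, Finset.mem_filter, Finset.mem_product] at hp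
        simp only [Finset.mem_filter, Finset.mem_univ, true_and]
        rw [← hp.2]
        exact hp.1.2
      · intro p hp q hq hpq
        simp only [EM, Finset.mem_filter, Finset.mem_product] at hp hq
        exact Prod.ext (hp.2.trans hq.2.symm) hpq
      · intro x hx
        simp only [Finset.mem_filter, Finset.mem_univ, true_and] at hx
        exact ⟨(m, x), by simp [EM, hm, hx], rfl⟩
    rw [h1]
    have h2 : ∀ m ∈ M, (Finset.univ.filter fun x => G.Adj m x).card = d := by
      intro m _
      rw [← hreg m, ← Set.ncard_coe_finset]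
      congr 1
      ext x
      simp
    rw [Finset.sum_congr rfl h2, Finset.sum_const, smul_eq_mul]
  have hEa : ∀ a ∈ N, d ≤ (Ea a).card := by
    intro a ha
    refine (hD a ha).trans ?_
    have h1 : D a ⊆ Prod.fst '' (Ea a : Set (V × V)) := by
      rintro m ⟨hm, x, hx, hmx⟩
      exact ⟨(m, x), by simp [Ea, hm, hmx, hx], rfl⟩
    calc (D a).ncard ≤ (Prod.fst '' (Ea a : Set (V × V))).ncard :=
          Set.ncard_le_ncard h1 (Set.toFinite _)
      _ ≤ ((Ea a : Set (V × V))).ncard := Set.ncard_image_le (Set.toFinite _)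
      _ = (Ea a).card := Set.ncard_coe_finset _
  have hdisj : ∀ a ∈ N, ∀ b ∈ N, a ≠ b → Disjoint (Ea a) (Ea b) := by
    intro a ha b hb hab
    rw [Finset.disjoint_left]
    intro p hp hq
    have h1 : p.2 ∈ C a := (Finset.mem_filter.mp hp).2.2
    have h2 : p.2 ∈ C b := (Finset.mem_filter.mp hq).2.2
    exact h.not_reachable ha hb hab (SimpleGraph.Reachable.trans h1 (SimpleGraph.Reachable.symm h2))
  have hsub : N.biUnion Ea ⊆ EM := by
    intro p hp
    obtain ⟨a, _, hpa⟩ := Finset.mem_biUnion.mp hp
    have := Finset.mem_filter.mp hpa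
    exact Finset.mem_filter.mpr ⟨this.1, this.2.1⟩
  have hfinal : N.card * d ≤ M.card * d := by
    calc N.card * d = ∑ a ∈ N, d := by simp
      _ ≤ ∑ a ∈ N, (Ea a).card := Finset.sum_le_sum hEa
      _ = (N.biUnion Ea).card := (Finset.card_biUnion hdisj).symm
      _ ≤ EM.card := Finset.card_le_card hsub
      _ = M.card * d := hEM
  exact Nat.le_of_mul_le_mul_right hfinal (by omega)

/-- The upper bound for simple `d`-polytopes. -/
theorem sepCards_le {n d k : ℕ} (hd : 1 ≤ d) (hn : 1 ≤ n) (hk : k ∈ sepCards n d) : k ≤ n := by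
  obtain ⟨P, ⟨hPoly, hspan, hsimple⟩, M, N, hM, hN, hsep⟩ := hk
  have hP : IsPoly P := hPoly
  have hfin : Finite (P.extremePoints ℝ) := hP.finite_extremePoints
  have : Fintype (P.extremePoints ℝ) := Fintype.ofFinite _
  rw [← hM, ← hN]
  refine card_le_of_connected (skel P) hd hsimple ?_ (by omega) hsep
  intro S C hS hC a b ha hb
  have hdim : Module.finrank ℝ (vectorSpan ℝ P) = d := by
    have hne : P.Nonempty := ⟨a.1, extremePoints_subset a.2⟩
    have h1 : vectorSpan ℝ P = ⊤ := by
      rw [← direction_affineSpan, hspan]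
      exact AffineSubspace.direction_top ℝ _ _
    rw [h1, finrank_top]
    simp
  exact balinski hP S C (by rw [hdim]; exact hS) hC a b ha hb

end Pool.Agent.Helper70.Poly
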