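import Mathlib

namespace Pool.Agent.Helper19.Perco
end Pool.Agent.Helper19.Perco

/-!
# The two slice types in the square
-/

set_option linter.unusedSectionVars false
set_option linter.unusedVariables false

namespace Pool.Agent.Helper70.Duo

open Set SimpleGraph Pool.Agent.Helper19.Perco

/-- early vertices -/
def CY (L a b : ℕ) : Prop :=
  (a = L ∧ b < L) ∨ (a = 1 ∧ 4 ≤ b ∧ b + 4 ≤ L) ∨ (a + 2 = L ∧ b = 1)

instance (L a b : ℕ) : Decidable (CY L a b) := by unfold CY; infer_instance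

/-- seeds -/
def AY (L a b : ℕ) : Prop :=
  (a = L ∧ b % 2 = 1 ∧ b < L) ∨ (a = 1 ∧ b % 2 = 0 ∧ 4 ≤ b ∧ b + 4 ≤ L) ∨ (a + 2 = L ∧ b = 1)

/-- column offsets -/
def w (L a : ℕ) : ℕ := (L - 2 - a) * L

/-- times -/
def sY (L a b : ℕ) : ℕ :=
  if CY L a b then 0
  else if a ≤ 4 ∧ L ≤ b + 4 then w L 4 + L - 3
  else if a = L then L + 1
  else if a + 1 = L then b
  else if a + 2 = L then b + 1
  else if 4 ≤ a then (if a % 2 = 0 then w L a + 1 + b else w L a + L + 2 - b)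
  else w L 4 + 5 + b - a

lemma w_succ {L a : ℕ} (h : a + 3 ≤ L) : w L a = w L (a + 1) + L := by
  unfold w
  have : L - 2 - a = (L - 2 - (a + 1)) + 1 := by omega
  rw [this]; ring

lemma w_anti {L a b : ℕ} (h : a ≤ b) : w L b ≤ w L a := by
  unfold w
  exact Nat.mul_le_mul_right _ (by omega)

lemma w_five {L a : ℕ} (hL : 10 ≤ L) (h : 5 ≤ a) : w L a + L ≤ w L 4 := by
  have h1 := w_succ (L := L) (a := 4) (by omega)
  have h2 := w_anti (L := L) h
  have : 4 + 1 = 5 := rfl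
  rw [this] at h1
  omega

lemma w_four {L : ℕ} (hL : 10 ≤ L) : 4 * L ≤ w L 4 := by
  unfold w
  exact Nat.mul_le_mul_right _ (by omega)

lemma w_zero {L a : ℕ} (h : L ≤ a + 2) : w L a = 0 := by
  unfold w
  have : L - 2 - a = 0 := by omega
  rw [this, Nat.zero_mul]

/-- times, columns `1`, `2`, `3` -/
lemma sY_low {L a b : ℕ} (hL : 10 ≤ L) (h1 : 1 ≤ a) (h : a ≤ 3) :
    (CY L a b ∧ sY L a b = 0) ∨ (¬ CY L a b ∧ L ≤ b + 4 ∧ sY L a b = w L 4 + L - 3) ∨
      (¬ CY L a b ∧ b + 4 < L ∧ (2 ≤ a ∨ b < 4) ∧ sY L a b = w L 4 + 5 + b - a) := by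
  unfold sY
  by_cases hc : CY L a b
  · left; exact ⟨hc, by rw [if_pos hc]⟩
  · right
    by_cases hb : L ≤ b + 4
    · left; exact ⟨hc, hb, by rw [if_neg hc, if_pos ⟨by omega, hb⟩]⟩
    · right
      refine ⟨hc, by omega, ?_, ?_⟩
      · by_contra h3
        apply hc
        unfold CY
        omega
      rw [if_neg hc, if_neg (fun h => hb h.2), if_neg (by omega), if_neg (by omega),
        if_neg (by omega), if_neg (by omega)]

/-- times, column `4` -/
lemma sY_four {L b : ℕ} (hL : 10 ≤ L) :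
    ¬ CY L 4 b ∧ ((L ≤ b + 4 ∧ sY L 4 b = w L 4 + L - 3) ∨
      (b + 4 < L ∧ sY L 4 b = w L 4 + 1 + b)) := by
  have hc : ¬ CY L 4 b := by unfold CY; omega
  refine ⟨hc, ?_⟩
  unfold sY
  by_cases hb : L ≤ b + 4
  · left; exact ⟨hb, by rw [if_neg hc, if_pos ⟨by omega, hb⟩]⟩
  · right
    refine ⟨by omega, ?_⟩
    rw [if_neg hc, if_neg (fun h => hb h.2), if_neg (by omega), if_neg (by omega),
      if_neg (by omega), if_pos (by omega), if_pos (by omega)]

/-- times, middle columns -/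
lemma sY_mid {L a b : ℕ} (h : 5 ≤ a) (h2 : a + 3 ≤ L) :
    ¬ CY L a b ∧ ((a % 2 = 0 ∧ sY L a b = w L a + 1 + b) ∨
      (a % 2 = 1 ∧ sY L a b = w L a + L + 2 - b)) := by
  have hc : ¬ CY L a b := by unfold CY; omega
  refine ⟨hc, ?_⟩
  unfold sY
  by_cases hb : a % 2 = 0
  · left
    refine ⟨hb, ?_⟩
    rw [if_neg hc, if_neg (by omega), if_neg (by omega), if_neg (by omega),
      if_neg (by omega), if_pos (by omega), if_pos (by omega)]
  · right
    refine ⟨by omega, ?_⟩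
    rw [if_neg hc, if_neg (by omega), if_neg (by omega), if_neg (by omega),
      if_neg (by omega), if_pos (by omega), if_neg (by omega)]

/-- times, column `L - 2` -/
lemma sY_two {L a b : ℕ} (hL : 10 ≤ L) (h : a + 2 = L) :
    (b = 1 ∧ CY L a b ∧ sY L a b = 0) ∨ (b ≠ 1 ∧ ¬ CY L a b ∧ sY L a b = b + 1) := by
  by_cases hb : b = 1
  · left
    have hc : CY L a b := by unfold CY; omega
    exact ⟨hb, hc, by unfold sY; rw [if_pos hc]⟩
  · right
    have hc : ¬ CY L a b := by unfold CY; omega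
    refine ⟨hb, hc, ?_⟩
    unfold sY
    rw [if_neg hc, if_neg (by omega), if_neg (by omega), if_neg (by omega), if_pos (by omega)]

/-- times, column `L - 1` -/
lemma sY_one {L a b : ℕ} (hL : 10 ≤ L) (h : a + 1 = L) :
    ¬ CY L a b ∧ sY L a b = b := by
  have hc : ¬ CY L a b := by unfold CY; omega
  refine ⟨hc, ?_⟩
  unfold sY
  rw [if_neg hc, if_neg (by omega), if_neg (by omega), if_pos (by omega)]

/-- times, column `L` -/
lemma sY_top {L a b : ℕ} (hL : 10 ≤ L) (h : a = L) :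
    (b < L ∧ CY L a b ∧ sY L a b = 0) ∨ (L ≤ b ∧ ¬ CY L a b ∧ sY L a b = L + 1) := by
  by_cases hb : b < L
  · left
    have hc : CY L a b := by unfold CY; omega
    exact ⟨hb, hc, by unfold sY; rw [if_pos hc]⟩
  · right
    have hc : ¬ CY L a b := by unfold CY; omega
    refine ⟨by omega, hc, ?_⟩
    unfold sY
    rw [if_neg hc, if_neg (by omega), if_pos (by omega)]

/-- right neighbour -/
lemma dir_right {L a b : ℕ} (hL : 10 ≤ L) (hL2 : L % 2 = 0) (ha : 1 ≤ a) (ha2 : a < L)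
    (hb : 1 ≤ b) (hb2 : b ≤ L) (hv : ¬ CY L a b)
    (hF : CY L (a + 1) b ∨ sY L (a + 1) b + 2 ≤ sY L a b) :
    (a = 4 ∧ L ≤ b + 4) ∨ (a + 1 = L ∧ b < L) ∨
      (4 ≤ a ∧ a + 3 ≤ L ∧ ((a % 2 = 1 ∧ b < L) ∨ (a % 2 = 0 ∧ 2 ≤ b))) := by
  have w4 := w_four hL
  have hc : a ≤ 2 ∨ a = 3 ∨ a = 4 ∨ (5 ≤ a ∧ a + 4 ≤ L) ∨ a + 3 = L ∨ a + 2 = L ∨ a + 1 = L := by
    omega
  rcases hc with h | rfl | rfl | ⟨h, h'⟩ | h | h | h
  · have k1 := sY_low (b := b) hL ha (by omega : a ≤ 3)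
    have k2 := sY_low (b := b) hL (by omega) (by omega : a + 1 ≤ 3)
    have k3 : CY L (a + 1) b → False := by unfold CY; omega
    rcases k1 with ⟨k, -⟩ | ⟨-, k, k'⟩ | ⟨-, k, kk, k'⟩
    · exact absurd k hv
    all_goals
      rcases k2 with ⟨m, -⟩ | ⟨-, m, m'⟩ | ⟨-, m, mm, m'⟩
      · exact absurd m k3
      all_goals
        rcases hF with hF | hF
        · exact absurd hF k3
        · exfalso; omega
  · have k1 := sY_low (b := b) hL ha (by omega : 3 ≤ 3)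
    obtain ⟨k3, k2⟩ := sY_four (b := b) hL
    rcases hF with hF | hF
    · exact absurd hF k3
    rcases k1 with ⟨k, -⟩ | ⟨-, k, k'⟩ | ⟨-, k, kk, k'⟩
    · exact absurd k hv
    all_goals
      rcases k2 with ⟨m, m'⟩ | ⟨m, m'⟩ <;> (simp only [Nat.reduceAdd] at hF; exfalso; omega)
  · obtain ⟨-, k1⟩ := sY_four (b := b) hL
    obtain ⟨k3, k2⟩ := sY_mid (L := L) (b := b) (by omega : 5 ≤ 4 + 1) (by omega : 4 + 1 + 3 ≤ L)
    have hF' := hF.resolve_left k3
    have w1 := w_succ (L := L) (a := 4) (by omega)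
    omega
  · obtain ⟨-, k1⟩ := sY_mid (b := b) h (by omega : a + 3 ≤ L)
    obtain ⟨k3, k2⟩ := sY_mid (b := b) (by omega : 5 ≤ a + 1) (by omega : a + 1 + 3 ≤ L)
    have w1 := w_succ (by omega : a + 3 ≤ L)
    rcases hF with hF | hF
    · exact absurd hF k3
    omega
  · have k1 := (sY_mid (b := b) (by omega : 5 ≤ a) (by omega : a + 3 ≤ L)).2
    have w1 := w_succ (by omega : a + 3 ≤ L)
    have w7 : w L (a + 1) = 0 := w_zero (by omega)
    rcases sY_two (b := b) hL (by omega : a + 1 + 2 = L) with ⟨k, -, -⟩ | ⟨k, k', k''⟩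
    · omega
    · have hF' := hF.resolve_left k'
      omega
  · have k1 := sY_one (b := b) hL (by omega : a + 1 + 1 = L)
    have k2 := sY_two (b := b) hL h
    rcases hF with hF | hF
    · exact absurd hF k1.1
    · have := k1.2
      omega
  · have k1 := sY_one (b := b) hL h
    have k2 := sY_top (b := b) hL (by omega : a + 1 = L)
    have := k1.2
    rcases k2 with ⟨k, -, -⟩ | ⟨k, k', k''⟩
    · omega
    · rcases hF with hF | hF
      · exact absurd hF k'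
      · omega

/-- left neighbour -/
lemma dir_left {L a b : ℕ} (hL : 10 ≤ L) (hL2 : L % 2 = 0) (ha : 1 ≤ a) (ha2 : a + 1 ≤ L)
    (hb : 1 ≤ b) (hb2 : b ≤ L) (hv : ¬ CY L (a + 1) b)
    (hF : CY L a b ∨ sY L a b + 2 ≤ sY L (a + 1) b) :
    (a = 1 ∧ 4 ≤ b ∧ b + 4 ≤ L) ∨ (a + 2 = L ∧ b = 1) := by
  have w4 := w_four hL
  have hc : a ≤ 2 ∨ a = 3 ∨ a = 4 ∨ (5 ≤ a ∧ a + 4 ≤ L) ∨ a + 3 = L ∨ a + 2 = L ∨ a + 1 = L := by
    omega
  rcases hc with h | rfl | rfl | ⟨h, h'⟩ | h | h | h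
  · by_cases hC : CY L a b
    · unfold CY at hC; omega
    have hF' := hF.resolve_left hC
    have k1 := sY_low (b := b) hL ha (by omega : a ≤ 3)
    have k2 := sY_low (b := b) hL (by omega) (by omega : a + 1 ≤ 3)
    rcases k1 with ⟨k, -⟩ | ⟨-, k, k'⟩ | ⟨-, k, kk, k'⟩
    · exact absurd k hC
    all_goals
      rcases k2 with ⟨m, -⟩ | ⟨-, m, m'⟩ | ⟨-, m, mm, m'⟩
      · exact absurd m hv
      all_goals exfalso; omega
  · by_cases hC : CY L 3 b
    · unfold CY at hC; omega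
    have hF' := hF.resolve_left hC
    have k1 := sY_low (b := b) hL ha (by omega : 3 ≤ 3)
    obtain ⟨k3, k2⟩ := sY_four (b := b) hL
    simp only [Nat.reduceAdd] at hF'
    rcases k1 with ⟨k, -⟩ | ⟨-, k, k'⟩ | ⟨-, k, kk, k'⟩
    · exact absurd k hC
    all_goals
      rcases k2 with ⟨m, m'⟩ | ⟨m, m'⟩ <;> (exfalso; omega)
  · obtain ⟨k3, k1⟩ := sY_four (b := b) hL
    have hF' := hF.resolve_left k3
    obtain ⟨-, k2⟩ := sY_mid (L := L) (b := b) (by omega : 5 ≤ 4 + 1) (by omega : 4 + 1 + 3 ≤ L)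
    have w1 := w_succ (L := L) (a := 4) (by omega)
    omega
  · obtain ⟨k3, k1⟩ := sY_mid (b := b) h (by omega : a + 3 ≤ L)
    obtain ⟨-, k2⟩ := sY_mid (b := b) (by omega : 5 ≤ a + 1) (by omega : a + 1 + 3 ≤ L)
    have hF' := hF.resolve_left k3
    have w1 := w_succ (by omega : a + 3 ≤ L)
    omega
  · obtain ⟨k3, k1⟩ := sY_mid (b := b) (by omega : 5 ≤ a) (by omega : a + 3 ≤ L)
    have hF' := hF.resolve_left k3
    have w1 := w_succ (by omega : a + 3 ≤ L)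
    have k2 := sY_two (b := b) hL (by omega : a + 1 + 2 = L)
    omega
  · have k1 := sY_one (b := b) hL (by omega : a + 1 + 1 = L)
    have k2 := sY_two (b := b) hL h
    rcases k2 with ⟨k, -, -⟩ | ⟨k, k', k''⟩
    · omega
    · have hF' := hF.resolve_left k'
      have := k1.2
      omega
  · have k1 := sY_one (b := b) hL h
    have k2 := sY_top (b := b) hL (by omega : a + 1 = L)
    have hF' := hF.resolve_left k1.1
    have := k1.2
    rcases k2 with ⟨k, k', -⟩ | ⟨k, k', k''⟩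
    · exact absurd k' hv
    · omega

/-- neighbour below -/
lemma dir_down {L a b : ℕ} (hL : 10 ≤ L) (hL2 : L % 2 = 0) (ha : 1 ≤ a) (ha2 : a ≤ L)
    (hb : 1 ≤ b) (hb2 : b + 1 ≤ L) (hv : ¬ CY L a (b + 1))
    (hF : CY L a b ∨ sY L a b + 2 ≤ sY L a (b + 1)) :
    (a = 1 ∧ b + 4 = L) ∨ (a = L ∧ b + 1 = L) ∨ (a + 2 = L ∧ b = 1) := by
  have w4 := w_four hL
  have hc : a ≤ 3 ∨ a = 4 ∨ (5 ≤ a ∧ a + 3 ≤ L) ∨ a + 2 = L ∨ a + 1 = L ∨ a = L := by
    omega
  rcases hc with h | rfl | ⟨h, h'⟩ | h | h | h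
  · by_cases hC : CY L a b
    · unfold CY at hC hv; omega
    have hF' := hF.resolve_left hC
    have k1 := sY_low (b := b) hL ha h
    have k2 := sY_low (b := b + 1) hL ha h
    rcases k1 with ⟨k, -⟩ | ⟨-, k, k'⟩ | ⟨-, k, kk, k'⟩
    · exact absurd k hC
    all_goals
      rcases k2 with ⟨m, -⟩ | ⟨-, m, m'⟩ | ⟨-, m, mm, m'⟩
      · exact absurd m hv
      all_goals exfalso; omega
  · obtain ⟨k3, k1⟩ := sY_four (b := b) hL
    have hF' := hF.resolve_left k3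
    obtain ⟨-, k2⟩ := sY_four (b := b + 1) hL
    omega
  · obtain ⟨k3, k1⟩ := sY_mid (b := b) h h'
    obtain ⟨-, k2⟩ := sY_mid (b := b + 1) h h'
    have hF' := hF.resolve_left k3
    omega
  · have k2 := sY_two (b := b) hL h
    rcases k2 with ⟨k, -, -⟩ | ⟨k, k', k''⟩
    · omega
    · have hF' := hF.resolve_left k'
      have k1 := sY_two (b := b + 1) hL h
      omega
  · have k1 := sY_one (b := b) hL h
    have k2 := sY_one (b := b + 1) hL h
    have hF' := hF.resolve_left k1.1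
    have := k1.2
    have := k2.2
    omega
  · rcases sY_top (b := b + 1) hL h with ⟨k, k', -⟩ | ⟨k, k', k''⟩
    · exact absurd k' hv
    · omega

/-- neighbour above -/
lemma dir_up {L a b : ℕ} (hL : 10 ≤ L) (hL2 : L % 2 = 0) (ha : 1 ≤ a) (ha2 : a ≤ L)
    (hb : 1 ≤ b) (hb2 : b + 1 ≤ L) (hv : ¬ CY L a b)
    (hF : CY L a (b + 1) ∨ sY L a (b + 1) + 2 ≤ sY L a b) :
    (a = 1 ∧ b = 3) := by
  have w4 := w_four hL
  have hc : a ≤ 3 ∨ a = 4 ∨ (5 ≤ a ∧ a + 3 ≤ L) ∨ a + 2 = L ∨ a + 1 = L ∨ a = L := by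
    omega
  rcases hc with h | rfl | ⟨h, h'⟩ | h | h | h
  · by_cases hC : CY L a (b + 1)
    · unfold CY at hC hv; omega
    have hF' := hF.resolve_left hC
    have k1 := sY_low (b := b) hL ha h
    have k2 := sY_low (b := b + 1) hL ha h
    rcases k1 with ⟨k, -⟩ | ⟨-, k, k'⟩ | ⟨-, k, kk, k'⟩
    · exact absurd k hv
    all_goals
      rcases k2 with ⟨m, -⟩ | ⟨-, m, m'⟩ | ⟨-, m, mm, m'⟩
      · exact absurd m hC
      all_goals exfalso; omega
  · obtain ⟨-, k1⟩ := sY_four (b := b) hL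
    obtain ⟨k3, k2⟩ := sY_four (b := b + 1) hL
    have hF' := hF.resolve_left k3
    omega
  · obtain ⟨-, k1⟩ := sY_mid (b := b) h h'
    obtain ⟨k3, k2⟩ := sY_mid (b := b + 1) h h'
    have hF' := hF.resolve_left k3
    omega
  · have k1 := sY_two (b := b) hL h
    have k2 := sY_two (b := b + 1) hL h
    rcases k2 with ⟨k, -, -⟩ | ⟨k, k', k''⟩
    · omega
    · have hF' := hF.resolve_left k'
      omega
  · have k1 := sY_one (b := b) hL h
    have k2 := sY_one (b := b + 1) hL h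
    have hF' := hF.resolve_left k2.1
    have := k1.2
    have := k2.2
    omega
  · rcases sY_top (b := b) hL h with ⟨k, k', -⟩ | ⟨k, k', k''⟩
    · exact absurd k' hv
    · omega

/-- positivity -/
lemma sY_pos {L a b : ℕ} (hL : 10 ≤ L) (ha : 1 ≤ a) (ha2 : a ≤ L)
    (hb : 1 ≤ b) (hb2 : b ≤ L) (hv : ¬ CY L a b) : 1 ≤ sY L a b := by
  have w4 := w_four hL
  unfold sY
  unfold CY at *
  split_ifs <;> omega

/-- maximum -/
lemma sY_le {L a b : ℕ} (hL : 10 ≤ L) (ha : 1 ≤ a) (ha2 : a ≤ L)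
    (hb : 1 ≤ b) (hb2 : b ≤ L) : sY L a b ≤ w L 4 + L - 3 + 1 := by
  have w4 := w_four hL
  have hc : a ≤ 3 ∨ a = 4 ∨ (5 ≤ a ∧ a + 3 ≤ L) ∨ a + 2 = L ∨ a + 1 = L ∨ a = L := by
    omega
  rcases hc with h | rfl | ⟨h, h'⟩ | h | h | h
  · rcases sY_low (b := b) hL ha h with ⟨-, k⟩ | ⟨-, -, k⟩ | ⟨-, k', kk, k⟩ <;> omega
  · rcases (sY_four (b := b) hL).2 with k | k <;> omega
  · have w2 := w_five hL h
    rcases (sY_mid (b := b) h h').2 with k | k <;> omega
  · rcases sY_two (b := b) hL h with k | k <;> omega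
  · have := (sY_one (b := b) hL h).2
    omega
  · rcases sY_top (b := b) hL h with k | k <;> omega
end Pool.Agent.Helper70.Duo
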