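import Mathlib
import Pool.Agent.Helper19.PercFinal

/-!
# Pairs of alternating slice types for bootstrap percolation
-/

set_option linter.unusedSectionVars false
set_option linter.unusedVariables false

namespace Pool.Agent.Helper70.Duo

open Set SimpleGraph Pool.Agent.Helper19.Perco

variable {V W : Type*}

/-- a slice type: seeds `A`, early vertices `C`, starter seed `c`, start vertex `s`, and a lower
bound `σ` for the infection times -/
@[ext]
structure Ty (V : Type*) where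
  /-- seeds -/
  A : Set V
  /-- early vertices -/
  C : Set V
  /-- starter -/
  c : V
  /-- start -/
  s : V
  /-- times -/
  σ : V → ℕ

/-- vertices counted as infected at time `t - 2` -/
def Ty.F (P : Ty V) (t : ℕ) : Set V := {u | u ∈ P.C ∨ P.σ u + 2 ≤ t}

/-- pull back -/
def Ty.comap (e : V ≃ W) (P : Ty W) : Ty V := ⟨e ⁻¹' P.A, e ⁻¹' P.C, e.symm P.c, e.symm P.s,
  fun v => P.σ (e v)⟩

/-- `P` is a good slice type relative to the other type `Q` -/
structure Cond (G : SimpleGraph V) (m T : ℕ) (P Q : Ty V) : Prop where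
  AC : P.A ⊆ P.C
  CA : ∀ v, v ∈ P.C → v ∈ Q.A → v ∈ P.A
  cA : P.c ∈ P.A
  cC : P.c ∉ Q.C
  sP : P.s ∉ P.C
  sQ : P.s ∉ Q.C
  adj : G.Adj P.s P.c
  z0 : ∀ v ∈ P.C, P.σ v = 0
  pos : ∀ v, v ∉ P.C → 1 ≤ P.σ v
  ss : P.σ P.s = 1
  sT : P.σ Q.s = T
  le : ∀ v, P.σ v ≤ T + 1
  ha1 : ∀ v, v ∉ P.C → v ≠ P.s → cnt G (P.F (P.σ v)) v + 1 ≤ m
  ha2 : ∀ v, v ∉ P.C → v ≠ P.s → v ∈ Q.A → cnt G (P.F (P.σ v)) v + 2 ≤ m
  hb : cnt G P.C P.s ≤ m
  hc : ∀ w, w ∈ P.C → w ∉ P.A → w ∉ Q.C → cnt G P.C w ≤ m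
  hh : ∀ w, w ∈ P.C → w ∉ P.A → w ∉ Q.C → cnt G Q.C w + 2 ≤ m
  hf : cnt G P.C P.c + 2 ≤ m
  hi : ∀ u, G.Adj P.c u → u ∈ Q.A → u ≠ Q.c → u ∈ P.A
  hj : m ≤ cnt G Set.univ P.c + 1
  he : ∀ S : Set V, P.A ⊆ S → (∀ v, m ≤ cnt G S v → v ∈ S) →
    (∀ v, v ∈ Q.A → v ≠ Q.c → m ≤ cnt G S v + 1 → v ∈ S) → ∀ v, v ∈ S

lemma Ty.F_comap (e : V ≃ W) (P : Ty W) (t : ℕ) : (P.comap e).F t = e ⁻¹' (P.F t) := rfl

theorem Cond.comap [Finite V] [Finite W] {G : SimpleGraph V} {H : SimpleGraph W} (e : G ≃g H)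
    {m T : ℕ} {P Q : Ty W} (h : Cond H m T P Q) :
    Cond G m T (P.comap e.toEquiv) (Q.comap e.toEquiv) := by
  have hcnt : ∀ (S : Set W) (v : V), cnt G (e.toEquiv ⁻¹' S) v = cnt H S (e v) :=
    fun S v => cnt_iso e S v
  have happ : ∀ w, e (e.toEquiv.symm w) = w := fun w => e.toEquiv.apply_symm_apply w
  have heq : ∀ (v : V) (w : W), v = e.toEquiv.symm w ↔ e v = w := by
    intro v w
    rw [Equiv.eq_symm_apply]; rfl
  refine
    { AC := fun v hv => h.AC hv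
      CA := fun v h1 h2 => h.CA _ h1 h2
      cA := ?_, cC := ?_, sP := ?_, sQ := ?_, adj := ?_
      z0 := fun v hv => h.z0 _ hv
      pos := fun v hv => h.pos _ hv
      ss := ?_, sT := ?_
      le := fun v => h.le _
      ha1 := ?_, ha2 := ?_, hb := ?_, hc := ?_, hh := ?_, hf := ?_, hi := ?_, hj := ?_, he := ?_ }
  · show e (e.toEquiv.symm P.c) ∈ P.A
    rw [happ]; exact h.cA
  · show e (e.toEquiv.symm P.c) ∉ Q.C
    rw [happ]; exact h.cC
  · show e (e.toEquiv.symm P.s) ∉ P.C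
    rw [happ]; exact h.sP
  · show e (e.toEquiv.symm P.s) ∉ Q.C
    rw [happ]; exact h.sQ
  · show G.Adj (e.toEquiv.symm P.s) (e.toEquiv.symm P.c)
    rw [← e.map_adj_iff, happ, happ]; exact h.adj
  · show P.σ (e (e.toEquiv.symm P.s)) = 1
    rw [happ]; exact h.ss
  · show P.σ (e (e.toEquiv.symm Q.s)) = T
    rw [happ]; exact h.sT
  · intro v h1 h2
    rw [Ty.F_comap, hcnt]
    exact h.ha1 (e v) h1 (fun h3 => h2 ((heq _ _).2 h3))
  · intro v h1 h2 h3
    rw [Ty.F_comap, hcnt]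
    exact h.ha2 (e v) h1 (fun h4 => h2 ((heq _ _).2 h4)) h3
  · show cnt G (e.toEquiv ⁻¹' P.C) (e.toEquiv.symm P.s) ≤ m
    rw [hcnt, happ]; exact h.hb
  · intro w h1 h2 h3
    show cnt G (e.toEquiv ⁻¹' P.C) w ≤ m
    rw [hcnt]; exact h.hc _ h1 h2 h3
  · intro w h1 h2 h3
    show cnt G (e.toEquiv ⁻¹' Q.C) w + 2 ≤ m
    rw [hcnt]; exact h.hh _ h1 h2 h3
  · show cnt G (e.toEquiv ⁻¹' P.C) (e.toEquiv.symm P.c) + 2 ≤ m
    rw [hcnt, happ]; exact h.hf
  · intro u h1 h2 h3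
    apply h.hi (e u) ?_ h2 (fun h4 => h3 ((heq _ _).2 h4))
    have h4 : G.Adj (e.toEquiv.symm P.c) u := h1
    rw [← e.map_adj_iff, happ] at h4; exact h4
  · show m ≤ cnt G Set.univ (e.toEquiv.symm P.c) + 1
    have h1 : (Set.univ : Set V) = e.toEquiv ⁻¹' Set.univ := rfl
    rw [h1, hcnt, happ]; exact h.hj
  · intro S hS h1 h2 v
    have hpre : e.toEquiv ⁻¹' (e.toEquiv.symm ⁻¹' S) = S := by
      ext x
      show e.toEquiv.symm (e.toEquiv x) ∈ S ↔ x ∈ S
      rw [e.toEquiv.symm_apply_apply]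
    have hcnt' : ∀ w, cnt H (e.toEquiv.symm ⁻¹' S) w = cnt G S (e.toEquiv.symm w) := by
      intro w
      have := hcnt (e.toEquiv.symm ⁻¹' S) (e.toEquiv.symm w)
      rw [hpre, happ] at this
      exact this.symm
    have h3 := h.he (e.toEquiv.symm ⁻¹' S) (by
        intro w hw
        apply hS
        show e (e.toEquiv.symm w) ∈ P.A
        rw [happ]; exact hw) (by
        intro w hw
        rw [hcnt'] at hw
        exact h1 _ hw) (by
        intro w hw hne hm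
        rw [hcnt'] at hm
        refine h2 _ ?_ ?_ hm
        · show e (e.toEquiv.symm w) ∈ Q.A
          rw [happ]; exact hw
        · intro h4
          exact hne (e.toEquiv.symm.injective h4)) (e v)
    have h4 : e.toEquiv.symm (e.toEquiv v) ∈ S := h3
    rwa [e.toEquiv.symm_apply_apply] at h4

/-- the barrier -/
theorem Cond.proc_le [Finite V] {G : SimpleGraph V} {m T : ℕ} {P Q : Ty V} (h : Cond G m T P Q)
    (hm : 1 ≤ m) (t : ℕ) : proc G m P.A t ⊆ {v | P.σ v ≤ t} := by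
  induction t with
  | zero =>
    intro v hv
    show P.σ v ≤ 0
    rw [h.z0 v (h.AC hv)]
  | succ t ih =>
    rintro v (hv | hv)
    · exact Nat.le_succ_of_le (ih hv)
    · by_contra hlt
      have hlt' : t + 1 < P.σ v := by
        by_contra h'
        exact hlt (not_lt.1 h')
      have h1 : v ∉ P.C := fun h' => by rw [h.z0 v h'] at hlt'; omega
      have h2 : v ≠ P.s := fun h' => by rw [h', h.ss] at hlt'; omega
      have h3 := h.ha1 v h1 h2
      have h4 : cnt G (proc G m P.A t) v ≤ cnt G (P.F (P.σ v)) v := by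
        apply cnt_mono
        intro u hu
        right
        have : P.σ u ≤ t := ih hu
        show P.σ u + 2 ≤ P.σ v
        omega
      have h5 : m ≤ cnt G (proc G m P.A t) v := hv
      omega

theorem Cond.slow [Finite V] {G : SimpleGraph V} {m T : ℕ} {P Q : Ty V} (h : Cond G m T P Q)
    (hm : 1 ≤ m) (hT : 1 ≤ T) (hP : Perc G m P.A) : Slow G m (T - 1) := by
  refine ⟨P.A, hP, Q.s, fun hs => ?_⟩
  have h1 : P.σ Q.s ≤ T - 1 := h.proc_le hm (T - 1) hs
  rw [h.sT] at h1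
  omega

end Pool.Agent.Helper70.Duo
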