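import Mathlib
import Pool.Agent.Helper70.PercDuo

/-!
# Stacking alternating slices
-/

set_option linter.unusedSectionVars false
set_option linter.unusedVariables false

namespace Pool.Agent.Helper70.Duo

open Set SimpleGraph Pool.Agent.Helper19.Perco

variable {V : Type*}

section defs

variable (T K : ℕ) (P Q : Ty V)

/-- type of the slice `z` -/
def R (z : ℕ) : Ty V := if z % 2 = 1 then P else Q

lemma R_odd {z : ℕ} (h : z % 2 = 1) : R P Q z = P := if_pos h
lemma R_even {z : ℕ} (h : z % 2 = 0) : R P Q z = Q := if_neg (by omega)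

/-- early vertices of the stack -/
def CU (z : ℕ) : Set V :=
  if z = 0 ∨ K ≤ z then Set.univ
  else if z = 1 then P.C
  else if z + 1 = K then P.C \ {P.c}
  else (R P Q z).A ∪ ((R P Q z).C ∩ (R P Q (z + 1)).C)

/-- seeds of the stack -/
def AU (z : ℕ) : Set V :=
  if z = 0 ∨ K ≤ z then Set.univ
  else if z + 1 = K then P.A \ {P.c}
  else (R P Q z).A

open Classical in
/-- times of the stack -/
noncomputable def sU (z : ℕ) (v : V) : ℕ :=
  if v ∈ CU K P Q z then 0
  else if K < z + 3 then (K - 4) * T + 1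
  else if v ∈ (R P Q z).C then (z - 2) * T + (R P Q (z + 1)).σ v + 1
  else if z + 3 = K then (K - 4) * T + 1
  else (z - 1) * T + (R P Q z).σ v

/-- vertices counted in slice `z` at time `t - 2` -/
noncomputable def FU (t z : ℕ) : Set V := {x | x ∈ CU K P Q z ∨ sU T K P Q z x + 2 ≤ t}

end defs

section main

variable {G : SimpleGraph V} {m T K : ℕ} {P Q : Ty V}

lemma R_cond (hP : Cond G m T P Q) (hQ : Cond G m T Q P) (z : ℕ) :
    Cond G m T (R P Q z) (R P Q (z + 1)) := by
  rcases Nat.mod_two_eq_zero_or_one z with h | h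
  · rw [R_even P Q h, R_odd P Q (by omega)]; exact hQ
  · rw [R_odd P Q h, R_even P Q (by omega)]; exact hP

lemma R_succ (z : ℕ) : R P Q (z + 2) = R P Q z := by
  unfold R
  have : (z + 2) % 2 = z % 2 := by omega
  rw [this]

lemma CU_wall {z : ℕ} (h : z = 0 ∨ K ≤ z) : CU K P Q z = Set.univ := by
  unfold CU; rw [if_pos h]
lemma CU_one (hK : 2 ≤ K) : CU K P Q 1 = P.C := by
  unfold CU; rw [if_neg (by omega), if_pos rfl]
lemma CU_last {z : ℕ} (hK : 3 ≤ K) (h : z + 1 = K) : CU K P Q z = P.C \ {P.c} := by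
  unfold CU; rw [if_neg (by omega), if_neg (by omega), if_pos h]
lemma CU_mid {z : ℕ} (h : 2 ≤ z) (h2 : z + 2 ≤ K) :
    CU K P Q z = (R P Q z).A ∪ ((R P Q z).C ∩ (R P Q (z + 1)).C) := by
  unfold CU; rw [if_neg (by omega), if_neg (by omega), if_neg (by omega)]

lemma AU_wall {z : ℕ} (h : z = 0 ∨ K ≤ z) : AU K P Q z = Set.univ := by
  unfold AU; rw [if_pos h]
lemma AU_last {z : ℕ} (hK : 3 ≤ K) (h : z + 1 = K) : AU K P Q z = P.A \ {P.c} := by
  unfold AU; rw [if_neg (by omega), if_pos h]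
lemma AU_mid {z : ℕ} (h : 1 ≤ z) (h2 : z + 2 ≤ K) : AU K P Q z = (R P Q z).A := by
  unfold AU; rw [if_neg (by omega), if_neg (by omega)]

lemma sU_C {z : ℕ} {v : V} (h : v ∈ CU K P Q z) : sU T K P Q z v = 0 := by
  unfold sU; rw [if_pos h]
lemma sU_top {z : ℕ} {v : V} (h : v ∉ CU K P Q z) (h2 : K < z + 3) :
    sU T K P Q z v = (K - 4) * T + 1 := by
  unfold sU; rw [if_neg h, if_pos h2]
lemma sU_early {z : ℕ} {v : V} (h : v ∉ CU K P Q z) (h2 : z + 3 ≤ K) (h3 : v ∈ (R P Q z).C) :
    sU T K P Q z v = (z - 2) * T + (R P Q (z + 1)).σ v + 1 := by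
  unfold sU; rw [if_neg h, if_neg (by omega), if_pos h3]
lemma sU_three {z : ℕ} {v : V} (h : v ∉ CU K P Q z) (h2 : z + 3 = K) (h3 : v ∉ (R P Q z).C) :
    sU T K P Q z v = (K - 4) * T + 1 := by
  unfold sU; rw [if_neg h, if_neg (by omega), if_neg h3, if_pos h2]
lemma sU_main {z : ℕ} {v : V} (h : v ∉ CU K P Q z) (h2 : z + 4 ≤ K) (h3 : v ∉ (R P Q z).C) :
    sU T K P Q z v = (z - 1) * T + (R P Q z).σ v := by
  unfold sU; rw [if_neg h, if_neg (by omega), if_neg h3, if_neg (by omega)]

/-- early vertices inside a slice -/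
lemma CU_sub (hP : Cond G m T P Q) (hQ : Cond G m T Q P) (hK : K % 2 = 0) {z : ℕ} (h1 : 1 ≤ z)
    (h2 : z < K) : CU K P Q z ⊆ (R P Q z).C := by
  intro x hx
  rcases eq_or_ne z 1 with rfl | hz
  · rw [CU_one (by omega)] at hx
    rw [R_odd P Q (by omega)]; exact hx
  rcases eq_or_ne (z + 1) K with hz' | hz'
  · rw [CU_last (by omega) hz'] at hx
    rw [R_odd P Q (by omega)]; exact hx.1
  · rw [CU_mid (by omega) (by omega)] at hx
    rcases hx with hx | hx
    · exact (R_cond hP hQ z).AC hx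
    · exact hx.1

lemma not_mem_CU_of (hP : Cond G m T P Q) (hQ : Cond G m T Q P) (hK : K % 2 = 0) {z : ℕ}
    (h1 : 1 ≤ z) (h2 : z < K) {x : V} (hx : x ∉ (R P Q z).C) : x ∉ CU K P Q z :=
  fun h => hx (CU_sub hP hQ hK h1 h2 h)

lemma T_mul_succ (a T : ℕ) : (a + 1) * T = a * T + T := by ring

/-- times outside the early vertices of the slice type -/
lemma sU_ge (hP : Cond G m T P Q) (hQ : Cond G m T Q P) (hK : K % 2 = 0) (hK6 : 6 ≤ K) {z : ℕ}
    (h1 : 1 ≤ z) (h2 : z < K) {x : V} (hx : x ∉ (R P Q z).C) (a : ℕ) (ha : a + 1 ≤ z)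
    (haK : a + 4 ≤ K) :
    a * T + 1 ≤ sU T K P Q z x := by
  have hx' := not_mem_CU_of hP hQ hK h1 h2 hx
  have hpos := (R_cond hP hQ z).pos x hx
  rcases Nat.lt_or_ge K (z + 3) with h3 | h3
  · rw [sU_top hx' h3]
    have : a * T ≤ (K - 4) * T := Nat.mul_le_mul_right _ (by omega)
    omega
  rcases Nat.eq_or_lt_of_le h3 with h4 | h4
  · rw [sU_three hx' h4 hx]
    have : a * T ≤ (K - 4) * T := Nat.mul_le_mul_right _ (by omega)
    omega
  · rw [sU_main hx' (by omega) hx]
    have : a * T ≤ (z - 1) * T := Nat.mul_le_mul_right _ (by omega)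
    omega

variable [Finite V]

open Classical in
/-- indicator -/
noncomputable def iv (p : Prop) : ℕ := if p then 1 else 0

omit [Finite V] in
lemma iv_le (p : Prop) : iv p ≤ 1 := by unfold iv; split_ifs <;> omega

omit [Finite V] in
lemma iv_zero {p : Prop} (h : ¬ p) : iv p = 0 := by unfold iv; rw [if_neg h]

omit [Finite V] in
lemma iv_one {p : Prop} (h : p) : iv p = 1 := by unfold iv; rw [if_pos h]

/-- the count -/
noncomputable def NU (G : SimpleGraph V) (T K : ℕ) (P Q : Ty V) (t z : ℕ) (x : V) : ℕ :=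
  cnt G (FU T K P Q t z) x + (iv (0 < z ∧ x ∈ FU T K P Q t (z - 1)) +
    iv (z + 1 < K + 1 ∧ x ∈ FU T K P Q t (z + 1)))

omit [Finite V] in
lemma mem_FU {t z : ℕ} {x : V} : x ∈ FU T K P Q t z ↔ x ∈ CU K P Q z ∨ sU T K P Q z x + 2 ≤ t :=
  Iff.rfl

omit [Finite V] in
lemma not_mem_CU_mid (z : ℕ) (h1 : 2 ≤ z) (h2 : z + 2 ≤ K) {x : V} (h : x ∉ CU K P Q z) :
    x ∉ (R P Q z).A ∧ ¬ (x ∈ (R P Q z).C ∧ x ∈ (R P Q (z + 1)).C) := by
  rw [CU_mid h1 h2] at h
  exact ⟨fun h' => h (Or.inl h'), fun h' => h (Or.inr h')⟩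

/-- main slices, outside the early vertices -/
lemma NU_A (hP : Cond G m T P Q) (hQ : Cond G m T Q P) (hK : K % 2 = 0) (hK6 : 6 ≤ K) {z : ℕ}
    (h1 : 1 ≤ z) (h2 : z + 3 ≤ K) {x : V} (hx : x ∉ (R P Q z).C) (hne : z = 1 → x ≠ P.s) :
    NU G T K P Q (sU T K P Q z x) z x ≤ m := by
  have hR := R_cond hP hQ z
  have hR' := R_cond hP hQ (z + 1)
  have hxC : x ∉ CU K P Q z := not_mem_CU_of hP hQ hK h1 (by omega) hx
  set t := sU T K P Q z x with ht
  -- upper bound for t
  have htle : t ≤ z * T + 1 := by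
    have h3 := hR.le x
    have h4 := T_mul_succ (z - 1) T
    have h5 : z - 1 + 1 = z := by omega
    rw [h5] at h4
    rcases Nat.eq_or_lt_of_le h2 with h6 | h6
    · rw [ht, sU_three hxC h6 hx]
      have : K - 4 = z - 1 := by omega
      rw [this]; omega
    · rw [ht, sU_main hxC (by omega) hx]; omega
  have hin : cnt G (FU T K P Q t z) x ≤ cnt G ((R P Q z).F ((R P Q z).σ x)) x := by
    apply cnt_mono
    intro y hy
    by_cases hyC : y ∈ (R P Q z).C
    · exact Or.inl hyC
    rcases hy with hy | hy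
    · exact absurd (CU_sub hP hQ hK h1 (by omega) hy) hyC
    have hyC' : y ∉ CU K P Q z := not_mem_CU_of hP hQ hK h1 (by omega) hyC
    right
    show (R P Q z).σ y + 2 ≤ (R P Q z).σ x
    rcases Nat.eq_or_lt_of_le h2 with h6 | h6
    · rw [sU_three hyC' h6 hyC, ht, sU_three hxC h6 hx] at hy; omega
    · rw [sU_main hyC' (by omega) hyC, ht, sU_main hxC (by omega) hx] at hy; omega
  have hup : x ∉ (R P Q (z + 1)).A → x ∉ FU T K P Q t (z + 1) := by
    intro hxA hF
    have hxC1 : x ∉ CU K P Q (z + 1) := by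
      rw [CU_mid (by omega) (by omega)]
      rintro (h | h)
      · exact hxA h
      · rw [R_succ] at h; exact hx h.2
    rcases hF with hF | hF
    · exact hxC1 hF
    by_cases hx2 : x ∈ (R P Q (z + 1)).C
    · rcases Nat.eq_or_lt_of_le h2 with h6 | h6
      · rw [sU_top hxC1 (by omega), ht, sU_three hxC h6 hx] at hF; omega
      · rw [sU_early hxC1 (by omega) hx2, R_succ, ht, sU_main hxC (by omega) hx] at hF
        have : z + 1 - 2 = z - 1 := by omega
        rw [this] at hF
        omega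
    · rcases Nat.eq_or_lt_of_le h2 with h6 | h6
      · rw [sU_top hxC1 (by omega), ht, sU_three hxC h6 hx] at hF; omega
      · have := sU_ge hP hQ hK hK6 (z := z + 1) (by omega) (by omega) hx2 z (by omega) (by omega)
        omega
  by_cases hs : x = (R P Q z).s
  · have hz : z ≠ 1 := by
      intro hz
      apply hne hz
      rw [hs, hz, R_odd P Q (by omega)]
    have hRm : R P Q (z - 1) = R P Q (z + 1) := by
      have := R_succ (P := P) (Q := Q) (z - 1)
      have h5 : z - 1 + 2 = z + 1 := by omega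
      rw [h5] at this; exact this.symm
    have hRz : R P Q (z - 1 + 1) = R P Q z := by
      have h5 : z - 1 + 1 = z := by omega
      rw [h5]
    have hx3 : x ∉ (R P Q (z + 1)).C := by rw [hs]; exact hR.sQ
    have hlo : x ∉ FU T K P Q t (z - 1) := by
      have hx4 : x ∉ (R P Q (z - 1)).C := by rw [hRm]; exact hx3
      have hx5 : x ∉ CU K P Q (z - 1) := not_mem_CU_of hP hQ hK (by omega) (by omega) hx4
      rintro (h | h)
      · exact hx5 h
      · rw [sU_main hx5 (by omega) hx4] at h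
        have h6 : (R P Q (z - 1)).σ x = T := by
          have := (R_cond hP hQ (z - 1)).sT
          rw [hRz] at this
          rw [hs]; exact this
        have h7 : (z - 1 - 1) * T + T = (z - 1) * T := by
          have := T_mul_succ (z - 1 - 1) T
          have h5 : z - 1 - 1 + 1 = z - 1 := by omega
          rw [h5] at this; exact this.symm
        have h8 : t = (z - 1) * T + 1 := by
          rcases Nat.eq_or_lt_of_le h2 with h6 | h6
          · rw [ht, sU_three hxC h6 hx]
            have : K - 4 = z - 1 := by omega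
            rw [this]
          · rw [ht, sU_main hxC (by omega) hx]
            have : (R P Q z).σ x = 1 := by rw [hs]; exact hR.ss
            rw [this]
        omega
    have hup' : x ∉ FU T K P Q t (z + 1) := hup (fun h => hx3 (hR'.AC h))
    have hb := hR.hb
    have hF : (R P Q z).F ((R P Q z).σ x) = (R P Q z).C := by
      rw [hs, hR.ss]
      ext u
      constructor
      · rintro (h | h)
        · exact h
        · omega
      · intro h; exact Or.inl h
    rw [hF, hs] at hin
    unfold NU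
    rw [iv_zero (fun h => hlo h.2), iv_zero (fun h => hup' h.2)]
    rw [← hs] at hb
    rw [← hs] at hin
    omega
  · unfold NU
    by_cases hA : x ∈ (R P Q (z + 1)).A
    · have := hR.ha2 x hx hs hA
      have h6 := iv_le (0 < z ∧ x ∈ FU T K P Q t (z - 1))
      have h7 := iv_le (z + 1 < K + 1 ∧ x ∈ FU T K P Q t (z + 1))
      omega
    · have := hR.ha1 x hx hs
      have h6 := iv_le (0 < z ∧ x ∈ FU T K P Q t (z - 1))
      rw [iv_zero (fun h : z + 1 < K + 1 ∧ x ∈ FU T K P Q t (z + 1) => hup hA h.2)]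
      omega

/-- main slices, early vertices -/
lemma NU_B (hP : Cond G m T P Q) (hQ : Cond G m T Q P) (hK : K % 2 = 0) (hK6 : 6 ≤ K) {z : ℕ}
    (h1 : 2 ≤ z) (h2 : z + 3 ≤ K) {x : V} (hx : x ∈ (R P Q z).C) (hxC : x ∉ CU K P Q z) :
    NU G T K P Q (sU T K P Q z x) z x ≤ m := by
  have hR := R_cond hP hQ z
  have hR' := R_cond hP hQ (z + 1)
  obtain ⟨hxA, hx2'⟩ := not_mem_CU_mid z h1 (by omega) hxC
  have hx2 : x ∉ (R P Q (z + 1)).C := fun h => hx2' ⟨hx, h⟩
  set t := sU T K P Q z x with ht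
  have htval : t = (z - 2) * T + (R P Q (z + 1)).σ x + 1 := by
    rw [ht, sU_early hxC h2 hx]
  have hRm : R P Q (z - 1) = R P Q (z + 1) := by
    have := R_succ (P := P) (Q := Q) (z - 1)
    have h5 : z - 1 + 2 = z + 1 := by omega
    rw [h5] at this; exact this.symm
  have hle := hR'.le x
  have h7 : (z - 2) * T + T = (z - 1) * T := by
    have := T_mul_succ (z - 2) T
    have h5 : z - 2 + 1 = z - 1 := by omega
    rw [h5] at this; exact this.symm
  have hin : cnt G (FU T K P Q t z) x ≤ cnt G (R P Q z).C x := by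
    apply cnt_mono
    intro y hy
    by_contra hyC
    rcases hy with hy | hy
    · exact absurd (CU_sub hP hQ hK (by omega) (by omega) hy) hyC
    have := sU_ge hP hQ hK hK6 (z := z) (by omega) (by omega) hyC (z - 1) (by omega) (by omega)
    omega
  have hlo : x ∉ FU T K P Q t (z - 1) := by
    have hx4 : x ∉ (R P Q (z - 1)).C := by rw [hRm]; exact hx2
    have hx5 : x ∉ CU K P Q (z - 1) := not_mem_CU_of hP hQ hK (by omega) (by omega) hx4
    rintro (h | h)
    · exact hx5 h
    · rw [sU_main hx5 (by omega) hx4, hRm] at h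
      have : z - 1 - 1 = z - 2 := by omega
      rw [this] at h
      omega
  have hup : x ∉ FU T K P Q t (z + 1) := by
    have hx5 : x ∉ CU K P Q (z + 1) := not_mem_CU_of hP hQ hK (by omega) (by omega) hx2
    rintro (h | h)
    · exact hx5 h
    · have := sU_ge hP hQ hK hK6 (z := z + 1) (by omega) (by omega) hx2 (z - 1) (by omega)
        (by omega)
      omega
  have := hR.hc x hx hxA hx2
  unfold NU
  rw [iv_zero (fun h => hlo h.2), iv_zero (fun h => hup h.2)]
  omega

/-- the slice `K - 2` -/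
lemma NU_C (hP : Cond G m T P Q) (hQ : Cond G m T Q P) (hK : K % 2 = 0) (hK6 : 6 ≤ K) {z : ℕ}
    (h2 : z + 2 = K) {x : V} (hxC : x ∉ CU K P Q z) :
    NU G T K P Q (sU T K P Q z x) z x ≤ m := by
  have hRz : R P Q z = Q := R_even P Q (by omega)
  have hRz1 : R P Q (z + 1) = P := R_odd P Q (by omega)
  have hRm : R P Q (z - 1) = P := R_odd P Q (by omega)
  obtain ⟨hxA, hx2'⟩ := not_mem_CU_mid z (by omega) (by omega) hxC
  rw [hRz] at hxA hx2'
  rw [hRz1] at hx2'
  set t := sU T K P Q z x with ht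
  have htval : t = (K - 4) * T + 1 := by rw [ht, sU_top hxC (by omega)]
  have hin : cnt G (FU T K P Q t z) x ≤ cnt G Q.C x := by
    apply cnt_mono
    intro y hy
    by_contra hyC
    rcases hy with hy | hy
    · have := CU_sub hP hQ hK (by omega) (by omega) hy
      rw [hRz] at this
      exact hyC this
    · have hyC' : y ∉ CU K P Q z := not_mem_CU_of hP hQ hK (by omega) (by omega)
        (by rw [hRz]; exact hyC)
      rw [sU_top hyC' (by omega)] at hy
      omega
  -- not in the early vertices of P : nothing above or below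
  have hup : x ∉ P.C → x ∉ FU T K P Q t (z + 1) := by
    intro h
    have hx5 : x ∉ CU K P Q (z + 1) := not_mem_CU_of hP hQ hK (by omega) (by omega)
      (by rw [hRz1]; exact h)
    rintro (h' | h')
    · exact hx5 h'
    · rw [sU_top hx5 (by omega)] at h'; omega
  have hlo : x ∉ P.C → x ∉ FU T K P Q t (z - 1) := by
    intro h
    have hx5 : x ∉ CU K P Q (z - 1) := not_mem_CU_of hP hQ hK (by omega) (by omega)
      (by rw [hRm]; exact h)
    rintro (h' | h')
    · exact hx5 h'
    · rw [sU_three hx5 (by omega) (by rw [hRm]; exact h)] at h'; omega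
  by_cases hxP : x ∈ P.C
  · -- then `x` is outside the early vertices of `Q`
    have hxQ : x ∉ Q.C := fun h => hx2' ⟨h, hxP⟩
    have hxs : x ≠ Q.s := fun h => hQ.sQ (h ▸ hxP)
    unfold NU
    have h6 := iv_le (0 < z ∧ x ∈ FU T K P Q t (z - 1))
    have h7 := iv_le (z + 1 < K + 1 ∧ x ∈ FU T K P Q t (z + 1))
    by_cases hxPA : x ∈ P.A
    · have h8 := hQ.ha2 x hxQ hxs hxPA
      have h9 : cnt G Q.C x ≤ cnt G (Q.F (Q.σ x)) x := cnt_mono G (fun y hy => Or.inl hy) x
      omega
    · have h8 := hP.hh x hxP hxPA hxQ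
      omega
  · have hcount : cnt G Q.C x ≤ m := by
      by_cases hxQ : x ∈ Q.C
      · exact hQ.hc x hxQ hxA hxP
      · by_cases hxs : x = Q.s
        · rw [hxs]; exact hQ.hb
        · have h8 := hQ.ha1 x hxQ hxs
          have h9 : cnt G Q.C x ≤ cnt G (Q.F (Q.σ x)) x := cnt_mono G (fun y hy => Or.inl hy) x
          omega
    unfold NU
    rw [iv_zero (fun h => hlo hxP h.2), iv_zero (fun h => hup hxP h.2)]
    omega

/-- the slice `K - 1` -/
lemma NU_D (hP : Cond G m T P Q) (hQ : Cond G m T Q P) (hK : K % 2 = 0) (hK6 : 6 ≤ K) {z : ℕ}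
    (h2 : z + 1 = K) {x : V} (hxC : x ∉ CU K P Q z) :
    NU G T K P Q (sU T K P Q z x) z x + iv (x = P.c) ≤ m := by
  have hRz : R P Q z = P := R_odd P Q (by omega)
  have hRm : R P Q (z - 1) = Q := R_even P Q (by omega)
  have hCU : CU K P Q z = P.C \ {P.c} := CU_last (by omega) h2
  set t := sU T K P Q z x with ht
  have htval : t = (K - 4) * T + 1 := by rw [ht, sU_top hxC (by omega)]
  have hin : cnt G (FU T K P Q t z) x ≤ cnt G (P.C \ {P.c}) x := by
    apply cnt_mono
    intro y hy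
    by_contra hyC
    rcases hy with hy | hy
    · rw [hCU] at hy; exact hyC hy
    · have hyC' : y ∉ CU K P Q z := by rw [hCU]; exact hyC
      rw [sU_top hyC' (by omega)] at hy
      omega
  have hin2 : cnt G (P.C \ {P.c}) x ≤ cnt G P.C x := cnt_mono G (fun y hy => hy.1) x
  rw [hCU] at hxC
  -- below
  have hlo : x ∉ Q.A → ¬ (x ∈ Q.C ∧ x ∈ P.C) → x ∉ FU T K P Q t (z - 1) := by
    intro h h'
    have hx5 : x ∉ CU K P Q (z - 1) := by
      rw [CU_mid (by omega) (by omega)]
      have : z - 1 + 1 = z := by omega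
      rw [hRm, this, hRz]
      rintro (h3 | h3)
      · exact h h3
      · exact h' h3
    rintro (h3 | h3)
    · exact hx5 h3
    · rw [sU_top hx5 (by omega)] at h3; omega
  have h7 := iv_le (z + 1 < K + 1 ∧ x ∈ FU T K P Q t (z + 1))
  unfold NU
  by_cases hxc : x = P.c
  · have hxQ : x ∉ Q.C := by rw [hxc]; exact hP.cC
    rw [iv_one hxc, iv_zero (fun h => hlo (fun h' => hxQ (hQ.AC h')) (fun h' => hxQ h'.1) h.2)]
    have := hP.hf
    rw [← hxc] at this
    omega
  · rw [iv_zero hxc]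
    have hxP : x ∉ P.C := fun h => hxC ⟨h, hxc⟩
    by_cases hxs : x = P.s
    · have hxQ : x ∉ Q.C := by rw [hxs]; exact hP.sQ
      rw [iv_zero (fun h => hlo (fun h' => hxQ (hQ.AC h')) (fun h' => hxQ h'.1) h.2)]
      have hb := hP.hb
      -- the starter is missing
      have h8 : cnt G (P.C \ {P.c}) P.s + 1 ≤ cnt G P.C P.s := by
        unfold cnt
        have h9 : P.c ∉ G.neighborSet P.s ∩ (P.C \ {P.c}) := fun h => h.2.2 rfl
        rw [← Set.ncard_insert_of_notMem h9 (Set.toFinite _)]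
        apply Set.ncard_le_ncard _ (Set.toFinite _)
        rintro y (rfl | hy)
        · exact ⟨hP.adj, hP.AC hP.cA⟩
        · exact ⟨hy.1, hy.2.1⟩
      rw [← hxs] at h8 hb
      omega
    · have h6 := iv_le (0 < z ∧ x ∈ FU T K P Q t (z - 1))
      have h9 : cnt G P.C x ≤ cnt G (P.F (P.σ x)) x := cnt_mono G (fun y hy => Or.inl hy) x
      by_cases hxQ : x ∈ Q.A
      · have h8 := hP.ha2 x hxP hxs hxQ
        omega
      · have h8 := hP.ha1 x hxP hxs
        rw [iv_zero (fun h => hlo hxQ (fun h' => hxP h'.2) h.2)]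
        omega

end main

end Pool.Agent.Helper70.Duo
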