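import Mathlib
import Pool.Agent.Helper70.PercDuoBase
import Pool.Agent.Helper70.PercStep

/-!
# The two slice types in the square: the conditions
-/

set_option linter.unusedSectionVars false
set_option linter.unusedVariables false

namespace Pool.Agent.Helper70.Duo

open Set SimpleGraph Pool.Agent.Helper19.Perco

/-- the square -/
abbrev Sq (L : ℕ) : SimpleGraph (Fin L × Fin L) := pathGraph L □ pathGraph L

/-- a set given by a predicate on one-based coordinates -/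
def S2 (L : ℕ) (p : ℕ → ℕ → Prop) : Set (Fin L × Fin L) := {v | p (v.1.val + 1) (v.2.val + 1)}

lemma iv_congr {p q : Prop} (h : p ↔ q) : iv p = iv q := by rw [propext h]

lemma iv_mono {p q : Prop} (h : p → q) : iv p ≤ iv q := by
  by_cases hp : p
  · rw [iv_one hp, iv_one (h hp)]
  · rw [iv_zero hp]; exact Nat.zero_le _

lemma cnt_path' (m : ℕ) (Q : ℕ → Prop) (z : Fin m) :
    cnt (SimpleGraph.pathGraph m) {z' | Q (z'.val + 1)} z =
      iv (0 < z.val ∧ Q z.val) + iv (z.val + 1 < m ∧ Q (z.val + 2)) := by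
  have h := cnt_path m (fun i => Q (i + 1)) z
  rw [h]
  have e : iv (0 < z.val ∧ Q z.val) = iv (0 < z.val ∧ Q (z.val - 1 + 1)) := by
    apply iv_congr
    constructor
    · rintro ⟨h1, h2⟩
      have : z.val - 1 + 1 = z.val := by omega
      rw [this]; exact ⟨h1, h2⟩
    · rintro ⟨h1, h2⟩
      have : z.val - 1 + 1 = z.val := by omega
      rw [this] at h2; exact ⟨h1, h2⟩
  rw [e]
  unfold iv
  congr

lemma cnt_sq (L : ℕ) (p : ℕ → ℕ → Prop) (x y : Fin L) :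
    cnt (Sq L) (S2 L p) (x, y) =
      (iv (0 < x.val ∧ p x.val (y.val + 1)) + iv (x.val + 1 < L ∧ p (x.val + 2) (y.val + 1))) +
      (iv (0 < y.val ∧ p (x.val + 1) y.val) + iv (y.val + 1 < L ∧ p (x.val + 1) (y.val + 2))) := by
  rw [cnt_boxProd]
  exact congrArg₂ (· + ·) (cnt_path' L (fun i => p i (y.val + 1)) x)
    (cnt_path' L (fun i => p (x.val + 1) i) y)

/-- the column type -/
def YT (L : ℕ) (hL : 10 ≤ L) : Ty (Fin L × Fin L) :=
  ⟨S2 L (AY L), S2 L (CY L), (⟨L - 3, by omega⟩, ⟨0, by omega⟩), (⟨L - 2, by omega⟩, ⟨0, by omega⟩),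
    fun v => sY L (v.1.val + 1) (v.2.val + 1)⟩

/-- transposition -/
def tr (L : ℕ) : Sq L ≃g Sq L := boxProdComm _ _

/-- the row type -/
def XT (L : ℕ) (hL : 10 ≤ L) : Ty (Fin L × Fin L) := (YT L hL).comap (tr L).toEquiv

lemma XT_A (L : ℕ) (hL : 10 ≤ L) : (XT L hL).A = S2 L (fun a b => AY L b a) := rfl
lemma XT_C (L : ℕ) (hL : 10 ≤ L) : (XT L hL).C = S2 L (fun a b => CY L b a) := rfl

lemma YT_F (L : ℕ) (hL : 10 ≤ L) (t : ℕ) :
    (YT L hL).F t = S2 L (fun a b => CY L a b ∨ sY L a b + 2 ≤ t) := rfl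

open Classical in
lemma iv_eq (p : Prop) : iv p = if p then 1 else 0 := rfl

/-- at most one neighbour is counted -/
lemma base_count {L : ℕ} (hL : 10 ≤ L) (hL2 : L % 2 = 0) (x y : Fin L)
    (hv : ¬ CY L (x.val + 1) (y.val + 1)) (hs : ¬ (x.val + 2 = L ∧ y.val = 0)) :
    cnt (Sq L) ((YT L hL).F (sY L (x.val + 1) (y.val + 1))) (x, y) ≤ 1 ∧
    (AY L (y.val + 1) (x.val + 1) →
      cnt (Sq L) ((YT L hL).F (sY L (x.val + 1) (y.val + 1))) (x, y) = 0) := by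
  rw [YT_F, cnt_sq]
  have hx := x.isLt
  have hy := y.isLt
  have d1 : (x.val + 1 < L ∧ (CY L (x.val + 2) (y.val + 1) ∨
      sY L (x.val + 2) (y.val + 1) + 2 ≤ sY L (x.val + 1) (y.val + 1))) →
      ((x.val + 1 = 4 ∧ L ≤ y.val + 1 + 4) ∨ (x.val + 2 = L ∧ y.val + 1 < L) ∨
      (4 ≤ x.val + 1 ∧ x.val + 1 + 3 ≤ L ∧ (((x.val + 1) % 2 = 1 ∧ y.val + 1 < L) ∨
        ((x.val + 1) % 2 = 0 ∧ 2 ≤ y.val + 1)))) := by
    rintro ⟨h, h'⟩
    exact dir_right hL hL2 (by omega) h (by omega) (by omega) hv h'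
  have d2 : (0 < x.val ∧ (CY L x.val (y.val + 1) ∨
      sY L x.val (y.val + 1) + 2 ≤ sY L (x.val + 1) (y.val + 1))) →
      ((x.val = 1 ∧ 4 ≤ y.val + 1 ∧ y.val + 1 + 4 ≤ L) ∨ (x.val + 2 = L ∧ y.val + 1 = 1)) := by
    rintro ⟨h, h'⟩
    exact dir_left hL hL2 (by omega) (by omega) (by omega) (by omega) hv h'
  have d3 : (0 < y.val ∧ (CY L (x.val + 1) y.val ∨
      sY L (x.val + 1) y.val + 2 ≤ sY L (x.val + 1) (y.val + 1))) →
      ((x.val + 1 = 1 ∧ y.val + 4 = L) ∨ (x.val + 1 = L ∧ y.val + 1 = L) ∨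
        (x.val + 1 + 2 = L ∧ y.val = 1)) := by
    rintro ⟨h, h'⟩
    exact dir_down hL hL2 (by omega) (by omega) (by omega) (by omega) hv h'
  have d4 : (y.val + 1 < L ∧ (CY L (x.val + 1) (y.val + 2) ∨
      sY L (x.val + 1) (y.val + 2) + 2 ≤ sY L (x.val + 1) (y.val + 1))) →
      (x.val + 1 = 1 ∧ y.val + 1 = 3) := by
    rintro ⟨h, h'⟩
    exact dir_up hL hL2 (by omega) (by omega) (by omega) (by omega) hv h'
  have e1 := iv_mono d1
  have e2 := iv_mono d2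
  have e3 := iv_mono d3
  have e4 := iv_mono d4
  refine ⟨?_, ?_⟩
  · refine (Nat.add_le_add (Nat.add_le_add e2 e1) (Nat.add_le_add e3 e4)).trans ?_
    simp only [iv_eq]
    split_ifs <;> omega
  · intro hA
    unfold AY at hA
    have h5 := Nat.add_le_add (Nat.add_le_add e2 e1) (Nat.add_le_add e3 e4)
    rw [iv_zero (p := (x.val = 1 ∧ 4 ≤ y.val + 1 ∧ y.val + 1 + 4 ≤ L) ∨
        (x.val + 2 = L ∧ y.val + 1 = 1)) (by omega),
      iv_zero (p := (x.val + 1 = 4 ∧ L ≤ y.val + 1 + 4) ∨ (x.val + 2 = L ∧ y.val + 1 < L) ∨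
      (4 ≤ x.val + 1 ∧ x.val + 1 + 3 ≤ L ∧ (((x.val + 1) % 2 = 1 ∧ y.val + 1 < L) ∨
        ((x.val + 1) % 2 = 0 ∧ 2 ≤ y.val + 1)))) (by omega),
      iv_zero (p := (x.val + 1 = 1 ∧ y.val + 4 = L) ∨ (x.val + 1 = L ∧ y.val + 1 = L) ∨
        (x.val + 1 + 2 = L ∧ y.val = 1)) (by omega),
      iv_zero (p := x.val + 1 = 1 ∧ y.val + 1 = 3) (by omega)] at h5
    exact Nat.le_zero.1 h5

end Pool.Agent.Helper70.Duo
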