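import Mathlib
import Pool.Agent.Helper19.PercBasic

/-!
# Upper bounds for percolation times when `r < d`
-/

set_option linter.unusedSectionVars false
set_option linter.unusedVariables false

namespace Pool.Agent.Helper70.Duo

open Set SimpleGraph Pool.Agent.Helper19.Perco

section general

variable {V : Type*} {G : SimpleGraph V} {r : ℕ} {A : Set V}

/-- infection time -/
noncomputable def tau (G : SimpleGraph V) (r : ℕ) (A : Set V) (v : V) : ℕ :=
  sInf {t | v ∈ proc G r A t}

variable [Finite V]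

lemma mem_proc_iff (hA : Perc G r A) (v : V) (t : ℕ) : v ∈ proc G r A t ↔ tau G r A v ≤ t := by
  obtain ⟨T, hT⟩ := (perc_iff G r A).1 hA
  have hne : {t | v ∈ proc G r A t}.Nonempty := ⟨T, by rw [Set.mem_ofPred_eq, hT]; trivial⟩
  constructor
  · intro h; exact Nat.sInf_le h
  · intro h
    exact proc_mono_time G r A h (Nat.sInf_mem hne)

/-- at most `r - 1` early neighbours -/
lemma early_le (hr : 1 ≤ r) (hA : Perc G r A) (v : V) :
    {u | G.Adj v u ∧ tau G r A u + 2 ≤ tau G r A v}.ncard + 1 ≤ r := by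
  rcases Nat.lt_or_ge (tau G r A v) 2 with h | h
  · have : {u | G.Adj v u ∧ tau G r A u + 2 ≤ tau G r A v} = ∅ := by
      ext u
      simp only [Set.mem_ofPred_eq, Set.mem_empty_iff_false, iff_false, not_and]
      intro _; omega
    rw [this, Set.ncard_empty]; omega
  · have h1 : v ∉ proc G r A (tau G r A v - 2 + 1) := by
      rw [mem_proc_iff hA]; omega
    have h2 : ¬ r ≤ cnt G (proc G r A (tau G r A v - 2)) v := fun h3 => h1 (Or.inr h3)
    have h3 : {u | G.Adj v u ∧ tau G r A u + 2 ≤ tau G r A v} =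
        G.neighborSet v ∩ proc G r A (tau G r A v - 2) := by
      ext u
      simp only [Set.mem_ofPred_eq, Set.mem_inter_iff, SimpleGraph.mem_neighborSet]
      rw [mem_proc_iff hA]
      constructor
      · rintro ⟨h4, h5⟩; exact ⟨h4, by omega⟩
      · rintro ⟨h4, h5⟩; exact ⟨h4, by omega⟩
    rw [h3]
    unfold cnt at h2
    omega

/-- a vertex infected at time `s + 1 ≥ 2` has a neighbour infected at time `s` -/
lemma exists_pred (hA : Perc G r A) {v : V} {s : ℕ} (hs : 1 ≤ s) (hv : tau G r A v = s + 1) :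
    ∃ u, G.Adj u v ∧ tau G r A u = s := by
  by_contra hcon
  push Not at hcon
  have h1 : v ∉ proc G r A s := by rw [mem_proc_iff hA]; omega
  have h2 : v ∈ proc G r A (s + 1) := by rw [mem_proc_iff hA]; omega
  obtain ⟨s', rfl⟩ : ∃ s', s = s' + 1 := ⟨s - 1, by omega⟩
  rcases h2 with h2 | h2
  · exact h1 h2
  apply h1
  right
  have h2' : r ≤ cnt G (proc G r A (s' + 1)) v := h2
  refine le_trans h2' ?_
  apply cnt_mono_pt
  intro u hu hmem
  rw [mem_proc_iff hA] at hmem ⊢
  have := hcon u hu.symm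
  omega

/-- the chain -/
lemma exists_chain (hA : Perc G r A) (s : ℕ) (hs : 1 ≤ s) : ∀ v, tau G r A v = s →
    ∃ p : ℕ → V, (∀ j, 1 ≤ j → j ≤ s → tau G r A (p j) = j) ∧
      (∀ j, 1 ≤ j → j < s → G.Adj (p j) (p (j + 1))) ∧ p s = v := by
  induction s with
  | zero => omega
  | succ s ih =>
    intro v hv
    rcases Nat.eq_zero_or_pos s with h0 | h0
    · subst h0
      refine ⟨fun _ => v, ?_, ?_, rfl⟩
      · intro j h1 h2
        have : j = 1 := by omega
        rw [this]; exact hv
      · intro j h1 h2; omega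
    · obtain ⟨u, hu, hut⟩ := exists_pred hA h0 hv
      obtain ⟨p, h1, h2, h3⟩ := ih h0 u hut
      refine ⟨fun j => if j = s + 1 then v else p j, ?_, ?_, by simp⟩
      · intro j h4 h5
        dsimp only
        split_ifs with h
        · rw [h]; exact hv
        · exact h1 j h4 (by omega)
      · intro j h4 h5
        dsimp only
        rw [if_neg (by omega)]
        split_ifs with h
        · have : j = s := by omega
          rw [this, h3]; exact hu
        · exact h2 j h4 (by omega)

end general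

section count

variable {V : Type*} [Fintype V] {G : SimpleGraph V} {r : ℕ} {A : Set V}

open Classical in
/-- the main count -/
theorem chain_count (hr : 1 ≤ r) (hA : Perc G r A)
    (htri : ∀ a b c, G.Adj a b → G.Adj b c → G.Adj a c → False) {T : ℕ} {p : ℕ → V}
    (h1 : ∀ j, 1 ≤ j → j ≤ T → tau G r A (p j) = j)
    (h2 : ∀ j, 1 ≤ j → j < T → G.Adj (p j) (p (j + 1))) :
    ∑ j ∈ Finset.Icc 1 T, cnt G Set.univ (p j) + T ≤ r * T + (r + 1) * Fintype.card V := by
  set τ := tau G r A with hτ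
  have hinj : ∀ i j, 1 ≤ i → i ≤ T → 1 ≤ j → j ≤ T → p i = p j → i = j := by
    intro i j hi hi' hj hj' h
    have := h1 i hi hi'
    rw [h, h1 j hj hj'] at this
    exact this.symm
  -- split of the degree
  have hdeg : ∀ j ∈ Finset.Icc 1 T, cnt G Set.univ (p j) + 1 ≤
      r + (Finset.univ.filter fun u => G.Adj (p j) u ∧ j ≤ τ u + 1).card := by
    intro j hj
    rw [Finset.mem_Icc] at hj
    have h3 : {u | G.Adj (p j) u ∧ τ u + 2 ≤ τ (p j)}.ncard + 1 ≤ r := early_le hr hA (p j)
    have h4 : cnt G Set.univ (p j) ≤ {u | G.Adj (p j) u ∧ τ u + 2 ≤ τ (p j)}.ncard +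
        {u | G.Adj (p j) u ∧ j ≤ τ u + 1}.ncard := by
      refine le_trans ?_ (Set.ncard_union_le _ _)
      unfold cnt
      apply Set.ncard_le_ncard _ (Set.toFinite _)
      rintro u ⟨h5, _⟩
      rw [Set.mem_union, Set.mem_ofPred_eq, Set.mem_ofPred_eq, h1 j hj.1 hj.2]
      by_cases h6 : τ u + 2 ≤ j
      · left; exact ⟨h5, h6⟩
      · right; exact ⟨h5, by omega⟩
    have h5 : {u | G.Adj (p j) u ∧ j ≤ τ u + 1}.ncard =
        (Finset.univ.filter fun u => G.Adj (p j) u ∧ j ≤ τ u + 1).card := by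
      rw [← Set.ncard_coe_finset]
      congr 1
      ext u; simp
    rw [h5] at h4
    omega
  -- the number of chain vertices around a vertex
  have hK : ∀ u : V, ((Finset.Icc 1 T).filter fun j => G.Adj (p j) u ∧ j ≤ τ u + 1).card ≤
      r + 1 := by
    intro u
    have h3 := early_le hr hA u
    have hsub : ((Finset.Icc 1 T).filter fun j => G.Adj (p j) u ∧ j ≤ τ u + 1) ⊆
        ((Finset.Icc 1 T).filter fun j => G.Adj (p j) u ∧ j + 2 ≤ τ u) ∪
        ((Finset.Icc 1 T).filter fun j => G.Adj (p j) u ∧ τ u ≤ j + 1 ∧ j ≤ τ u + 1) := by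
      intro j hj
      rw [Finset.mem_filter] at hj
      rw [Finset.mem_union, Finset.mem_filter, Finset.mem_filter]
      by_cases h4 : j + 2 ≤ τ u
      · left; exact ⟨hj.1, hj.2.1, h4⟩
      · right; exact ⟨hj.1, hj.2.1, by omega, hj.2.2⟩
    have hA1 : ((Finset.Icc 1 T).filter fun j => G.Adj (p j) u ∧ j + 2 ≤ τ u).card + 1 ≤ r := by
      refine le_trans (Nat.add_le_add_right ?_ 1) h3
      rw [← Set.ncard_coe_finset]
      refine Set.ncard_le_ncard_of_injOn p ?_ ?_ (Set.toFinite _)
      · intro j hj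
        rw [Finset.mem_coe, Finset.mem_filter, Finset.mem_Icc] at hj
        refine ⟨hj.2.1.symm, ?_⟩
        have h6 := h1 j hj.1.1 hj.1.2
        show τ (p j) + 2 ≤ τ u
        rw [h6]; exact hj.2.2
      · intro i hi j hj hij
        rw [Finset.mem_coe, Finset.mem_filter, Finset.mem_Icc] at hi hj
        exact hinj i j hi.1.1 hi.1.2 hj.1.1 hj.1.2 hij
    have hA2 : ((Finset.Icc 1 T).filter
        fun j => G.Adj (p j) u ∧ τ u ≤ j + 1 ∧ j ≤ τ u + 1).card ≤ 2 := by
      -- no two consecutive ones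
      have hcons : ∀ j, j ∈ ((Finset.Icc 1 T).filter
          fun j => G.Adj (p j) u ∧ τ u ≤ j + 1 ∧ j ≤ τ u + 1) → j + 1 ∉ ((Finset.Icc 1 T).filter
          fun j => G.Adj (p j) u ∧ τ u ≤ j + 1 ∧ j ≤ τ u + 1) := by
        intro j hj hj'
        rw [Finset.mem_filter, Finset.mem_Icc] at hj hj'
        exact htri (p j) (p (j + 1)) u (h2 j hj.1.1 (by omega)) hj'.2.1 hj.2.1
      by_cases hmid : τ u ∈ ((Finset.Icc 1 T).filter
          fun j => G.Adj (p j) u ∧ τ u ≤ j + 1 ∧ j ≤ τ u + 1)
      · refine le_trans (Finset.card_le_card (t := {τ u}) ?_) (by simp)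
        intro j hj
        rw [Finset.mem_singleton]
        have hj2 := hj
        rw [Finset.mem_filter, Finset.mem_Icc] at hj2
        have h4 : j ≠ τ u + 1 := fun h => hcons _ hmid (h ▸ hj)
        have h5 : j + 1 ≠ τ u := fun h => hcons _ hj (h ▸ hmid)
        omega
      · refine le_trans (Finset.card_le_card (t := {τ u - 1, τ u + 1}) ?_) (Finset.card_le_two)
        intro j hj
        have hj2 := hj
        rw [Finset.mem_filter, Finset.mem_Icc] at hj2
        have h4 : j ≠ τ u := fun h => hmid (h ▸ hj)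
        rw [Finset.mem_insert, Finset.mem_singleton]
        omega
    have := Finset.card_le_card hsub
    have h5 := Finset.card_union_le
      ((Finset.Icc 1 T).filter fun j => G.Adj (p j) u ∧ j + 2 ≤ τ u)
      ((Finset.Icc 1 T).filter fun j => G.Adj (p j) u ∧ τ u ≤ j + 1 ∧ j ≤ τ u + 1)
    omega
  -- double counting
  have hdc : ∑ j ∈ Finset.Icc 1 T, (Finset.univ.filter fun u => G.Adj (p j) u ∧ j ≤ τ u + 1).card =
      ∑ u : V, ((Finset.Icc 1 T).filter fun j => G.Adj (p j) u ∧ j ≤ τ u + 1).card := by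
    simp only [Finset.card_filter]
    rw [Finset.sum_comm]
  have hsum1 : ∑ j ∈ Finset.Icc 1 T, (cnt G Set.univ (p j) + 1) ≤
      ∑ j ∈ Finset.Icc 1 T,
        (r + (Finset.univ.filter fun u => G.Adj (p j) u ∧ j ≤ τ u + 1).card) :=
    Finset.sum_le_sum hdeg
  have hsum2 : ∑ u : V, ((Finset.Icc 1 T).filter fun j => G.Adj (p j) u ∧ j ≤ τ u + 1).card ≤
      ∑ _u : V, (r + 1) := Finset.sum_le_sum fun u _ => hK u
  rw [Finset.sum_add_distrib, Finset.sum_add_distrib, hdc] at hsum1
  simp only [Finset.sum_const, Nat.card_Icc, Finset.card_univ, smul_eq_mul] at hsum1 hsum2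
  have e1 : (T + 1 - 1) * 1 = T := by omega
  have e2 : (T + 1 - 1) * r = r * T := by rw [Nat.add_sub_cancel]; ring
  rw [e1, e2] at hsum1
  calc _ ≤ r * T + _ := hsum1
    _ ≤ r * T + (Fintype.card V * (r + 1)) := by omega
    _ = _ := by ring

end count

end Pool.Agent.Helper70.Duo
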