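import Mathlib
import Pool.Agent.Helper70.PercUpper
import Pool.Agent.Helper70.PercDuoBase2

/-!
# Upper bounds for percolation times when `r < d`, in the grid
-/

set_option linter.unusedSectionVars false
set_option linter.unusedVariables false

namespace Pool.Agent.Helper70.Duo

open Set SimpleGraph Pool.Agent.Helper19.Perco

/-- degrees in the grid -/
lemma deg_Gd (d n : ℕ) : ∀ x : Fin d → Fin n, cnt (Gd d n) Set.univ x =
    ∑ i, (iv (0 < (x i).val) + iv ((x i).val + 1 < n)) := by
  induction d with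
  | zero =>
    intro x
    rw [cnt_eq_zero]
    · simp
    · rintro u _ ⟨i, _⟩
      exact i.elim0
  | succ d ih =>
    intro x
    have h1 := cnt_iso (consIso d n) Set.univ x
    rw [Set.preimage_univ] at h1
    rw [h1]
    show cnt (pathGraph n □ Gd d n) Set.univ (x 0, fun i => x i.succ) = _
    rw [cnt_boxProd, Fin.sum_univ_succ]
    congr 1
    · have h2 := cnt_path n (fun _ => True) (x 0)
      have e : {x' | (x', fun i => x i.succ) ∈ (Set.univ : Set (Fin n × (Fin d → Fin n)))} =
          {z' : Fin n | True} := rfl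
      rw [e, h2]
      unfold iv
      simp only [and_true]
      congr
    · exact ih (fun i => x i.succ)

/-- number of boundary directions -/
noncomputable def bd {d n : ℕ} (x : Fin d → Fin n) : ℕ :=
  ∑ i, (iv ((x i).val = 0) + iv ((x i).val + 1 = n))

lemma deg_add_bd {d n : ℕ} (x : Fin d → Fin n) : cnt (Gd d n) Set.univ x + bd x = 2 * d := by
  rw [deg_Gd]
  unfold bd
  rw [← Finset.sum_add_distrib]
  have : ∀ i ∈ (Finset.univ : Finset (Fin d)), (iv (0 < (x i).val) + iv ((x i).val + 1 < n) +
      (iv ((x i).val = 0) + iv ((x i).val + 1 = n))) = 2 := by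
    intro i _
    have hx := (x i).isLt
    unfold iv
    split_ifs <;> omega
  rw [Finset.sum_congr rfl this]
  simp [Nat.mul_comm]

lemma card_coord (d n : ℕ) (i : Fin d) (c : ℕ) :
    ∑ x : Fin d → Fin n, iv ((x i).val = c) ≤ n ^ (d - 1) := by
  classical
  have h1 : ∑ x : Fin d → Fin n, iv ((x i).val = c) =
      (Finset.univ.filter fun x : Fin d → Fin n => (x i).val = c).card := by
    rw [Finset.card_filter]
    apply Finset.sum_congr rfl
    intro x _
    unfold iv
    congr
  rw [h1]
  have h2 : (Finset.univ : Finset ({j : Fin d // j ≠ i} → Fin n)).card = n ^ (d - 1) := by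
    rw [Finset.card_univ, Fintype.card_fun, Fintype.card_fin]
    congr 1
    rw [Fintype.card_subtype_compl, Fintype.card_fin, Fintype.card_subtype_eq]
  rw [← h2]
  apply Finset.card_le_card_of_injOn (fun x => fun j : {j : Fin d // j ≠ i} => x j.1)
  · intro x _; exact Finset.mem_univ _
  · intro x hx y hy hxy
    rw [Finset.mem_coe, Finset.mem_filter] at hx hy
    funext j
    by_cases hj : j = i
    · subst hj; apply Fin.ext; rw [hx.2, hy.2]
    · exact congrFun hxy ⟨j, hj⟩

lemma sum_bd (d n : ℕ) : ∑ x : Fin d → Fin n, bd x ≤ 2 * d * n ^ (d - 1) := by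
  have hn : ∀ i : Fin d, ∑ x : Fin d → Fin n, (iv ((x i).val = 0) + iv ((x i).val + 1 = n)) ≤
      2 * n ^ (d - 1) := by
    intro i
    rw [Finset.sum_add_distrib]
    have h1 := card_coord d n i 0
    have h2 := card_coord d n i (n - 1)
    have h3 : ∑ x : Fin d → Fin n, iv ((x i).val + 1 = n) =
        ∑ x : Fin d → Fin n, iv ((x i).val = n - 1) := by
      apply Finset.sum_congr rfl
      intro x _
      apply iv_congr
      have := (x i).isLt
      omega
    rw [h3]
    omega
  unfold bd
  rw [Finset.sum_comm]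
  refine (Finset.sum_le_sum fun i _ => hn i).trans ?_
  simp only [Finset.sum_const, Finset.card_univ, Fintype.card_fin, smul_eq_mul]
  exact le_of_eq (by ring)

/-- parity -/
lemma adj_parity {d n : ℕ} {x y : Fin d → Fin n} (h : (Gd d n).Adj x y) :
    (∑ i, (x i).val) % 2 ≠ (∑ i, (y i).val) % 2 := by
  obtain ⟨i, h1, h2⟩ := h
  have e1 := Finset.add_sum_erase Finset.univ (fun j => (x j).val) (Finset.mem_univ i)
  have e2 := Finset.add_sum_erase Finset.univ (fun j => (y j).val) (Finset.mem_univ i)
  have e3 : ∑ j ∈ Finset.univ.erase i, (x j).val = ∑ j ∈ Finset.univ.erase i, (y j).val := by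
    apply Finset.sum_congr rfl
    intro j hj
    rw [h2 j (Finset.ne_of_mem_erase hj)]
  rw [← e1, ← e2, e3]
  omega

lemma no_triangle {d n : ℕ} (a b c : Fin d → Fin n) (h1 : (Gd d n).Adj a b)
    (h2 : (Gd d n).Adj b c) (h3 : (Gd d n).Adj a c) : False := by
  have := adj_parity h1
  have := adj_parity h2
  have := adj_parity h3
  omega

/-- the upper bound for `r < d` -/
theorem upper_lt {d r n T : ℕ} (hr : 1 ≤ r) (hrd : r < d) {A : Set (Fin d → Fin n)}
    (hA : Perc (Gd d n) r A) {v : Fin d → Fin n} (hv : tau (Gd d n) r A v = T) :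
    (2 * d - r + 1) * T ≤ (r + 1) * n ^ d + 2 * d * n ^ (d - 1) := by
  classical
  rcases Nat.eq_zero_or_pos T with h0 | h0
  · rw [h0]; simp
  obtain ⟨p, h1, h2, -⟩ := exists_chain hA T h0 v hv
  have h3 := chain_count hr hA no_triangle h1 h2
  rw [Fintype.card_fun, Fintype.card_fin, Fintype.card_fin] at h3
  -- degrees
  have hinj : ∀ i ∈ Finset.Icc 1 T, ∀ j ∈ Finset.Icc 1 T, p i = p j → i = j := by
    intro i hi j hj h
    rw [Finset.mem_Icc] at hi hj
    have := h1 i hi.1 hi.2
    rw [h, h1 j hj.1 hj.2] at this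
    exact this.symm
  have h4 : ∑ j ∈ Finset.Icc 1 T, bd (p j) ≤ 2 * d * n ^ (d - 1) := by
    refine le_trans ?_ (sum_bd d n)
    rw [← Finset.sum_image (f := fun x => bd x) (g := p) hinj]
    exact Finset.sum_le_sum_of_subset (Finset.subset_univ _)
  have h5 : ∑ j ∈ Finset.Icc 1 T, cnt (Gd d n) Set.univ (p j) + ∑ j ∈ Finset.Icc 1 T, bd (p j) =
      2 * d * T := by
    rw [← Finset.sum_add_distrib, Finset.sum_congr rfl (fun j _ => deg_add_bd (p j))]
    simp only [Finset.sum_const, Nat.card_Icc, smul_eq_mul, Nat.add_sub_cancel]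
    ring
  obtain ⟨e, rfl⟩ : ∃ e, d = r + 1 + e := ⟨d - r - 1, by omega⟩
  have e1 : 2 * (r + 1 + e) - r + 1 = r + 3 + 2 * e := by omega
  rw [e1]
  nlinarith

end Pool.Agent.Helper70.Duo
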