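import Mathlib
import Pool.Agent.Helper70.PercDuoBase2

/-!
# The two slice types in the square: the conditions, end
-/

set_option linter.unusedSectionVars false
set_option linter.unusedVariables false

namespace Pool.Agent.Helper70.Duo

open Set SimpleGraph Pool.Agent.Helper19.Perco

lemma mem_S2 {L : ℕ} {p : ℕ → ℕ → Prop} {x y : Fin L} :
    (x, y) ∈ S2 L p ↔ p (x.val + 1) (y.val + 1) := Iff.rfl

lemma CY_unfold (L a b : ℕ) : CY L a b ↔
  ((a = L ∧ b < L) ∨ (a = 1 ∧ 4 ≤ b ∧ b + 4 ≤ L) ∨ (a + 2 = L ∧ b = 1)) := Iff.rfl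

lemma sq_adj {L : ℕ} {x y x' y' : Fin L} : (Sq L).Adj (x, y) (x', y') ↔
    ((x.val + 1 = x'.val ∨ x'.val + 1 = x.val) ∧ y.val = y'.val) ∨
      ((y.val + 1 = y'.val ∨ y'.val + 1 = y.val) ∧ x.val = x'.val) := by
  rw [boxProd_adj, pathGraph_adj, pathGraph_adj, Fin.ext_iff, Fin.ext_iff]

/-- percolation of the column type -/
lemma base_perc {L : ℕ} (hL : 10 ≤ L) (hL2 : L % 2 = 0) (S : Set (Fin L × Fin L))
    (hS : S2 L (AY L) ⊆ S) (h2 : ∀ v, 2 ≤ cnt (Sq L) S v → v ∈ S)
    (h1 : ∀ v, v ∈ (XT L hL).A → v ≠ (XT L hL).c → 2 ≤ cnt (Sq L) S v + 1 → v ∈ S) :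
    ∀ v, v ∈ S := by
  -- predicate form
  have hA : ∀ a b (ha : a < L) (hb : b < L), AY L (a + 1) (b + 1) →
      ((⟨a, ha⟩, ⟨b, hb⟩) : Fin L × Fin L) ∈ S := fun a b ha hb h => hS h
  have hadj1 : ∀ a b (ha : a + 1 < L) (hb : b < L),
      (Sq L).Adj (⟨a, by omega⟩, ⟨b, hb⟩) (⟨a + 1, ha⟩, ⟨b, hb⟩) := by
    intro a b ha hb; rw [sq_adj]; exact Or.inl ⟨Or.inl rfl, rfl⟩
  have hadj2 : ∀ a b (ha : a < L) (hb : b + 1 < L),
      (Sq L).Adj (⟨a, ha⟩, ⟨b, by omega⟩) (⟨a, ha⟩, ⟨b + 1, hb⟩) := by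
    intro a b ha hb; rw [sq_adj]; exact Or.inr ⟨Or.inl rfl, rfl⟩
  -- spread within a column next to a full column
  have hspread : ∀ a (ha : a + 1 < L) b0 (hb0 : b0 < L),
      (∀ b (hb : b < L), ((⟨a + 1, ha⟩, ⟨b, hb⟩) : Fin L × Fin L) ∈ S) →
      ((⟨a, by omega⟩, ⟨b0, hb0⟩) : Fin L × Fin L) ∈ S →
      ∀ b (hb : b < L), ((⟨a, by omega⟩, ⟨b, hb⟩) : Fin L × Fin L) ∈ S := by
    intro a ha b0 hb0 hfull h0
    have hup : ∀ k (hk : b0 + k < L), ((⟨a, by omega⟩, ⟨b0 + k, hk⟩) : Fin L × Fin L) ∈ S := by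
      intro k
      induction k with
      | zero => intro _; exact h0
      | succ k ih =>
        intro hk
        apply h2
        refine two_le_cnt _ _ _ (⟨a + 1, ha⟩, ⟨b0 + (k + 1), hk⟩) (⟨a, by omega⟩, ⟨b0 + k, by omega⟩)
          ?_ (hadj1 _ _ _ _) (hadj2 a (b0 + k) (by omega) hk).symm (hfull _ _) (ih _)
        intro h
        simp only [Prod.mk.injEq, Fin.mk.injEq] at h
        omega
    have hdown : ∀ k (hk : k ≤ b0), ((⟨a, by omega⟩, ⟨b0 - k, by omega⟩) : Fin L × Fin L) ∈ S := by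
      intro k
      induction k with
      | zero => intro _; exact h0
      | succ k ih =>
        intro hk
        apply h2
        have e : b0 - k = b0 - (k + 1) + 1 := by omega
        refine two_le_cnt _ _ _ (⟨a + 1, ha⟩, ⟨b0 - (k + 1), by omega⟩)
          (⟨a, by omega⟩, ⟨b0 - k, by omega⟩) ?_ (hadj1 _ _ _ _) ?_ (hfull _ _) (ih (by omega))
        · intro h
          simp only [Prod.mk.injEq, Fin.mk.injEq] at h
          omega
        · rw [sq_adj]
          right
          exact ⟨Or.inl (by show b0 - (k + 1) + 1 = b0 - k; omega), rfl⟩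
    intro b hb
    rcases Nat.lt_or_ge b b0 with h | h
    · have := hdown (b0 - b) (by omega)
      have e : b0 - (b0 - b) = b := by omega
      simp only [e] at this
      exact this
    · have := hup (b - b0) (by omega)
      have e : b0 + (b - b0) = b := by omega
      simp only [e] at this
      exact this
  -- the right wall
  have hwall : ∀ b (hb : b + 1 < L), ((⟨L - 1, by omega⟩, ⟨b, by omega⟩) : Fin L × Fin L) ∈ S := by
    intro b hb
    by_cases hpar : b % 2 = 0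
    · apply hA
      left; omega
    · apply h2
      have e1 : b - 1 + 1 = b := by omega
      refine two_le_cnt _ _ _ (⟨L - 1, by omega⟩, ⟨b - 1, by omega⟩)
        (⟨L - 1, by omega⟩, ⟨b + 1, by omega⟩) ?_ ?_ (hadj2 _ _ _ _) ?_ ?_
      · intro h
        simp only [Prod.mk.injEq, Fin.mk.injEq] at h
        omega
      · rw [sq_adj]; right; exact ⟨Or.inr e1, rfl⟩
      · apply hA; left; omega
      · apply hA; left; omega
  -- first column
  have hcol1 : ∀ b (hb : b + 1 < L), ((⟨L - 2, by omega⟩, ⟨b, by omega⟩) : Fin L × Fin L) ∈ S := by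
    intro b
    induction b with
    | zero =>
      intro hb
      apply h2
      refine two_le_cnt _ _ _ (⟨L - 1, by omega⟩, ⟨0, by omega⟩)
        (⟨L - 3, by omega⟩, ⟨0, by omega⟩) ?_ ?_ ?_ (hwall 0 (by omega)) ?_
      · intro h
        simp only [Prod.mk.injEq, Fin.mk.injEq] at h
        omega
      · rw [sq_adj]; left; exact ⟨Or.inl (by show L - 2 + 1 = L - 1; omega), rfl⟩
      · rw [sq_adj]; left; exact ⟨Or.inr (by show L - 3 + 1 = L - 2; omega), rfl⟩
      · apply hA; right; right; omega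
    | succ b ih =>
      intro hb
      apply h2
      refine two_le_cnt _ _ _ (⟨L - 1, by omega⟩, ⟨b + 1, by omega⟩)
        (⟨L - 2, by omega⟩, ⟨b, by omega⟩) ?_ ?_ (hadj2 _ _ _ _).symm (hwall _ hb) (ih (by omega))
      · intro h
        simp only [Prod.mk.injEq, Fin.mk.injEq] at h
        omega
      · rw [sq_adj]; left; exact ⟨Or.inl (by show L - 2 + 1 = L - 1; omega), rfl⟩
  have htop1 : ((⟨L - 2, by omega⟩, ⟨L - 1, by omega⟩) : Fin L × Fin L) ∈ S := by
    apply h1
    · show AY L (L - 1 + 1) (L - 2 + 1)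
      left; omega
    · intro h
      have : (⟨L - 1, by omega⟩ : Fin L) = ⟨L - 3, by omega⟩ := (Prod.mk.inj h).2
      simp only [Fin.mk.injEq] at this
      omega
    · have := cnt_pos_of (Sq L) S (⟨L - 2, by omega⟩, ⟨L - 1, by omega⟩)
        (⟨L - 2, by omega⟩, ⟨L - 2, by omega⟩)
        (by rw [sq_adj]; right; exact ⟨Or.inr (by show L - 2 + 1 = L - 1; omega), rfl⟩)
        (hcol1 (L - 2) (by omega))
      omega
  have hcol : ∀ b (hb : b < L), ((⟨L - 2, by omega⟩, ⟨b, hb⟩) : Fin L × Fin L) ∈ S := by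
    intro b hb
    rcases Nat.lt_or_ge (b + 1) L with h | h
    · exact hcol1 b h
    · have e : b = L - 1 := by omega
      subst e; exact htop1
  have hcorner : ∀ b (hb : b < L), ((⟨L - 1, by omega⟩, ⟨b, hb⟩) : Fin L × Fin L) ∈ S := by
    intro b hb
    rcases Nat.lt_or_ge (b + 1) L with h | h
    · exact hwall b h
    · have e : b = L - 1 := by omega
      subst e
      apply h2
      refine two_le_cnt _ _ _ (⟨L - 2, by omega⟩, ⟨L - 1, by omega⟩)
        (⟨L - 1, by omega⟩, ⟨L - 2, by omega⟩) ?_ ?_ ?_ htop1 (hwall (L - 2) (by omega))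
      · intro h
        simp only [Prod.mk.injEq, Fin.mk.injEq] at h
        omega
      · rw [sq_adj]; left; exact ⟨Or.inr (by show L - 2 + 1 = L - 1; omega), rfl⟩
      · rw [sq_adj]; right; exact ⟨Or.inr (by show L - 2 + 1 = L - 1; omega), rfl⟩
  -- all columns, `k` counted from the right
  have hall : ∀ k (hk : k + 2 ≤ L), ∀ b (hb : b < L),
      ((⟨L - 2 - k, by omega⟩, ⟨b, hb⟩) : Fin L × Fin L) ∈ S := by
    intro k
    induction k with
    | zero => intro _ b hb; exact hcol b hb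
    | succ k ih =>
      intro hk b hb
      have hfull : ∀ b (hb : b < L),
          ((⟨L - 2 - (k + 1) + 1, by omega⟩, ⟨b, hb⟩) : Fin L × Fin L) ∈ S := by
        intro b hb
        have := ih (by omega) b hb
        have e : L - 2 - (k + 1) + 1 = L - 2 - k := by omega
        simp only [e]; exact this
      -- the first vertex of the column
      have hfirst : ∃ b0, ∃ hb0 : b0 < L,
          ((⟨L - 2 - (k + 1), by omega⟩, ⟨b0, hb0⟩) : Fin L × Fin L) ∈ S := by
        rcases Nat.eq_zero_or_pos k with hk0 | hk0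
        · refine ⟨0, by omega, hA _ _ _ _ ?_⟩
          right; right; omega
        rcases Nat.lt_or_ge (L - 2 - (k + 1)) 1 with h3 | h3
        · -- column 1
          refine ⟨3, by omega, hA _ _ _ _ ?_⟩
          right; left; omega
        rcases Nat.lt_or_ge (L - 2 - (k + 1)) 2 with h4 | h4
        · -- column 2
          refine ⟨3, by omega, h2 _ ?_⟩
          refine two_le_cnt _ _ _ (⟨L - 2 - (k + 1) + 1, by omega⟩, ⟨3, by omega⟩)
            (⟨0, by omega⟩, ⟨3, by omega⟩) ?_ (hadj1 _ _ _ _) ?_ (hfull _ _) ?_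
          · intro h
            simp only [Prod.mk.injEq, Fin.mk.injEq] at h
            omega
          · rw [sq_adj]; left
            exact ⟨Or.inr (by show 0 + 1 = L - 2 - (k + 1); omega), rfl⟩
          · apply hA; right; left; omega
        rcases Nat.mod_two_eq_zero_or_one (L - 2 - (k + 1)) with hp | hp
        · -- odd column (one-based) : top
          refine ⟨L - 1, by omega, h1 _ ?_ ?_ ?_⟩
          · show AY L (L - 1 + 1) (L - 2 - (k + 1) + 1)
            left; omega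
          · intro h
            have : (⟨L - 1, by omega⟩ : Fin L) = ⟨L - 3, by omega⟩ := (Prod.mk.inj h).2
            simp only [Fin.mk.injEq] at this
            omega
          · have := cnt_pos_of (Sq L) S (⟨L - 2 - (k + 1), by omega⟩, ⟨L - 1, by omega⟩)
              (⟨L - 2 - (k + 1) + 1, by omega⟩, ⟨L - 1, by omega⟩) (hadj1 _ _ _ _) (hfull _ _)
            omega
        · -- even column (one-based) : bottom
          refine ⟨0, by omega, h1 _ ?_ ?_ ?_⟩
          · show AY L (0 + 1) (L - 2 - (k + 1) + 1)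
            right; left; omega
          · intro h
            have : (⟨0, by omega⟩ : Fin L) = ⟨L - 3, by omega⟩ := (Prod.mk.inj h).2
            simp only [Fin.mk.injEq] at this
            omega
          · have := cnt_pos_of (Sq L) S (⟨L - 2 - (k + 1), by omega⟩, ⟨0, by omega⟩)
              (⟨L - 2 - (k + 1) + 1, by omega⟩, ⟨0, by omega⟩) (hadj1 _ _ _ _) (hfull _ _)
            omega
      obtain ⟨b0, hb0, h0⟩ := hfirst
      exact hspread (L - 2 - (k + 1)) (by omega) b0 hb0 hfull h0 b hb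
  rintro ⟨⟨a, ha⟩, ⟨b, hb⟩⟩
  rcases Nat.lt_or_ge (a + 1) L with h | h
  · have := hall (L - 2 - a) (by omega) b hb
    have e : L - 2 - (L - 2 - a) = a := by omega
    simp only [e] at this
    exact this
  · have e : a = L - 1 := by omega
    subst e; exact hcorner b hb

/-- the conditions for the column type -/
theorem base_cond {L : ℕ} (hL : 10 ≤ L) (hL2 : L % 2 = 0) :
    Cond (Sq L) 2 (w L 4 + L - 3) (YT L hL) (XT L hL) := by
  have hXs : (XT L hL).s = (⟨0, by omega⟩, ⟨L - 2, by omega⟩) := rfl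
  have hXc : (XT L hL).c = (⟨0, by omega⟩, ⟨L - 3, by omega⟩) := rfl
  refine
    { AC := ?_, CA := ?_, cA := ?_, cC := ?_, sP := ?_, sQ := ?_, adj := ?_
      z0 := ?_, pos := ?_, ss := ?_, sT := ?_, le := ?_, ha1 := ?_, ha2 := ?_
      hb := ?_, hc := ?_, hh := ?_, hf := ?_, hi := ?_, hj := ?_
      he := fun S h1 h2 h3 => base_perc hL hL2 S h1 h2 h3 }
  · rintro ⟨x, y⟩ h
    have h' : AY L (x.val + 1) (y.val + 1) := h
    show CY L (x.val + 1) (y.val + 1)
    unfold AY at h'; unfold CY; omega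
  · rintro ⟨x, y⟩ h1 h2
    have h1' : CY L (x.val + 1) (y.val + 1) := h1
    have h2' : AY L (y.val + 1) (x.val + 1) := h2
    show AY L (x.val + 1) (y.val + 1)
    unfold AY at *; unfold CY at *; omega
  · show AY L (L - 3 + 1) (0 + 1)
    unfold AY; omega
  · show ¬ CY L (0 + 1) (L - 3 + 1)
    unfold CY; omega
  · show ¬ CY L (L - 2 + 1) (0 + 1)
    unfold CY; omega
  · show ¬ CY L (0 + 1) (L - 2 + 1)
    unfold CY; omega
  · show (Sq L).Adj (⟨L - 2, by omega⟩, ⟨0, by omega⟩) (⟨L - 3, by omega⟩, ⟨0, by omega⟩)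
    rw [sq_adj]; left; exact ⟨Or.inr (by show L - 3 + 1 = L - 2; omega), rfl⟩
  · rintro ⟨x, y⟩ h
    have h' : CY L (x.val + 1) (y.val + 1) := h
    show sY L (x.val + 1) (y.val + 1) = 0
    unfold sY; rw [if_pos h']
  · rintro ⟨x, y⟩ h
    exact sY_pos hL (by omega) (by omega) (by omega) (by omega) h
  · show sY L (L - 2 + 1) (0 + 1) = 1
    unfold sY
    rw [if_neg (by unfold CY; omega), if_neg (by omega), if_neg (by omega), if_pos (by omega)]
  · show sY L (0 + 1) (L - 2 + 1) = _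
    unfold sY
    rw [if_neg (by unfold CY; omega), if_pos (by omega)]
  · rintro ⟨x, y⟩
    exact sY_le hL (by omega) (by omega) (by omega) (by omega)
  · rintro ⟨x, y⟩ h1 h2
    have h3 := base_count hL hL2 x y h1 (by
      rintro ⟨h3, h4⟩
      apply h2
      show (x, y) = (⟨L - 2, by omega⟩, ⟨0, by omega⟩)
      rw [Prod.mk.injEq]
      exact ⟨Fin.ext (by show x.val = L - 2; omega), Fin.ext h4⟩)
    have h4 : cnt (Sq L) ((YT L hL).F ((YT L hL).σ (x, y))) (x, y) ≤ 1 := h3.1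
    omega
  · rintro ⟨x, y⟩ h1 h2 h5
    have h3 := base_count hL hL2 x y h1 (by
      rintro ⟨h3, h4⟩
      apply h2
      show (x, y) = (⟨L - 2, by omega⟩, ⟨0, by omega⟩)
      rw [Prod.mk.injEq]
      exact ⟨Fin.ext (by show x.val = L - 2; omega), Fin.ext h4⟩)
    have h4 : cnt (Sq L) ((YT L hL).F ((YT L hL).σ (x, y))) (x, y) = 0 := h3.2 h5
    omega
  · show cnt (Sq L) (S2 L (CY L)) (⟨L - 2, by omega⟩, ⟨0, by omega⟩) ≤ 2
    rw [cnt_sq]
    show (iv (0 < L - 2 ∧ CY L (L - 2) (0 + 1)) + iv (L - 2 + 1 < L ∧ CY L (L - 2 + 2) (0 + 1))) +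
      (iv (0 < 0 ∧ CY L (L - 2 + 1) 0) + iv (0 + 1 < L ∧ CY L (L - 2 + 1) (0 + 2))) ≤ 2
    rw [iv_zero (p := 0 < 0 ∧ CY L (L - 2 + 1) 0) (by omega),
      iv_zero (p := 0 + 1 < L ∧ CY L (L - 2 + 1) (0 + 2)) (by unfold CY; omega)]
    have h1 := iv_le (0 < L - 2 ∧ CY L (L - 2) (0 + 1))
    have h2 := iv_le (L - 2 + 1 < L ∧ CY L (L - 2 + 2) (0 + 1))
    omega
  · rintro ⟨x, y⟩ h1 h2 h3
    have h1' : CY L (x.val + 1) (y.val + 1) := h1
    have h2' : ¬ AY L (x.val + 1) (y.val + 1) := h2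
    show cnt (Sq L) (S2 L (CY L)) (x, y) ≤ 2
    rw [cnt_sq, iv_zero (p := 0 < x.val ∧ CY L x.val (y.val + 1))
      (by unfold CY at *; unfold AY at *; omega),
      iv_zero (p := x.val + 1 < L ∧ CY L (x.val + 2) (y.val + 1))
      (by unfold CY at *; unfold AY at *; omega)]
    have h1 := iv_le (0 < y.val ∧ CY L (x.val + 1) y.val)
    have h2 := iv_le (y.val + 1 < L ∧ CY L (x.val + 1) (y.val + 2))
    omega
  · rintro ⟨x, y⟩ h1 h2 h3
    have h1' : CY L (x.val + 1) (y.val + 1) := h1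
    have h2' : ¬ AY L (x.val + 1) (y.val + 1) := h2
    show cnt (Sq L) (S2 L (fun a b => CY L b a)) (x, y) + 2 ≤ 2
    have hx := x.isLt
    have hy := y.isLt
    rw [cnt_sq, iv_zero (p := 0 < x.val ∧ CY L (y.val + 1) x.val)
      (by unfold CY at *; unfold AY at *; omega),
      iv_zero (p := x.val + 1 < L ∧ CY L (y.val + 1) (x.val + 2))
      (by unfold CY at *; unfold AY at *; omega),
      iv_zero (p := 0 < y.val ∧ CY L y.val (x.val + 1))
      (by unfold CY at *; unfold AY at *; omega),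
      iv_zero (p := y.val + 1 < L ∧ CY L (y.val + 2) (x.val + 1))
      (by unfold CY at *; unfold AY at *; omega)]
  · show cnt (Sq L) (S2 L (CY L)) (⟨L - 3, by omega⟩, ⟨0, by omega⟩) + 2 ≤ 2
    rw [cnt_sq]
    show (iv (0 < L - 3 ∧ CY L (L - 3) (0 + 1)) + iv (L - 3 + 1 < L ∧ CY L (L - 3 + 2) (0 + 1))) +
      (iv (0 < 0 ∧ CY L (L - 3 + 1) 0) + iv (0 + 1 < L ∧ CY L (L - 3 + 1) (0 + 2))) + 2 ≤ 2
    rw [iv_zero (p := 0 < 0 ∧ CY L (L - 3 + 1) 0) (by omega),
      iv_zero (p := 0 + 1 < L ∧ CY L (L - 3 + 1) (0 + 2)) (by unfold CY; omega),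
      iv_zero (p := 0 < L - 3 ∧ CY L (L - 3) (0 + 1)) (by unfold CY; omega),
      iv_zero (p := L - 3 + 1 < L ∧ CY L (L - 3 + 2) (0 + 1)) (by unfold CY; omega)]
  · rintro ⟨x, y⟩ h1 h2 h3
    exfalso
    have h1' : (Sq L).Adj (⟨L - 3, by omega⟩, ⟨0, by omega⟩) (x, y) := h1
    have h2' : AY L (y.val + 1) (x.val + 1) := h2
    rw [sq_adj] at h1'
    unfold AY at h2'
    have h4 : ((L - 3 + 1 = x.val ∨ x.val + 1 = L - 3) ∧ 0 = y.val) ∨
      ((0 + 1 = y.val ∨ y.val + 1 = 0) ∧ L - 3 = x.val) := h1'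
    omega
  · have := cnt_pos_of (Sq L) Set.univ (⟨L - 3, by omega⟩, ⟨0, by omega⟩)
      (⟨L - 2, by omega⟩, ⟨0, by omega⟩)
      (by rw [sq_adj]; left; exact ⟨Or.inl (by show L - 3 + 1 = L - 2; omega), rfl⟩)
      (Set.mem_univ _)
    show 2 ≤ cnt (Sq L) Set.univ (⟨L - 3, by omega⟩, ⟨0, by omega⟩) + 1
    omega

/-- the conditions for the row type -/
theorem base_cond' {L : ℕ} (hL : 10 ≤ L) (hL2 : L % 2 = 0) :
    Cond (Sq L) 2 (w L 4 + L - 3) (XT L hL) (YT L hL) := by
  have h := (base_cond hL hL2).comap (tr L)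
  exact h

end Pool.Agent.Helper70.Duo
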