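import Mathlib
import Pool.Agent.Helper70.PercStep

/-!
# Stacking alternating slices: the induction step
-/

set_option linter.unusedSectionVars false
set_option linter.unusedVariables false

namespace Pool.Agent.Helper70.Duo

open Set SimpleGraph Pool.Agent.Helper19.Perco

variable {V : Type*} [Finite V]

lemma cnt_lay' (G : SimpleGraph V) (n : ℕ) (S : ℕ → Set V) (x : V) (z : Fin n) :
    cnt (G □ SimpleGraph.pathGraph n) (lay n S) (x, z) = cnt G (S z.val) x +
      (iv (0 < z.val ∧ x ∈ S (z.val - 1)) + iv (z.val + 1 < n ∧ x ∈ S (z.val + 1))) := by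
  rw [cnt_lay]
  unfold iv
  congr

/-- reversal of the path -/
def revPath (n : ℕ) : pathGraph n ≃g pathGraph n where
  toEquiv := Fin.revPerm
  map_rel_iff' := by
    intro a b
    rw [pathGraph_adj, pathGraph_adj]
    simp only [Fin.revPerm_apply, Fin.val_rev]
    have := a.isLt
    have := b.isLt
    omega

/-- mirror image -/
def mir (G : SimpleGraph V) (n : ℕ) : (G □ pathGraph n) ≃g (G □ pathGraph n) :=
  boxCongr Iso.refl (revPath n)

omit [Finite V] in
lemma mir_apply (G : SimpleGraph V) (n : ℕ) (x : V) (z : Fin n) :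
    (mir G n).toEquiv (x, z) = (x, z.rev) := rfl

omit [Finite V] in
lemma mir_symm_apply (G : SimpleGraph V) (n : ℕ) (x : V) (z : Fin n) :
    (mir G n).toEquiv.symm (x, z) = (x, z.rev) := rfl

variable {G : SimpleGraph V} {m T K : ℕ} {P Q : Ty V}

/-- the stacked type -/
noncomputable def stack (T K : ℕ) (P Q : Ty V) (hK : 6 ≤ K) : Ty (V × Fin (K + 1)) :=
  ⟨lay (K + 1) (AU K P Q), lay (K + 1) (CU K P Q), (P.c, ⟨1, by omega⟩), (P.s, ⟨1, by omega⟩),
    fun p => sU T K P Q p.2.val p.1⟩

lemma cnt_F (G : SimpleGraph V) (hK : 6 ≤ K) (t : ℕ) (x : V) (z : Fin (K + 1)) :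
    cnt (G □ pathGraph (K + 1)) ((stack T K P Q hK).F t) (x, z) = NU G T K P Q t z.val x := by
  have h : (stack T K P Q hK).F t = lay (K + 1) (FU T K P Q t) := rfl
  rw [h, cnt_lay']
  rfl

omit [Finite V] in
lemma AU_rev (hK2 : K % 2 = 0) (hK : 6 ≤ K) {z : ℕ} (h1 : 1 ≤ z) (h2 : z < K) {x : V}
    (hx : x ∈ AU K P Q (K - z)) : x ∈ (R P Q z).A := by
  rcases eq_or_ne z 1 with rfl | hz
  · rw [AU_last (by omega) (by omega)] at hx
    rw [R_odd P Q (by omega)]; exact hx.1
  · rw [AU_mid (by omega) (by omega)] at hx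
    have : R P Q (K - z) = R P Q z := by
      unfold R
      have : (K - z) % 2 = z % 2 := by omega
      rw [this]
    rw [this] at hx; exact hx

lemma AU_sub (hP : Cond G m T P Q) (hQ : Cond G m T Q P) (hK2 : K % 2 = 0) (hK : 6 ≤ K) (z : ℕ) :
    AU K P Q z ⊆ CU K P Q z := by
  intro x hx
  rcases Nat.eq_zero_or_pos z with h | h
  · rw [CU_wall (Or.inl h)]; exact Set.mem_univ _
  rcases Nat.lt_or_ge z K with h2 | h2
  · rcases eq_or_ne (z + 1) K with h3 | h3
    · rw [AU_last (by omega) h3] at hx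
      rw [CU_last (by omega) h3]
      exact ⟨hP.AC hx.1, hx.2⟩
    · rw [AU_mid h (by omega)] at hx
      rcases eq_or_ne z 1 with rfl | h4
      · rw [CU_one (by omega)]
        rw [R_odd P Q (by omega)] at hx
        exact hP.AC hx
      · rw [CU_mid (by omega) (by omega)]
        exact Or.inl hx
  · rw [CU_wall (Or.inr h2)]; exact Set.mem_univ _

/-- percolation of the stack -/
theorem stack_perc (hP : Cond G m T P Q) (hQ : Cond G m T Q P) (hK2 : K % 2 = 0) (hK : 6 ≤ K) :
    Perc (G □ pathGraph (K + 1)) (m + 1) (stack T K P Q hK).A := by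
  intro S hS hcl
  -- membership in layers
  have hA : ∀ z, z ≤ K → AU K P Q z ⊆ layers S z := by
    intro z hz x hx
    exact ⟨by omega, hS hx⟩
  have hcl' : ∀ z, z ≤ K → ∀ x, m + 1 ≤ cnt G (layers S z) x +
      (iv (0 < z ∧ x ∈ layers S (z - 1)) + iv (z + 1 < K + 1 ∧ x ∈ layers S (z + 1))) →
      x ∈ layers S z := by
    intro z hz x hx
    refine ⟨by omega, hcl (x, ⟨z, by omega⟩) ?_⟩
    have h := cnt_lay' G (K + 1) (layers S) x ⟨z, by omega⟩
    rw [lay_layers] at h
    rw [h]; exact hx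
  have hmid : ∀ z, z + 2 ≤ K → ∀ x, x ∈ layers S z := by
    intro z
    induction z with
    | zero =>
      intro _ x
      apply hA 0 (by omega)
      rw [AU_wall (Or.inl rfl)]; exact Set.mem_univ _
    | succ z ih =>
      intro hz
      have hR := R_cond hP hQ (z + 1)
      apply hR.he
      · have := hA (z + 1) (by omega)
        rwa [AU_mid (by omega) (by omega)] at this
      · intro v hv
        apply hcl' (z + 1) (by omega)
        rw [iv_one (p := 0 < z + 1 ∧ v ∈ layers S (z + 1 - 1)) ⟨by omega, ih (by omega) v⟩]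
        omega
      · intro v hv hvc hm
        apply hcl' (z + 1) (by omega)
        have hup : v ∈ layers S (z + 1 + 1) := by
          apply hA (z + 1 + 1) (by omega)
          rcases eq_or_ne (z + 3) K with h3 | h3
          · rw [AU_last (by omega) (by omega)]
            rw [R_odd P Q (by omega)] at hv hvc
            exact ⟨hv, hvc⟩
          · rw [AU_mid (by omega) (by omega)]; exact hv
        rw [iv_one (p := 0 < z + 1 ∧ v ∈ layers S (z + 1 - 1)) ⟨by omega, ih (by omega) v⟩,
          iv_one (p := z + 1 + 1 < K + 1 ∧ v ∈ layers S (z + 1 + 1)) ⟨by omega, hup⟩]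
        omega
  have hwall : ∀ x, x ∈ layers S K := by
    intro x
    apply hA K le_rfl
    rw [AU_wall (Or.inr le_rfl)]; exact Set.mem_univ _
  -- the last slice
  have hstep : ∀ x, m ≤ cnt G (layers S (K - 1)) x + 1 → x ∈ layers S (K - 1) := by
    intro x hx
    apply hcl' (K - 1) (by omega)
    have e1 : K - 1 + 1 = K := by omega
    have e2 : K - 1 - 1 = K - 2 := by omega
    rw [iv_one (p := 0 < K - 1 ∧ x ∈ layers S (K - 1 - 1))
        ⟨by omega, by rw [e2]; exact hmid (K - 2) (by omega) x⟩,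
      iv_one (p := K - 1 + 1 < K + 1 ∧ x ∈ layers S (K - 1 + 1)) ⟨by omega, by rw [e1]; exact hwall x⟩]
    omega
  have hlast : ∀ x, x ∈ insert P.c (layers S (K - 1)) := by
    apply hP.he
    · intro x hx
      by_cases h : x = P.c
      · left; exact h
      · right
        apply hA (K - 1) (by omega)
        rw [AU_last (by omega) (by omega)]
        exact ⟨hx, h⟩
    · intro v hv
      right
      apply hstep
      exact hv.trans (cnt_insert_le _ _ _ _)
    · intro v hv hvc hm
      by_cases hadj : G.Adj P.c v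
      · by_cases h : v = P.c
        · left; exact h
        · right
          apply hA (K - 1) (by omega)
          rw [AU_last (by omega) (by omega)]
          exact ⟨hP.hi v hadj hv hvc, h⟩
      · right
        apply hstep
        refine hm.trans (Nat.add_le_add_right ?_ 1)
        apply cnt_mono_pt
        rintro u hu (rfl | hu')
        · exact absurd hu.symm hadj
        · exact hu'
  have hlast' : ∀ x, x ∈ layers S (K - 1) := by
    intro x
    by_cases h : x = P.c
    · rw [h]
      apply hstep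
      refine hP.hj.trans (Nat.add_le_add_right ?_ 1)
      apply cnt_mono_pt
      intro u hu _
      rcases hlast u with h' | h'
      · rw [h'] at hu; exact absurd hu (G.irrefl)
      · exact h'
    · rcases hlast x with h' | h'
      · exact absurd h' h
      · exact h'
  -- all layers
  rintro ⟨x, z⟩
  have h : x ∈ layers S z.val := by
    have hz := z.isLt
    rcases Nat.lt_or_ge K (z.val + 2) with h | h
    · rcases eq_or_ne z.val K with h' | h'
      · rw [h']; exact hwall x
      · have : z.val = K - 1 := by omega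
        rw [this]; exact hlast' x
    · exact hmid z.val h x
  obtain ⟨_, h2⟩ := h
  exact h2

omit [Finite V] in
lemma mem_stackC (hK : 6 ≤ K) {x : V} {z : Fin (K + 1)} :
    (x, z) ∈ (stack T K P Q hK).C ↔ x ∈ CU K P Q z.val := Iff.rfl

omit [Finite V] in
lemma mem_stackA (hK : 6 ≤ K) {x : V} {z : Fin (K + 1)} :
    (x, z) ∈ (stack T K P Q hK).A ↔ x ∈ AU K P Q z.val := Iff.rfl

omit [Finite V] in
lemma rev_val (z : Fin (K + 1)) : z.rev.val = K - z.val := by
  rw [Fin.val_rev]; omega

omit [Finite V] in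
lemma mem_mirC (hK : 6 ≤ K) {x : V} {z : Fin (K + 1)} :
    (x, z) ∈ ((stack T K P Q hK).comap (mir G (K + 1)).toEquiv).C ↔ x ∈ CU K P Q (K - z.val) := by
  rw [← rev_val]; exact Iff.rfl

omit [Finite V] in
lemma mem_mirA (hK : 6 ≤ K) {x : V} {z : Fin (K + 1)} :
    (x, z) ∈ ((stack T K P Q hK).comap (mir G (K + 1)).toEquiv).A ↔ x ∈ AU K P Q (K - z.val) := by
  rw [← rev_val]; exact Iff.rfl

/-- all counts in the stack -/
lemma NU_all (hP : Cond G m T P Q) (hQ : Cond G m T Q P) (hK2 : K % 2 = 0) (hK : 6 ≤ K) {z : ℕ}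
    (hz : z ≤ K) {x : V} (hx : x ∉ CU K P Q z) (hne : z = 1 → x ≠ P.s) :
    NU G T K P Q (sU T K P Q z x) z x ≤ m := by
  have hz1 : 1 ≤ z := by
    by_contra h
    rw [CU_wall (by omega)] at hx
    exact hx (Set.mem_univ _)
  have hz2 : z < K := by
    by_contra h
    rw [CU_wall (by omega)] at hx
    exact hx (Set.mem_univ _)
  rcases eq_or_ne (z + 1) K with h3 | h3
  · have := NU_D hP hQ hK2 hK h3 hx
    omega
  rcases eq_or_ne (z + 2) K with h4 | h4
  · exact NU_C hP hQ hK2 hK h4 hx
  by_cases h5 : x ∈ (R P Q z).C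
  · rcases eq_or_ne z 1 with h6 | h6
    · exfalso
      subst h6
      rw [CU_one (by omega)] at hx
      rw [R_odd P Q (by omega)] at h5
      exact hx h5
    · exact NU_B hP hQ hK2 hK (by omega) (by omega) h5 hx
  · exact NU_A hP hQ hK2 hK hz1 (by omega) h5 hne

/-- an element of the seeds of the mirror image which is not early -/
lemma mirA_not (hP : Cond G m T P Q) (hQ : Cond G m T Q P) (hK2 : K % 2 = 0) (hK : 6 ≤ K) {z : ℕ}
    (hz : z ≤ K) {x : V} (hx : x ∉ CU K P Q z) (hA : x ∈ AU K P Q (K - z)) :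
    z + 1 = K ∧ x = P.c := by
  have hz1 : 1 ≤ z := by
    by_contra h
    rw [CU_wall (by omega)] at hx
    exact hx (Set.mem_univ _)
  have hz2 : z < K := by
    by_contra h
    rw [CU_wall (by omega)] at hx
    exact hx (Set.mem_univ _)
  have h := AU_rev hK2 hK hz1 hz2 hA
  rcases eq_or_ne (z + 1) K with h3 | h3
  · refine ⟨h3, ?_⟩
    rw [CU_last (by omega) h3] at hx
    rw [R_odd P Q (by omega)] at h
    by_contra hc
    exact hx ⟨hP.AC h, hc⟩
  · exfalso
    rcases eq_or_ne z 1 with h6 | h6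
    · subst h6
      rw [CU_one (by omega)] at hx
      rw [R_odd P Q (by omega)] at h
      exact hx (hP.AC h)
    · rw [CU_mid (by omega) (by omega)] at hx
      exact hx (Or.inl h)

/-- the induction step -/
theorem stack_cond (hP : Cond G m T P Q) (hQ : Cond G m T Q P) (hK2 : K % 2 = 0) (hK : 6 ≤ K) :
    Cond (G □ pathGraph (K + 1)) (m + 1) ((K - 4) * T + 1) (stack T K P Q hK)
      ((stack T K P Q hK).comap (mir G (K + 1)).toEquiv) := by
  have hR1 : R P Q 1 = P := R_odd P Q (by omega)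
  have hR2 : R P Q 2 = Q := R_even P Q (by omega)
  have hsne : P.s ≠ P.c := fun h => hP.sP (by rw [h]; exact hP.AC hP.cA)
  have hU2 : CU K P Q 2 ⊆ Q.C := by
    have := CU_sub hP hQ hK2 (z := 2) (by omega) (by omega)
    rwa [hR2] at this
  refine
    { AC := fun p hp => AU_sub hP hQ hK2 hK _ hp
      CA := ?_, cA := ?_, cC := ?_, sP := ?_, sQ := ?_, adj := ?_
      z0 := fun p hp => sU_C hp
      pos := ?_, ss := ?_, sT := ?_, le := ?_, ha1 := ?_, ha2 := ?_
      hb := ?_, hc := ?_, hh := ?_, hf := ?_, hi := ?_, hj := ?_, he := ?_ }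
  · -- CA
    rintro ⟨x, z⟩ h1 h2
    rw [mem_stackC] at h1
    rw [mem_mirA] at h2
    rw [mem_stackA]
    have hz := z.isLt
    by_cases hw : z.val = 0 ∨ K ≤ z.val
    · rw [AU_wall hw]; exact Set.mem_univ _
    · have h := AU_rev hK2 hK (by omega) (by omega) h2
      rcases eq_or_ne (z.val + 1) K with h3 | h3
      · rw [AU_last (by omega) h3]
        rw [CU_last (by omega) h3] at h1
        rw [R_odd P Q (by omega)] at h
        exact ⟨h, h1.2⟩
      · rw [AU_mid (by omega) (by omega)]; exact h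
  · -- cA
    show P.c ∈ AU K P Q 1
    rw [AU_mid (by omega) (by omega), hR1]; exact hP.cA
  · -- cC
    show (P.c, (⟨1, by omega⟩ : Fin (K + 1))) ∉ _
    rw [mem_mirC]
    show P.c ∉ CU K P Q (K - 1)
    rw [CU_last (by omega) (by omega)]
    intro h; exact h.2 rfl
  · -- sP
    show P.s ∉ CU K P Q 1
    rw [CU_one (by omega)]; exact hP.sP
  · -- sQ
    show (P.s, (⟨1, by omega⟩ : Fin (K + 1))) ∉ _
    rw [mem_mirC]
    show P.s ∉ CU K P Q (K - 1)
    rw [CU_last (by omega) (by omega)]
    intro h; exact hP.sP h.1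
  · -- adj
    show (G □ pathGraph (K + 1)).Adj (P.s, _) (P.c, _)
    rw [boxProd_adj]
    exact Or.inl ⟨hP.adj, rfl⟩
  · -- pos
    rintro ⟨x, z⟩ h1
    rw [mem_stackC] at h1
    show 1 ≤ sU T K P Q z.val x
    have hz := z.isLt
    have hw : ¬ (z.val = 0 ∨ K ≤ z.val) := fun h => h1 (by rw [CU_wall h]; exact Set.mem_univ _)
    by_cases h5 : x ∈ (R P Q z.val).C
    · rcases Nat.lt_or_ge K (z.val + 3) with h6 | h6
      · rw [sU_top h1 h6]; omega
      · rw [sU_early h1 h6 h5]; omega
    · have := sU_ge hP hQ hK2 hK (z := z.val) (by omega) (by omega) h5 0 (by omega) (by omega)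
      omega
  · -- ss
    show sU T K P Q 1 P.s = 1
    have h1 : P.s ∉ CU K P Q 1 := by rw [CU_one (by omega)]; exact hP.sP
    rw [sU_main h1 (by omega) (by rw [hR1]; exact hP.sP), hR1, hP.ss]
    simp
  · -- sT
    show sU T K P Q (Fin.rev (⟨1, by omega⟩ : Fin (K + 1))).val P.s = (K - 4) * T + 1
    rw [rev_val]
    show sU T K P Q (K - 1) P.s = (K - 4) * T + 1
    have h1 : P.s ∉ CU K P Q (K - 1) := by
      rw [CU_last (by omega) (by omega)]
      intro h; exact hP.sP h.1
    rw [sU_top h1 (by omega)]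
  · -- le
    rintro ⟨x, z⟩
    show sU T K P Q z.val x ≤ (K - 4) * T + 1 + 1
    by_cases h1 : x ∈ CU K P Q z.val
    · rw [sU_C h1]; omega
    have hz := z.isLt
    have hw : ¬ (z.val = 0 ∨ K ≤ z.val) := fun h => h1 (by rw [CU_wall h]; exact Set.mem_univ _)
    rcases Nat.lt_or_ge K (z.val + 3) with h6 | h6
    · rw [sU_top h1 h6]; omega
    by_cases h5 : x ∈ (R P Q z.val).C
    · rw [sU_early h1 h6 h5]
      have h7 := (R_cond hP hQ (z.val + 1)).le x
      have hz1 : z.val ≠ 1 := by
        intro h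
        rw [h] at h1 h5
        rw [CU_one (by omega)] at h1
        rw [hR1] at h5
        exact h1 h5
      have h8 : (z.val - 2) * T + T ≤ (K - 4) * T := by
        rw [← T_mul_succ]
        exact Nat.mul_le_mul_right _ (by omega)
      omega
    · rcases Nat.eq_or_lt_of_le h6 with h8 | h8
      · rw [sU_three h1 h8 h5]; omega
      · rw [sU_main h1 (by omega) h5]
        have h7 := (R_cond hP hQ z.val).le x
        have h8 : (z.val - 1) * T + T ≤ (K - 4) * T := by
          rw [← T_mul_succ]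
          exact Nat.mul_le_mul_right _ (by omega)
        omega
  · -- ha1
    rintro ⟨x, z⟩ h1 h2
    rw [cnt_F]
    have hne : z.val = 1 → x ≠ P.s := by
      rintro h3 rfl
      apply h2
      show (P.s, z) = (P.s, (⟨1, by omega⟩ : Fin (K + 1)))
      rw [Prod.mk.injEq]
      exact ⟨rfl, Fin.ext h3⟩
    have := NU_all hP hQ hK2 hK (by have := z.isLt; omega) h1 hne
    exact Nat.succ_le_succ this
  · -- ha2
    rintro ⟨x, z⟩ h1 h2 h3
    rw [cnt_F]
    rw [mem_mirA] at h3
    obtain ⟨h4, h5⟩ := mirA_not hP hQ hK2 hK (by have := z.isLt; omega) h1 h3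
    have := NU_D hP hQ hK2 hK h4 h1
    rw [iv_one h5] at this
    exact Nat.succ_le_succ this
  · -- hb
    have h := cnt_lay' G (K + 1) (CU K P Q) P.s ⟨1, by omega⟩
    show cnt (G □ pathGraph (K + 1)) (lay (K + 1) (CU K P Q)) (P.s, ⟨1, by omega⟩) ≤ m + 1
    rw [h]
    show cnt G (CU K P Q 1) P.s + (iv (0 < 1 ∧ P.s ∈ CU K P Q (1 - 1)) +
      iv (1 + 1 < K + 1 ∧ P.s ∈ CU K P Q (1 + 1))) ≤ m + 1
    rw [CU_one (by omega), iv_zero (p := 1 + 1 < K + 1 ∧ P.s ∈ CU K P Q (1 + 1))
      (fun h' => hP.sQ (hU2 h'.2))]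
    have h1 := iv_le (0 < 1 ∧ P.s ∈ CU K P Q (1 - 1))
    have h2 := hP.hb
    omega
  · -- hc
    rintro ⟨x, z⟩ h1 h2 h3
    exfalso
    rw [mem_stackC] at h1
    rw [mem_stackA] at h2
    rw [mem_mirC] at h3
    have hz := z.isLt
    have hw : ¬ (z.val = 0 ∨ K ≤ z.val) := fun h => h2 (by rw [AU_wall h]; exact Set.mem_univ _)
    rcases eq_or_ne (z.val + 1) K with h4 | h4
    · have : K - z.val = 1 := by omega
      rw [this, CU_one (by omega)] at h3
      rw [CU_last (by omega) h4] at h1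
      exact h3 h1.1
    rcases eq_or_ne z.val 1 with h5 | h5
    · rw [h5] at h1 h2 h3
      rw [CU_one (by omega)] at h1
      rw [AU_mid (by omega) (by omega), hR1] at h2
      rw [CU_last (by omega) (by omega)] at h3
      refine h3 ⟨h1, ?_⟩
      intro h6
      rw [Set.mem_singleton_iff] at h6
      exact h2 (by rw [h6]; exact hP.cA)
    · rw [CU_mid (by omega) (by omega)] at h1 h3
      have e1 : R P Q (K - z.val) = R P Q z.val := by
        unfold R
        have : (K - z.val) % 2 = z.val % 2 := by omega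
        rw [this]
      have e2 : R P Q (K - z.val + 1) = R P Q (z.val + 1) := by
        unfold R
        have : (K - z.val + 1) % 2 = (z.val + 1) % 2 := by omega
        rw [this]
      rw [e1, e2] at h3
      exact h3 h1
  · -- hh
    rintro ⟨x, z⟩ h1 h2 h3
    exfalso
    rw [mem_stackC] at h1
    rw [mem_stackA] at h2
    rw [mem_mirC] at h3
    have hz := z.isLt
    have hw : ¬ (z.val = 0 ∨ K ≤ z.val) := fun h => h2 (by rw [AU_wall h]; exact Set.mem_univ _)
    rcases eq_or_ne (z.val + 1) K with h4 | h4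
    · have : K - z.val = 1 := by omega
      rw [this, CU_one (by omega)] at h3
      rw [CU_last (by omega) h4] at h1
      exact h3 h1.1
    rcases eq_or_ne z.val 1 with h5 | h5
    · rw [h5] at h1 h2 h3
      rw [CU_one (by omega)] at h1
      rw [AU_mid (by omega) (by omega), hR1] at h2
      rw [CU_last (by omega) (by omega)] at h3
      refine h3 ⟨h1, ?_⟩
      intro h6
      rw [Set.mem_singleton_iff] at h6
      exact h2 (by rw [h6]; exact hP.cA)
    · rw [CU_mid (by omega) (by omega)] at h1 h3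
      have e1 : R P Q (K - z.val) = R P Q z.val := by
        unfold R
        have : (K - z.val) % 2 = z.val % 2 := by omega
        rw [this]
      have e2 : R P Q (K - z.val + 1) = R P Q (z.val + 1) := by
        unfold R
        have : (K - z.val + 1) % 2 = (z.val + 1) % 2 := by omega
        rw [this]
      rw [e1, e2] at h3
      exact h3 h1
  · -- hf
    have h := cnt_lay' G (K + 1) (CU K P Q) P.c ⟨1, by omega⟩
    show cnt (G □ pathGraph (K + 1)) (lay (K + 1) (CU K P Q)) (P.c, ⟨1, by omega⟩) + 2 ≤ m + 1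
    rw [h]
    show cnt G (CU K P Q 1) P.c + (iv (0 < 1 ∧ P.c ∈ CU K P Q (1 - 1)) +
      iv (1 + 1 < K + 1 ∧ P.c ∈ CU K P Q (1 + 1))) + 2 ≤ m + 1
    rw [CU_one (by omega), iv_zero (p := 1 + 1 < K + 1 ∧ P.c ∈ CU K P Q (1 + 1))
      (fun h' => hP.cC (hU2 h'.2))]
    have h1 := iv_le (0 < 1 ∧ P.c ∈ CU K P Q (1 - 1))
    have h2 := hP.hf
    omega
  · -- hi
    rintro ⟨x, z⟩ h1 h2 h3
    rw [mem_mirA] at h2
    rw [mem_stackA]
    have hz := z.isLt
    by_cases hw : z.val = 0 ∨ K ≤ z.val
    · rw [AU_wall hw]; exact Set.mem_univ _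
    · have h := AU_rev hK2 hK (by omega) (by omega) h2
      rcases eq_or_ne (z.val + 1) K with h4 | h4
      · rw [AU_last (by omega) h4]
        rw [R_odd P Q (by omega)] at h
        refine ⟨h, ?_⟩
        intro h5
        rw [Set.mem_singleton_iff] at h5
        apply h3
        show (x, z) = (P.c, Fin.rev (⟨1, by omega⟩ : Fin (K + 1)))
        rw [Prod.mk.injEq]
        refine ⟨h5, Fin.ext ?_⟩
        rw [rev_val]
        show z.val = K - 1
        omega
      · rw [AU_mid (by omega) (by omega)]; exact h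
  · -- hj
    have h := cnt_lay' G (K + 1) (fun _ => Set.univ) P.c ⟨1, by omega⟩
    have h0 : lay (K + 1) (fun _ => (Set.univ : Set V)) = Set.univ := by
      ext p; exact ⟨fun _ => Set.mem_univ _, fun _ => Set.mem_univ _⟩
    rw [h0] at h
    show m + 1 ≤ cnt (G □ pathGraph (K + 1)) Set.univ (P.c, ⟨1, by omega⟩) + 1
    rw [h]
    show m + 1 ≤ cnt G Set.univ P.c + (iv (0 < 1 ∧ P.c ∈ (Set.univ : Set V)) +
      iv (1 + 1 < K + 1 ∧ P.c ∈ (Set.univ : Set V))) + 1
    rw [iv_one (p := 0 < 1 ∧ P.c ∈ (Set.univ : Set V)) ⟨by omega, Set.mem_univ _⟩,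
      iv_one (p := 1 + 1 < K + 1 ∧ P.c ∈ (Set.univ : Set V)) ⟨by omega, Set.mem_univ _⟩]
    have := hP.hj
    omega
  · -- he
    intro S hS h1 _ v
    exact stack_perc hP hQ hK2 hK S hS h1 v

omit [Finite V] in
lemma comap_comap (G : SimpleGraph V) (n : ℕ) (U : Ty (V × Fin n)) :
    (U.comap (mir G n).toEquiv).comap (mir G n).toEquiv = U := by
  have hinv : ∀ p : V × Fin n, (mir G n).toEquiv ((mir G n).toEquiv p) = p := by
    rintro ⟨x, z⟩
    rw [mir_apply, mir_apply, Fin.rev_rev]
  have hinv' : ∀ p : V × Fin n, (mir G n).toEquiv.symm ((mir G n).toEquiv.symm p) = p := by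
    rintro ⟨x, z⟩
    rw [mir_symm_apply, mir_symm_apply, Fin.rev_rev]
  unfold Ty.comap
  ext p
  · show (mir G n).toEquiv ((mir G n).toEquiv p) ∈ U.A ↔ p ∈ U.A
    rw [hinv]
  · show (mir G n).toEquiv ((mir G n).toEquiv p) ∈ U.C ↔ p ∈ U.C
    rw [hinv]
  · show ((mir G n).toEquiv.symm ((mir G n).toEquiv.symm U.c)).1 = U.c.1
    rw [hinv']
  · show (((mir G n).toEquiv.symm ((mir G n).toEquiv.symm U.c)).2 : ℕ) = U.c.2
    rw [hinv']
  · show ((mir G n).toEquiv.symm ((mir G n).toEquiv.symm U.s)).1 = U.s.1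
    rw [hinv']
  · show (((mir G n).toEquiv.symm ((mir G n).toEquiv.symm U.s)).2 : ℕ) = U.s.2
    rw [hinv']
  · show U.σ ((mir G n).toEquiv ((mir G n).toEquiv p)) = U.σ p
    rw [hinv]

/-- the induction step in symmetric form -/
theorem step (hP : Cond G m T P Q) (hQ : Cond G m T Q P) (hK2 : K % 2 = 0) (hK : 6 ≤ K) :
    ∃ U U' : Ty (V × Fin (K + 1)), Cond (G □ pathGraph (K + 1)) (m + 1) ((K - 4) * T + 1) U U' ∧
      Cond (G □ pathGraph (K + 1)) (m + 1) ((K - 4) * T + 1) U' U ∧
      Perc (G □ pathGraph (K + 1)) (m + 1) U.A := by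
  have h := stack_cond hP hQ hK2 hK
  refine ⟨_, _, h, ?_, stack_perc hP hQ hK2 hK⟩
  have h2 := h.comap (mir G (K + 1))
  rwa [comap_comap] at h2

end Pool.Agent.Helper70.Duo
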