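import Mathlib
import Pool.Agent.Helper70.PercDuoBase3
import Pool.Agent.Helper70.PercStep2

/-!
# Monotonicity in the side lengths, and the final assembly
-/

set_option linter.unusedSectionVars false
set_option linter.unusedVariables false

namespace Pool.Agent.Helper70.Duo

open Set SimpleGraph Pool.Agent.Helper19.Perco

/-- lengthening a path factor by repeating the last layer -/
theorem slow_path_mono {V : Type*} [Finite V] {G : SimpleGraph V} {m n r T : ℕ} (hm : 1 ≤ m)
    (hmn : m ≤ n) (h : Slow (G □ pathGraph m) r T) : Slow (G □ pathGraph n) r T := by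
  obtain ⟨A, hA, ⟨v, z0⟩, hv⟩ := h
  -- layers of the new set
  set A' : Set (V × Fin n) := lay n (fun z => layers A (min z (m - 1))) with hA'
  refine ⟨A', ?_, (v, ⟨z0.val, by have := z0.isLt; omega⟩), ?_⟩
  · -- percolation
    intro S hS hcl
    have hlow : ∀ p : V × Fin m, p ∈ lay m (layers S) := by
      apply hA
      · rintro ⟨x, z⟩ hx
        refine ⟨by have := z.isLt; omega, hS ?_⟩
        have hz : min z.val (m - 1) = z.val := by have := z.isLt; omega
        show x ∈ layers A (min z.val (m - 1))
        rw [hz]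
        exact ⟨z.isLt, hx⟩
      · rintro ⟨x, z⟩ hx
        have hz := z.isLt
        refine ⟨by omega, hcl _ (hx.trans ?_)⟩
        have h1 := cnt_lay' G n (layers S) x ⟨z.val, by omega⟩
        rw [lay_layers] at h1
        rw [h1, cnt_lay']
        refine Nat.add_le_add le_rfl (Nat.add_le_add le_rfl (iv_mono ?_))
        rintro ⟨h2, h3⟩
        exact ⟨lt_of_lt_of_le h2 hmn, h3⟩
    have hlow' : ∀ z, z < m → ∀ x, x ∈ layers S z := fun z hz x => hlow (x, ⟨z, hz⟩)
    have hall : ∀ z, z < n → ∀ x, x ∈ layers S z := by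
      intro z
      induction z with
      | zero => intro _ x; exact hlow' 0 (by omega) x
      | succ z ih =>
        intro hz
        rcases Nat.lt_or_ge (z + 1) m with h1 | h1
        · exact hlow' _ h1
        -- the set with the last layer replaced
        have key : ∀ p : V × Fin m, p ∈ lay m (fun z' => {x | z' + 1 < m ∨ x ∈ layers S (z + 1)}) := by
          apply hA
          · rintro ⟨x, z'⟩ hx
            have hz' := z'.isLt
            rcases Nat.lt_or_ge (z'.val + 1) m with h2 | h2
            · exact Or.inl h2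
            · right
              refine ⟨hz, hS ?_⟩
              show x ∈ layers A (min (z + 1) (m - 1))
              have e : min (z + 1) (m - 1) = z'.val := by omega
              rw [e]; exact ⟨z'.isLt, hx⟩
          · rintro ⟨x, z'⟩ hx
            have hz' := z'.isLt
            rcases Nat.lt_or_ge (z'.val + 1) m with h2 | h2
            · exact Or.inl h2
            · right
              refine ⟨hz, hcl _ (hx.trans ?_)⟩
              have h3 := cnt_lay' G n (layers S) x ⟨z + 1, hz⟩
              rw [lay_layers] at h3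
              rw [h3, cnt_lay']
              have h4 : cnt G {x | z'.val + 1 < m ∨ x ∈ layers S (z + 1)} x ≤
                  cnt G (layers S (z + 1)) x := by
                apply cnt_mono
                rintro u (hu | hu)
                · omega
                · exact hu
              rw [iv_zero (p := z'.val + 1 < m ∧
                x ∈ (fun z' => {x | z' + 1 < m ∨ x ∈ layers S (z + 1)}) (z'.val + 1)) (by omega)]
              have h6 : iv (0 < z + 1 ∧ x ∈ layers S (z + 1 - 1)) = 1 :=
                iv_one ⟨by omega, ih (by omega) x⟩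
              refine Nat.add_le_add h4 (Nat.add_le_add ?_ (Nat.zero_le _))
              exact (iv_le _).trans (le_of_eq h6.symm)
        intro x
        have := key (x, ⟨m - 1, by omega⟩)
        rcases this with h2 | h2
        · exfalso
          have h3 : m - 1 + 1 < m := h2
          omega
        · exact h2
    rintro ⟨x, z⟩
    obtain ⟨_, h2⟩ := hall z.val z.isLt x
    exact h2
  · -- the barrier
    have hbar : ∀ t, proc (G □ pathGraph n) r A' t ⊆
        lay n (fun z => layers (proc (G □ pathGraph m) r A t) (min z (m - 1))) := by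
      intro t
      induction t with
      | zero => exact subset_rfl
      | succ t ih =>
        set B := proc (G □ pathGraph m) r A t with hB
        rintro ⟨x, z⟩ hx
        have hzn := z.isLt
        rw [mem_lay]
        by_cases hxB : x ∈ layers B (min z.val (m - 1))
        · obtain ⟨h1, h2⟩ := hxB
          exact ⟨h1, Or.inl h2⟩
        rcases hx with hx | hx
        · exact absurd (ih hx) hxB
        refine ⟨by omega, Or.inr ?_⟩
        have hx' : r ≤ cnt (G □ pathGraph n)
          (lay n (fun z => layers B (min z (m - 1)))) (x, z) := le_trans hx (cnt_mono _ ih _)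
        refine hx'.trans ?_
        have h1 := cnt_lay' G m (layers B) x ⟨min z.val (m - 1), by omega⟩
        rw [lay_layers] at h1
        show _ ≤ cnt (G □ pathGraph m) B (x, ⟨min z.val (m - 1), by omega⟩)
        rw [h1, cnt_lay']
        refine Nat.add_le_add le_rfl (Nat.add_le_add (iv_mono ?_) (iv_mono ?_))
        · rintro ⟨h2, h3⟩
          have h3' : x ∈ layers B (min (z.val - 1) (m - 1)) := h3
          show 0 < min z.val (m - 1) ∧ x ∈ layers B (min z.val (m - 1) - 1)
          rcases Nat.lt_or_ge z.val m with h4 | h4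
          · have e : min (z.val - 1) (m - 1) = min z.val (m - 1) - 1 := by omega
            rw [e] at h3'
            exact ⟨by omega, h3'⟩
          · exfalso
            have e : min (z.val - 1) (m - 1) = min z.val (m - 1) := by omega
            rw [e] at h3'
            exact hxB h3'
        · rintro ⟨h2, h3⟩
          have h3' : x ∈ layers B (min (z.val + 1) (m - 1)) := h3
          show min z.val (m - 1) + 1 < m ∧ x ∈ layers B (min z.val (m - 1) + 1)
          rcases Nat.lt_or_ge (z.val + 1) m with h4 | h4
          · have e : min (z.val + 1) (m - 1) = min z.val (m - 1) + 1 := by omega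
            rw [e] at h3'
            exact ⟨by omega, h3'⟩
          · exfalso
            have e : min (z.val + 1) (m - 1) = min z.val (m - 1) := by omega
            rw [e] at h3'
            exact hxB h3'
    intro hcon
    have h1 := hbar T hcon
    rw [mem_lay] at h1
    have hz0 := z0.isLt
    have e : min z0.val (m - 1) = z0.val := by omega
    have h2 : v ∈ layers (proc (G □ pathGraph m) r A T) (min z0.val (m - 1)) := h1
    rw [e] at h2
    obtain ⟨_, h3⟩ := h2
    exact hv h3

/-- lengthening all sides of a grid factor -/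
theorem slow_grid_mono {m n r T : ℕ} (hm : 1 ≤ m) (hmn : m ≤ n) (a : ℕ) :
    ∀ (V : Type) [Finite V] (G : SimpleGraph V), Slow (G □ Gd a m) r T → Slow (G □ Gd a n) r T := by
  induction a with
  | zero =>
    intro V _ G h
    exact (h.iso (zeroIso G m)).iso (zeroIso G n).symm
  | succ a ih =>
    intro V _ G h
    -- G □ Gd (a+1) m ≃ (G □ Gd a m) □ path m
    have e1 : (G □ Gd (a + 1) m) ≃g ((G □ Gd a m) □ pathGraph m) :=
      (boxCongr Iso.refl ((consIso a m).trans (boxProdComm _ _))).trans
        (boxProdAssoc G (Gd a m) (pathGraph m)).symm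
    have h1 := slow_path_mono hm hmn (h.iso e1)
    have e2 : ((G □ Gd a m) □ pathGraph n) ≃g ((G □ pathGraph n) □ Gd a m) :=
      (boxProdAssoc _ _ _).trans ((boxCongr Iso.refl (boxProdComm _ _)).trans
        (boxProdAssoc _ _ _).symm)
    have h2 := ih _ (G □ pathGraph n) (h1.iso e2)
    have e3 : ((G □ pathGraph n) □ Gd a n) ≃g (G □ Gd (a + 1) n) :=
      (boxProdAssoc _ _ _).trans (boxCongr Iso.refl (consIso a n).symm)
    exact h2.iso e3

/-- the recursion -/
theorem chainU {L K : ℕ} (hL : 10 ≤ L) (hL2 : L % 2 = 0) (hK : 6 ≤ K) (hK2 : K % 2 = 0) (k : ℕ) :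
    ∃ (V : Type) (_ : Finite V) (X : SimpleGraph V) (T : ℕ) (U U' : Ty V),
      Cond X (k + 3) T U U' ∧ Cond X (k + 3) T U' U ∧ Perc X (k + 3) U.A ∧
      Nonempty (X ≃g (Sq L □ Gd (k + 1) (K + 1))) ∧ (K - 4) ^ (k + 1) * (w L 4 + L - 3) ≤ T := by
  induction k with
  | zero =>
    obtain ⟨U, U', h1, h2, h3⟩ := step (base_cond hL hL2) (base_cond' hL hL2) hK2 hK
    refine ⟨_, inferInstance, _, _, U, U', h1, h2, h3, ⟨boxCongr Iso.refl (oneIso (K + 1))⟩, ?_⟩
    rw [Nat.zero_add, pow_one]
    exact Nat.le_succ _
  | succ k ih =>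
    obtain ⟨V, hV, X, T, P, Q, h1, h2, h3, ⟨e⟩, hT⟩ := ih
    obtain ⟨U, U', h4, h5, h6⟩ := step h1 h2 hK2 hK
    refine ⟨V × Fin (K + 1), inferInstance, X □ pathGraph (K + 1), _, U, U', h4, h5, h6, ⟨?_⟩, ?_⟩
    · exact (boxCongr e Iso.refl).trans ((boxProdAssoc _ _ _).trans
        (boxCongr Iso.refl (snocIso (k + 1) (K + 1))))
    · calc (K - 4) ^ (k + 1 + 1) * (w L 4 + L - 3)
          = (K - 4) * ((K - 4) ^ (k + 1) * (w L 4 + L - 3)) := by ring
        _ ≤ (K - 4) * T := Nat.mul_le_mul_left _ hT
        _ ≤ (K - 4) * T + 1 := Nat.le_succ _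

/-- the square grid -/
def sqIso' (n : ℕ) : Sq n ≃g Gd 2 n :=
  (boxCongr SimpleGraph.Iso.refl (oneIso n)).trans (consIso 1 n).symm

/-- slow percolating sets for `r = d` -/
theorem slow_diag {L K n : ℕ} (hL : 10 ≤ L) (hL2 : L % 2 = 0) (hK : 6 ≤ K) (hK2 : K % 2 = 0)
    (hLn : L ≤ n) (hKn : K + 1 ≤ n) (k : ℕ) :
    Slow (Gd (k + 3) n) (k + 3) ((K - 4) ^ (k + 1) * (w L 4 + L - 3) - 1) := by
  obtain ⟨V, hV, X, T, U, U', h1, h2, h3, ⟨e⟩, hT⟩ := chainU hL hL2 hK hK2 k
  have hT1 : 1 ≤ T := by
    refine le_trans ?_ hT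
    have h4 : 1 ≤ (K - 4) ^ (k + 1) := Nat.one_le_pow _ _ (by omega)
    have h5 : 1 ≤ w L 4 + L - 3 := by omega
    calc 1 = 1 * 1 := rfl
      _ ≤ _ := Nat.mul_le_mul h4 h5
  have s1 : Slow X (k + 3) (T - 1) := h1.slow (by omega) hT1 h3
  have s2 : Slow X (k + 3) ((K - 4) ^ (k + 1) * (w L 4 + L - 3) - 1) := s1.mono (by omega)
  have s3 := slow_grid_mono (n := n) (by omega) hKn (k + 1) _ (Sq L) (s2.iso e)
  have s4 := s3.iso (boxProdComm _ _)
  have s5 := s4.iso (boxCongr Iso.refl (sqIso' L))
  have s6 := slow_grid_mono (n := n) (by omega) hLn 2 _ _ s5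
  exact s6.iso (addIso (k + 1) n 2)

end Pool.Agent.Helper70.Duo
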