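import Mathlib
import Pool.Agent.Helper70.SimpleData

/-!
# Constructions: point, prism, and cutting a vertex
-/

open Set

namespace Pool.Agent.Helper70.Poly

namespace SimpleData

/-- The zero-dimensional polytope. -/
def point : SimpleData 0 where
  ι := Empty
  W := Unit
  finW := inferInstance
  ne := inferInstance
  a := fun i => i.elim
  b := fun i => i.elim
  p := fun _ => 0
  T := fun _ => ∅
  pinj := fun _ _ _ => rfl
  le := fun _ i => i.elim
  tight := fun _ i => i.elim
  card := fun _ => rfl
  inj := fun _ _ _ => Subsingleton.elim _ _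
  nbr := fun _ i => i.elim
  color := fun _ => true
  color_ne := fun _ _ h => absurd rfl h

section prism

variable {d : ℕ} (D : SimpleData d)

/-- The set of tight inequalities of the prism. -/
noncomputable def prismT (w : D.W × Bool) : Finset (D.ι ⊕ Bool) :=
  (D.T w.1).disjSum {w.2}

lemma inl_mem_prismT {w : D.W × Bool} {i : D.ι} : Sum.inl i ∈ D.prismT w ↔ i ∈ D.T w.1 := by
  simp [prismT]

lemma inr_mem_prismT {w : D.W × Bool} {s : Bool} : Sum.inr s ∈ D.prismT w ↔ s = w.2 := by
  simp [prismT]

/-- The prism over `D`. -/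
noncomputable def prism : SimpleData (d + 1) where
  ι := D.ι ⊕ Bool
  W := D.W × Bool
  finW := by have := D.finW; infer_instance
  ne := by have := D.ne; infer_instance
  a := Sum.elim (fun i => (D.a i).comp (LinearMap.funLeft ℝ ℝ Fin.succ))
    (fun s => if s then LinearMap.proj 0 else -LinearMap.proj 0)
  b := Sum.elim D.b (fun s => if s then 1 else 0)
  p := fun w => Fin.cons (if w.2 then 1 else 0) (D.p w.1)
  T := D.prismT
  pinj := by
    rintro ⟨w, s⟩ ⟨w', s'⟩ h
    have h1 := congrArg (fun f : Fin (d + 1) → ℝ => f 0) h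
    have h2 : D.p w = D.p w' := by
      funext j
      have := congrArg (fun f : Fin (d + 1) → ℝ => f j.succ) h
      simpa using this
    rw [D.pinj h2]
    cases s <;> cases s' <;> simp_all
  le := by
    rintro ⟨w, s⟩ (i | t)
    · have e : (LinearMap.funLeft ℝ ℝ (Fin.succ : Fin d → Fin (d + 1)))
          (Fin.cons (if s then 1 else 0) (D.p w)) = D.p w := by
        funext j
        simp [LinearMap.funLeft_apply]
      simp only [Sum.elim_inl, LinearMap.comp_apply, e]
      exact D.le w i
    · cases t <;> cases s <;> simp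
  tight := by
    rintro ⟨w, s⟩ (i | t)
    · have e : (LinearMap.funLeft ℝ ℝ (Fin.succ : Fin d → Fin (d + 1)))
          (Fin.cons (if s then 1 else 0) (D.p w)) = D.p w := by
        funext j
        simp [LinearMap.funLeft_apply]
      simp only [Sum.elim_inl, LinearMap.comp_apply, e]
      rw [D.tight, inl_mem_prismT]
    · rw [inr_mem_prismT]
      cases t <;> cases s <;> simp
  card := by
    rintro ⟨w, s⟩
    rw [prismT, Finset.card_disjSum, D.card]
    rfl
  inj := by
    rintro ⟨w, s⟩ x h
    have h1 : (LinearMap.funLeft ℝ ℝ (Fin.succ : Fin d → Fin (d + 1))) x = 0 := by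
      refine D.inj w _ fun i hi => ?_
      have := h (Sum.inl i) (D.inl_mem_prismT.mpr hi)
      simpa using this
    have h2 : x 0 = 0 := by
      have := h (Sum.inr s) (D.inr_mem_prismT.mpr rfl)
      cases s <;> simpa using this
    funext j
    refine Fin.cases ?_ (fun j => ?_) j
    · exact h2
    · exact congrFun h1 j
  nbr := by
    rintro ⟨w, s⟩ (i | t) hi
    · rw [inl_mem_prismT] at hi
      obtain ⟨w', hne, hT⟩ := D.nbr w i hi
      refine ⟨(w', s), fun h => hne (congrArg Prod.fst h), ?_⟩
      rintro (j | t) hj hji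
      · rw [inl_mem_prismT] at hj ⊢
        exact hT j hj fun h => hji (by rw [h])
      · rw [inr_mem_prismT] at hj ⊢
        exact hj
    · rw [inr_mem_prismT] at hi
      refine ⟨(w, !s), fun h => ?_, ?_⟩
      · have := congrArg Prod.snd h
        cases s <;> simp at this
      · rintro (j | t') hj hji
        · rw [inl_mem_prismT] at hj ⊢
          exact hj
        · rw [inr_mem_prismT] at hj
          exact absurd (by rw [hj, hi]) hji
  color := fun w => xor (D.color w.1) w.2
  color_ne := by
    rintro ⟨w, s⟩ ⟨w', s'⟩ hne ⟨e, he, hT⟩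
    rcases e with i | t
    · rw [inl_mem_prismT] at he
      have hss : s = s' := by
        have := hT (Sum.inr s) (D.inr_mem_prismT.mpr rfl) (by simp)
        rwa [inr_mem_prismT] at this
      subst hss
      have hww : w ≠ w' := fun h => hne (by rw [h])
      have := D.color_ne w w' hww ⟨i, he, fun j hj hji => by
        have := hT (Sum.inl j) (D.inl_mem_prismT.mpr hj) (fun h => hji (Sum.inl.inj h))
        rwa [inl_mem_prismT] at this⟩
      simpa using this
    · have hww : w' = w := D.eq_of_subset fun i hi => by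
        have := hT (Sum.inl i) (D.inl_mem_prismT.mpr hi) (by simp)
        rwa [inl_mem_prismT] at this
      subst hww
      have hss : s ≠ s' := fun h => hne (by rw [h])
      cases s <;> cases s' <;> simp_all

lemma card_prism : Nat.card D.prism.W = 2 * Nat.card D.W := by
  change Nat.card (D.W × Bool) = _
  rw [Nat.card_prod, Nat.card_eq_fintype_card (α := Bool), Fintype.card_bool, mul_comm]

end prism

section cut

open Classical in
/-- The total slack at `w₀`. -/
noncomputable def sig {d : ℕ} (D : SimpleData d) (w₀ : D.W) (x : Fin d → ℝ) : ℝ :=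
  ∑ i : D.T w₀, (D.b i.1 - D.a i.1 x)

variable {d : ℕ} (D : SimpleData d) (w₀ : D.W)

lemma sig_pos {w : D.W} (hw : w ≠ w₀) : 0 < D.sig w₀ (D.p w) := by
  have h0 : ∀ i : D.T w₀, 0 ≤ D.b i.1 - D.a i.1 (D.p w) := fun i => by linarith [D.le w i.1]
  refine lt_of_le_of_ne (Finset.sum_nonneg fun i _ => h0 i) fun h => hw ?_
  have h1 := (Finset.sum_eq_zero_iff_of_nonneg fun i _ => h0 i).mp h.symm
  apply D.pinj
  refine D.eq_of_tight fun i hi => ?_
  have := h1 ⟨i, hi⟩ (Finset.mem_univ _)
  simp only at this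
  linarith

lemma exists_delta : ∃ δ : ℝ, 0 < δ ∧ ∀ w, w ≠ w₀ → δ < D.sig w₀ (D.p w) := by
  classical
  have := D.finW
  have : Fintype D.W := Fintype.ofFinite _
  by_cases hne : (Finset.univ.filter fun w : D.W => w ≠ w₀).Nonempty
  · obtain ⟨w1, hw1, hmin⟩ := Finset.exists_min_image _ (fun w => D.sig w₀ (D.p w)) hne
    have hw1' : w1 ≠ w₀ := (Finset.mem_filter.mp hw1).2
    have hpos := D.sig_pos w₀ hw1'
    refine ⟨D.sig w₀ (D.p w1) / 2, by linarith, fun w hw => ?_⟩
    have := hmin w (Finset.mem_filter.mpr ⟨Finset.mem_univ _, hw⟩)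
    linarith
  · refine ⟨1, one_pos, fun w hw => ?_⟩
    exact absurd ⟨w, Finset.mem_filter.mpr ⟨Finset.mem_univ _, hw⟩⟩ hne

/-- At the neighbour `nb w₀ i` only the inequality `i` of `T w₀` has slack. -/
lemma sig_nb (i : D.T w₀) : D.sig w₀ (D.p (D.nb w₀ i)) =
    D.b i.1 - D.a i.1 (D.p (D.nb w₀ i)) := by
  classical
  rw [sig, Finset.sum_eq_single i]
  · intro j _ hj
    have hji : j.1 ≠ i.1 := fun h => hj (Subtype.ext h)
    rw [(D.tight _ j.1).mpr (D.nb_mem w₀ i j.2 hji), sub_self]
  · intro h
    exact absurd (Finset.mem_univ _) h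

open Classical in
/-- The coefficients of the new vertex `S` in terms of the neighbours of `w₀`. -/
noncomputable def lam (δ : ℝ) (S : Finset D.ι) (i : D.T w₀) : ℝ :=
  if i.1 ∈ S then δ / (2 * (S.card : ℝ) - 1) / (D.b i.1 - D.a i.1 (D.p (D.nb w₀ i))) else 0

/-- The new vertices. -/
noncomputable def newPt (δ : ℝ) (S : Finset D.ι) : Fin d → ℝ :=
  D.p w₀ + ∑ i : D.T w₀, D.lam w₀ δ S i • (D.p (D.nb w₀ i) - D.p w₀)

open Classical in
lemma a_newPt (δ : ℝ) (S : Finset D.ι) {j : D.ι} (hj : j ∈ D.T w₀) :
    D.a j (D.newPt w₀ δ S) = D.b j - if j ∈ S then δ / (2 * (S.card : ℝ) - 1) else 0 := by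
  rw [newPt, map_add, map_sum, (D.tight w₀ j).mpr hj, Finset.sum_eq_single ⟨j, hj⟩]
  · rw [map_smul, map_sub, (D.tight w₀ j).mpr hj, smul_eq_mul, lam]
    have hs := (D.slack_nb_pos w₀ ⟨j, hj⟩).ne'
    simp only at hs ⊢
    split_ifs
    · have : δ / (2 * (S.card : ℝ) - 1) / (D.b j - D.a j (D.p (D.nb w₀ ⟨j, hj⟩))) *
          (D.a j (D.p (D.nb w₀ ⟨j, hj⟩)) - D.b j) =
          -(δ / (2 * (S.card : ℝ) - 1) * ((D.b j - D.a j (D.p (D.nb w₀ ⟨j, hj⟩))) /
            (D.b j - D.a j (D.p (D.nb w₀ ⟨j, hj⟩))))) := by ring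
      rw [this, div_self hs]
      ring
    · ring
  · intro i _ hi
    have hji : j ≠ i.1 := fun h => hi (Subtype.ext h.symm)
    rw [map_smul, map_sub, (D.tight w₀ j).mpr hj, (D.tight _ j).mpr (D.nb_mem w₀ i hj hji),
      sub_self, smul_zero]
  · intro h
    exact absurd (Finset.mem_univ _) h

open Classical in
lemma card_filter_mem {S : Finset D.ι} (hS : S ⊆ D.T w₀) :
    (Finset.univ.filter fun i : D.T w₀ => i.1 ∈ S).card = S.card := by
  refine Finset.card_bij (fun i _ => i.1) ?_ ?_ ?_
  · intro i hi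
    exact (Finset.mem_filter.mp hi).2
  · intro i _ j _ h
    exact Subtype.ext h
  · intro i hi
    exact ⟨⟨i, hS hi⟩, Finset.mem_filter.mpr ⟨Finset.mem_univ _, hi⟩, rfl⟩

lemma sig_newPt (δ : ℝ) {S : Finset D.ι} (hS : S ⊆ D.T w₀) :
    D.sig w₀ (D.newPt w₀ δ S) = S.card * (δ / (2 * (S.card : ℝ) - 1)) := by
  classical
  rw [sig]
  have : ∀ i : D.T w₀, D.b i.1 - D.a i.1 (D.newPt w₀ δ S) =
      if i.1 ∈ S then δ / (2 * (S.card : ℝ) - 1) else 0 := by
    intro i
    rw [D.a_newPt w₀ δ S i.2]
    ring
  simp_rw [this]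
  rw [← Finset.sum_filter, Finset.sum_const, D.card_filter_mem w₀ hS, nsmul_eq_mul]

variable {δ : ℝ} (hδ : 0 < δ) (hδw : ∀ w, w ≠ w₀ → δ < D.sig w₀ (D.p w))

include hδ hδw in
/-- Inequalities not tight at `w₀` have positive slack at the new vertices. -/
lemma slack_newPt {S : Finset D.ι} (hS : S ⊆ D.T w₀) (hne : S.Nonempty) {k : D.ι}
    (hk : k ∉ D.T w₀) : D.a k (D.newPt w₀ δ S) < D.b k := by
  classical
  have hr : (1 : ℝ) ≤ S.card := by
    exact_mod_cast Finset.card_pos.mpr hne
  have hr1 : (0 : ℝ) < 2 * (S.card : ℝ) - 1 := by linarith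
  have hlam0 : ∀ i, 0 ≤ D.lam w₀ δ S i := by
    intro i
    rw [lam]
    split_ifs
    · exact div_nonneg (div_nonneg hδ.le hr1.le) (D.slack_nb_pos w₀ i).le
    · exact le_rfl
  have hlamlt : ∀ i : D.T w₀, i.1 ∈ S → D.lam w₀ δ S i < 1 / (2 * (S.card : ℝ) - 1) := by
    intro i hi
    rw [lam, if_pos hi]
    have h1 := D.slack_nb_pos w₀ i
    have h2 := hδw _ (D.nb_ne w₀ i)
    rw [D.sig_nb w₀ i] at h2
    rw [div_div, div_lt_div_iff₀ (by positivity) hr1]
    nlinarith
  have hsum : ∑ i, D.lam w₀ δ S i < 1 := by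
    have e1 : ∑ i, D.lam w₀ δ S i =
        ∑ i ∈ Finset.univ.filter (fun i : D.T w₀ => i.1 ∈ S), D.lam w₀ δ S i := by
      rw [Finset.sum_filter]
      refine Finset.sum_congr rfl fun i _ => ?_
      split_ifs with h
      · rfl
      · rw [lam, if_neg h]
    have hne' : (Finset.univ.filter fun i : D.T w₀ => i.1 ∈ S).Nonempty := by
      rw [← Finset.card_pos, D.card_filter_mem w₀ hS, Finset.card_pos]
      exact hne
    calc ∑ i, D.lam w₀ δ S i
        = ∑ i ∈ Finset.univ.filter (fun i : D.T w₀ => i.1 ∈ S), D.lam w₀ δ S i := e1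
      _ < ∑ i ∈ Finset.univ.filter (fun i : D.T w₀ => i.1 ∈ S), 1 / (2 * (S.card : ℝ) - 1) :=
          Finset.sum_lt_sum_of_nonempty hne' fun i hi => hlamlt i (Finset.mem_filter.mp hi).2
      _ = S.card * (1 / (2 * (S.card : ℝ) - 1)) := by
          rw [Finset.sum_const, D.card_filter_mem w₀ hS, nsmul_eq_mul]
      _ ≤ 1 := by
          rw [mul_one_div, div_le_one hr1]
          linarith
  have hval : D.b k - D.a k (D.newPt w₀ δ S) =
      (1 - ∑ i, D.lam w₀ δ S i) * (D.b k - D.a k (D.p w₀)) +
        ∑ i, D.lam w₀ δ S i * (D.b k - D.a k (D.p (D.nb w₀ i))) := by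
    rw [newPt, map_add, map_sum]
    simp only [map_smul, map_sub, smul_eq_mul, mul_sub, Finset.sum_sub_distrib, ← Finset.sum_mul]
    ring
  have h1 : 0 < D.b k - D.a k (D.p w₀) := by
    have h1 := D.le w₀ k
    have h2 : D.a k (D.p w₀) ≠ D.b k := fun h => hk ((D.tight _ _).mp h)
    have := lt_of_le_of_ne h1 h2
    linarith
  have h2 : 0 ≤ ∑ i, D.lam w₀ δ S i * (D.b k - D.a k (D.p (D.nb w₀ i))) :=
    Finset.sum_nonneg fun i _ => mul_nonneg (hlam0 i) (by linarith [D.le (D.nb w₀ i) k])
  have h3 : 0 < (1 - ∑ i, D.lam w₀ δ S i) * (D.b k - D.a k (D.p w₀)) :=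
    mul_pos (by linarith) h1
  linarith

open Classical in
/-- Tight inequalities after the cut. -/
noncomputable def cutT :
    {w : D.W // w ≠ w₀} ⊕ {S : Finset D.ι // S ⊆ D.T w₀ ∧ S.Nonempty} → Finset (D.ι ⊕ D.T w₀)
  | Sum.inl w => (D.T w.1).disjSum ∅
  | Sum.inr S => (D.T w₀ \ S.1).disjSum (Finset.univ.filter fun i : D.T w₀ => i.1 ∈ S.1)

lemma inl_mem_cutT_inl {w : {w : D.W // w ≠ w₀}} {i : D.ι} :
    Sum.inl i ∈ D.cutT w₀ (Sum.inl w) ↔ i ∈ D.T w.1 := by
  simp [cutT]

lemma inr_mem_cutT_inl {w : {w : D.W // w ≠ w₀}} {i : D.T w₀} :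
    Sum.inr i ∉ D.cutT w₀ (Sum.inl w) := by
  simp [cutT]

lemma inl_mem_cutT_inr {S : {S : Finset D.ι // S ⊆ D.T w₀ ∧ S.Nonempty}} {i : D.ι} :
    Sum.inl i ∈ D.cutT w₀ (Sum.inr S) ↔ i ∈ D.T w₀ ∧ i ∉ S.1 := by
  simp [cutT]

lemma inr_mem_cutT_inr {S : {S : Finset D.ι // S ⊆ D.T w₀ ∧ S.Nonempty}} {i : D.T w₀} :
    Sum.inr i ∈ D.cutT w₀ (Sum.inr S) ↔ i.1 ∈ S.1 := by
  simp [cutT]

/-- The new inequality `2 σ - ℓ_i ≥ δ` in the form `a x ≤ b`. -/
lemma new_ineq_eq (i : D.T w₀) (x : Fin d → ℝ) :
    (2 * (∑ j : D.T w₀, D.b j.1) - D.b i.1 - δ) -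
      ((2 : ℝ) • (∑ j : D.T w₀, D.a j.1) - D.a i.1) x =
      2 * D.sig w₀ x - (D.b i.1 - D.a i.1 x) - δ := by
  rw [sig, LinearMap.sub_apply, LinearMap.smul_apply, LinearMap.sum_apply, smul_eq_mul,
    Finset.sum_sub_distrib]
  ring

open Classical in
/-- Cutting off the vertex `w₀` by `d` new inequalities (connected sum with a cube). -/
noncomputable def cut (hd : 1 ≤ d) : SimpleData d where
  ι := D.ι ⊕ D.T w₀
  W := {w : D.W // w ≠ w₀} ⊕ {S : Finset D.ι // S ⊆ D.T w₀ ∧ S.Nonempty}
  finW := by
    have := D.finW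
    have : Finite {S : Finset D.ι // S ⊆ D.T w₀ ∧ S.Nonempty} := by
      refine Finite.of_injective
        (fun S => (⟨S.1, Finset.mem_powerset.mpr S.2.1⟩ : (D.T w₀).powerset)) fun S S' h => ?_
      exact Subtype.ext (congrArg (fun x : (D.T w₀).powerset => x.1) h)
    infer_instance
  ne := by
    have hT : (D.T w₀).Nonempty := by
      rw [← Finset.card_pos, D.card]
      omega
    exact ⟨Sum.inr ⟨D.T w₀, Finset.Subset.refl _, hT⟩⟩
  a := Sum.elim D.a (fun i => (2 : ℝ) • (∑ j : D.T w₀, D.a j.1) - D.a i.1)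
  b := Sum.elim D.b (fun i => 2 * (∑ j : D.T w₀, D.b j.1) - D.b i.1 - δ)
  p := Sum.elim (fun w => D.p w.1) (fun S => D.newPt w₀ δ S.1)
  T := D.cutT w₀
  pinj := by
    have hsn : ∀ S : {S : Finset D.ι // S ⊆ D.T w₀ ∧ S.Nonempty},
        D.sig w₀ (D.newPt w₀ δ S.1) ≤ δ := by
      intro S
      rw [D.sig_newPt w₀ δ S.2.1]
      have hr : (1 : ℝ) ≤ S.1.card := by exact_mod_cast Finset.card_pos.mpr S.2.2
      rw [← mul_div_assoc, div_le_iff₀ (by linarith)]
      nlinarith
    rintro (w | S) (w' | S') h
    · have h' : D.p w.1 = D.p w'.1 := h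
      rw [Subtype.ext (D.pinj h')]
    · exfalso
      have h' : D.p w.1 = D.newPt w₀ δ S'.1 := h
      have h1 := hδw w.1 w.2
      rw [h'] at h1
      exact absurd h1 (not_lt.mpr (hsn S'))
    · exfalso
      have h' : D.newPt w₀ δ S.1 = D.p w'.1 := h
      have h1 := hδw w'.1 w'.2
      rw [← h'] at h1
      exact absurd h1 (not_lt.mpr (hsn S))
    · have h' : D.newPt w₀ δ S.1 = D.newPt w₀ δ S'.1 := h
      congr 1
      apply Subtype.ext
      ext i
      have hposS : ∀ S : {S : Finset D.ι // S ⊆ D.T w₀ ∧ S.Nonempty},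
          0 < δ / (2 * (S.1.card : ℝ) - 1) := by
        intro S
        have hr : (1 : ℝ) ≤ S.1.card := by exact_mod_cast Finset.card_pos.mpr S.2.2
        exact div_pos hδ (by linarith)
      constructor
      · intro hi
        have hiT := S.2.1 hi
        have e := congrArg (D.a i) h'
        rw [D.a_newPt w₀ δ S.1 hiT, D.a_newPt w₀ δ S'.1 hiT, if_pos hi] at e
        by_contra hi'
        rw [if_neg hi'] at e
        have := hposS S
        linarith
      · intro hi
        have hiT := S'.2.1 hi
        have e := congrArg (D.a i) h'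
        rw [D.a_newPt w₀ δ S.1 hiT, D.a_newPt w₀ δ S'.1 hiT, if_pos hi] at e
        by_contra hi'
        rw [if_neg hi'] at e
        have := hposS S'
        linarith
  le := by
    rintro (w | S) (k | i)
    · exact D.le w.1 k
    · have h1 := D.new_ineq_eq w₀ (δ := δ) i (D.p w.1)
      have h2 := hδw w.1 w.2
      have h3 : D.b i.1 - D.a i.1 (D.p w.1) ≤ D.sig w₀ (D.p w.1) := by
        rw [sig]
        exact Finset.single_le_sum (f := fun j : D.T w₀ => D.b j.1 - D.a j.1 (D.p w.1))
          (fun j _ => by linarith [D.le w.1 j.1]) (Finset.mem_univ i)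
      simp only [Sum.elim_inl, Sum.elim_inr]
      linarith
    · simp only [Sum.elim_inl, Sum.elim_inr]
      by_cases hk : k ∈ D.T w₀
      · rw [D.a_newPt w₀ δ S.1 hk]
        have hr : (1 : ℝ) ≤ S.1.card := by exact_mod_cast Finset.card_pos.mpr S.2.2
        have : 0 ≤ (if k ∈ S.1 then δ / (2 * (S.1.card : ℝ) - 1) else 0) := by
          split_ifs
          · exact div_nonneg hδ.le (by linarith)
          · exact le_rfl
        linarith
      · exact (D.slack_newPt w₀ hδ hδw S.2.1 S.2.2 hk).le
    · have h1 := D.new_ineq_eq w₀ (δ := δ) i (D.newPt w₀ δ S.1)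
      rw [D.sig_newPt w₀ δ S.2.1, D.a_newPt w₀ δ S.1 i.2] at h1
      have hr : (1 : ℝ) ≤ S.1.card := by exact_mod_cast Finset.card_pos.mpr S.2.2
      have hr1 : (0 : ℝ) < 2 * (S.1.card : ℝ) - 1 := by linarith
      simp only [Sum.elim_inr]
      have h4 : 2 * ((S.1.card : ℝ) * (δ / (2 * (S.1.card : ℝ) - 1))) -
          δ / (2 * (S.1.card : ℝ) - 1) = δ := by
        field_simp
      have h5 : 0 < δ / (2 * (S.1.card : ℝ) - 1) := div_pos hδ hr1
      split_ifs at h1 <;> linarith
  tight := by
    rintro (w | S) (k | i)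
    · rw [inl_mem_cutT_inl]
      exact D.tight w.1 k
    · have h1 := D.new_ineq_eq w₀ (δ := δ) i (D.p w.1)
      have h2 := hδw w.1 w.2
      have h3 : D.b i.1 - D.a i.1 (D.p w.1) ≤ D.sig w₀ (D.p w.1) := by
        rw [sig]
        exact Finset.single_le_sum (f := fun j : D.T w₀ => D.b j.1 - D.a j.1 (D.p w.1))
          (fun j _ => by linarith [D.le w.1 j.1]) (Finset.mem_univ i)
      simp only [Sum.elim_inl, Sum.elim_inr]
      constructor
      · intro h
        exfalso
        linarith
      · intro h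
        exact absurd h (D.inr_mem_cutT_inl w₀)
    · simp only [Sum.elim_inl, Sum.elim_inr]
      rw [inl_mem_cutT_inr]
      by_cases hk : k ∈ D.T w₀
      · rw [D.a_newPt w₀ δ S.1 hk]
        have hr : (1 : ℝ) ≤ S.1.card := by exact_mod_cast Finset.card_pos.mpr S.2.2
        have h5 : 0 < δ / (2 * (S.1.card : ℝ) - 1) := div_pos hδ (by linarith)
        split_ifs with h
        · constructor
          · intro h'
            exfalso
            linarith
          · intro h'
            exact absurd h h'.2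
        · simp [hk, h]
      · have := D.slack_newPt w₀ hδ hδw S.2.1 S.2.2 hk
        constructor
        · intro h'
          exact absurd h' this.ne
        · intro h'
          exact absurd h'.1 hk
    · have h1 := D.new_ineq_eq w₀ (δ := δ) i (D.newPt w₀ δ S.1)
      rw [D.sig_newPt w₀ δ S.2.1, D.a_newPt w₀ δ S.1 i.2] at h1
      have hr : (1 : ℝ) ≤ S.1.card := by exact_mod_cast Finset.card_pos.mpr S.2.2
      have hr1 : (0 : ℝ) < 2 * (S.1.card : ℝ) - 1 := by linarith
      simp only [Sum.elim_inr]
      rw [inr_mem_cutT_inr]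
      have h4 : 2 * ((S.1.card : ℝ) * (δ / (2 * (S.1.card : ℝ) - 1))) -
          δ / (2 * (S.1.card : ℝ) - 1) = δ := by
        field_simp
      have h5 : 0 < δ / (2 * (S.1.card : ℝ) - 1) := div_pos hδ hr1
      split_ifs at h1 with h
      · constructor
        · intro _
          exact h
        · intro _
          linarith
      · constructor
        · intro h'
          exfalso
          linarith
        · intro h'
          exact absurd h' h
  card := by
    rintro (w | S)
    · rw [cutT, Finset.card_disjSum, D.card, Finset.card_empty]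
      rfl
    · rw [cutT, Finset.card_disjSum, D.card_filter_mem w₀ S.2.1,
        Finset.card_sdiff_of_subset S.2.1, D.card]
      have : S.1.card ≤ d := (Finset.card_le_card S.2.1).trans_eq (D.card w₀)
      omega
  inj := by
    rintro (w | S) x h
    · refine D.inj w.1 x fun i hi => ?_
      exact h (Sum.inl i) ((D.inl_mem_cutT_inl w₀).mpr hi)
    · refine D.inj w₀ x ?_
      have h1 : ∀ k : D.T w₀, k.1 ∉ S.1 → D.a k.1 x = 0 := fun k hk =>
        h (Sum.inl k.1) ((D.inl_mem_cutT_inr w₀).mpr ⟨k.2, hk⟩)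
      have h2 : ∀ k : D.T w₀, k.1 ∈ S.1 → D.a k.1 x = 2 * ∑ j : D.T w₀, D.a j.1 x := by
        intro k hk
        have := h (Sum.inr k) ((D.inr_mem_cutT_inr w₀).mpr hk)
        simp only [Sum.elim_inr, LinearMap.sub_apply, LinearMap.smul_apply, LinearMap.sum_apply,
          smul_eq_mul] at this
        linarith
      set Y : ℝ := ∑ j : D.T w₀, D.a j.1 x with hY
      have h3 : Y = S.1.card * (2 * Y) := by
        have e1 : Y = ∑ j ∈ Finset.univ.filter (fun i : D.T w₀ => i.1 ∈ S.1), D.a j.1 x := by
          rw [hY, Finset.sum_filter]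
          refine Finset.sum_congr rfl fun i _ => ?_
          split_ifs with h'
          · rfl
          · exact h1 i h'
        have e2 : ∑ j ∈ Finset.univ.filter (fun i : D.T w₀ => i.1 ∈ S.1), D.a j.1 x =
            S.1.card * (2 * Y) := by
          rw [Finset.sum_congr rfl fun j hj => h2 j (Finset.mem_filter.mp hj).2,
            Finset.sum_const, D.card_filter_mem w₀ S.2.1, nsmul_eq_mul]
        rw [← e2]
        exact e1
      have hr : (1 : ℝ) ≤ S.1.card := by exact_mod_cast Finset.card_pos.mpr S.2.2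
      have hY0 : Y = 0 := by
        have : Y * (2 * (S.1.card : ℝ) - 1) = 0 := by linarith
        rcases mul_eq_zero.mp this with h' | h'
        · exact h'
        · exfalso
          linarith
      intro i hi
      by_cases hiS : i ∈ S.1
      · rw [h2 ⟨i, hi⟩ hiS, hY0, mul_zero]
      · exact h1 ⟨i, hi⟩ hiS
  nbr := by
    rintro (w | S) e he
    · rcases e with i | i
      · rw [inl_mem_cutT_inl] at he
        obtain ⟨w', hne, hT⟩ := D.nbr w.1 i he
        by_cases hw' : w' = w₀
        · subst hw'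
          obtain ⟨i0, hi0, hi0'⟩ : ∃ i0 ∈ D.T w', i0 ∉ D.T w.1 := by
            by_contra hall
            push Not at hall
            exact w.2 (D.eq_of_subset hall)
          refine ⟨Sum.inr ⟨{i0}, by simpa using hi0, by simp⟩, by simp, ?_⟩
          rintro (j | j) hj hji
          · rw [inl_mem_cutT_inl] at hj
            rw [inl_mem_cutT_inr]
            refine ⟨hT j hj fun h => hji (by rw [h]), ?_⟩
            simp only [Finset.mem_singleton]
            rintro rfl
            exact hi0' hj
          · exact absurd hj (D.inr_mem_cutT_inl w')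
        · refine ⟨Sum.inl ⟨w', hw'⟩, fun h => hne (congrArg Subtype.val (Sum.inl.inj h)), ?_⟩
          rintro (j | j) hj hji
          · rw [inl_mem_cutT_inl] at hj ⊢
            exact hT j hj fun h => hji (by rw [h])
          · exact absurd hj (D.inr_mem_cutT_inl w₀)
      · exact absurd he (D.inr_mem_cutT_inl w₀)
    · rcases e with k | i
      · rw [inl_mem_cutT_inr] at he
        refine ⟨Sum.inr ⟨insert k S.1, Finset.insert_subset he.1 S.2.1, by simp⟩, ?_, ?_⟩
        · intro h
          have h1 : insert k S.1 = S.1 := congrArg Subtype.val (Sum.inr.inj h)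
          exact he.2 (h1 ▸ Finset.mem_insert_self k S.1)
        · rintro (j | j) hj hji
          · rw [inl_mem_cutT_inr] at hj ⊢
            refine ⟨hj.1, ?_⟩
            simp only [Finset.mem_insert, not_or]
            exact ⟨fun h => hji (by rw [h]), hj.2⟩
          · rw [inr_mem_cutT_inr] at hj ⊢
            exact Finset.mem_insert_of_mem hj
      · rw [inr_mem_cutT_inr] at he
        by_cases hne : (S.1.erase i.1).Nonempty
        · refine ⟨Sum.inr ⟨S.1.erase i.1, (Finset.erase_subset _ _).trans S.2.1, hne⟩, ?_, ?_⟩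
          · intro h
            have h1 : S.1.erase i.1 = S.1 := congrArg Subtype.val (Sum.inr.inj h)
            rw [← h1] at he
            exact absurd he (Finset.notMem_erase _ _)
          · rintro (j | j) hj hji
            · rw [inl_mem_cutT_inr] at hj ⊢
              exact ⟨hj.1, fun h => hj.2 (Finset.mem_of_mem_erase h)⟩
            · rw [inr_mem_cutT_inr] at hj ⊢
              refine Finset.mem_erase.mpr ⟨fun h => hji ?_, hj⟩
              rw [Subtype.ext h]
        · have hS : S.1 = {i.1} := by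
            rw [Finset.not_nonempty_iff_eq_empty, Finset.erase_eq_empty_iff] at hne
            rcases hne with h | h
            · rw [h] at he
              exact absurd he (Finset.notMem_empty _)
            · exact h
          refine ⟨Sum.inl ⟨D.nb w₀ i, D.nb_ne w₀ i⟩, by simp, ?_⟩
          rintro (j | j) hj hji
          · rw [inl_mem_cutT_inr, hS, Finset.mem_singleton] at hj
            rw [inl_mem_cutT_inl]
            exact D.nb_mem w₀ i hj.1 hj.2
          · rw [inr_mem_cutT_inr, hS, Finset.mem_singleton] at hj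
            exact absurd (by rw [Subtype.ext hj]) hji
  color := Sum.elim (fun w => D.color w.1) (fun S => xor (D.color w₀) (decide (Even S.1.card)))
  color_ne := by
    rintro (w | S) (w' | S') hne ⟨e, he, hT⟩
    · rcases e with i | i
      · rw [inl_mem_cutT_inl] at he
        refine D.color_ne w.1 w'.1 (fun h => hne (by rw [Subtype.ext h])) ⟨i, he, fun j hj hji => ?_⟩
        have := hT (Sum.inl j) ((D.inl_mem_cutT_inl w₀).mpr hj) fun h => hji (Sum.inl.inj h)
        rwa [inl_mem_cutT_inl] at this
      · exact absurd he (D.inr_mem_cutT_inl w₀)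
    · rcases e with i | i
      · rw [inl_mem_cutT_inl] at he
        have hT' : ∀ j ∈ D.T w.1, j ≠ i → j ∈ D.T w₀ ∧ j ∉ S'.1 := by
          intro j hj hji
          have := hT (Sum.inl j) ((D.inl_mem_cutT_inl w₀).mpr hj) fun h => hji (Sum.inl.inj h)
          rwa [inl_mem_cutT_inr] at this
        have hcard : S'.1.card = 1 := by
          have h1 : ((D.T w.1).erase i).card ≤ (D.T w₀ \ S'.1).card := by
            refine Finset.card_le_card fun j hj => ?_
            have := hT' j (Finset.mem_of_mem_erase hj) (Finset.ne_of_mem_erase hj)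
            exact Finset.mem_sdiff.mpr this
          rw [Finset.card_erase_of_mem he, D.card, Finset.card_sdiff_of_subset S'.2.1, D.card] at h1
          have h2 : 1 ≤ S'.1.card := Finset.card_pos.mpr S'.2.2
          have h3 : S'.1.card ≤ d := (Finset.card_le_card S'.2.1).trans_eq (D.card w₀)
          omega
        have := D.color_ne w.1 w₀ w.2 ⟨i, he, fun j hj hji => (hT' j hj hji).1⟩
        simpa [hcard] using this
      · exact absurd he (D.inr_mem_cutT_inl w₀)
    · -- exceptional index must be the unique element of S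
      rcases e with k | s
      · exfalso
        obtain ⟨s, hs⟩ := S.2.2
        have := hT (Sum.inr ⟨s, S.2.1 hs⟩) ((D.inr_mem_cutT_inr w₀).mpr hs) (by simp)
        exact D.inr_mem_cutT_inl w₀ this
      · rw [inr_mem_cutT_inr] at he
        have hS : S.1 = {s.1} := by
          refine Finset.eq_singleton_iff_unique_mem.mpr ⟨he, fun t ht => ?_⟩
          by_contra hts
          have := hT (Sum.inr ⟨t, S.2.1 ht⟩) ((D.inr_mem_cutT_inr w₀).mpr ht)
            (fun h => hts (congrArg Subtype.val (Sum.inr.inj h)))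
          exact D.inr_mem_cutT_inl w₀ this
        have hT' : ∀ j ∈ D.T w₀, j ≠ s.1 → j ∈ D.T w'.1 := by
          intro j hj hjs
          have := hT (Sum.inl j) ((D.inl_mem_cutT_inr w₀).mpr ⟨hj, by
            rw [hS, Finset.mem_singleton]
            exact hjs⟩) (by simp)
          rwa [inl_mem_cutT_inl] at this
        have := D.color_ne w₀ w'.1 w'.2.symm ⟨s.1, s.2, hT'⟩
        simpa [hS] using this
    · have hSS : S.1 ≠ S'.1 := fun h => hne (by rw [Subtype.ext h])
      rcases e with k | i
      · rw [inl_mem_cutT_inr] at he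
        have h1 : S.1 ⊆ S'.1 := by
          intro t ht
          have := hT (Sum.inr ⟨t, S.2.1 ht⟩) ((D.inr_mem_cutT_inr w₀).mpr ht) (by simp)
          rwa [inr_mem_cutT_inr] at this
        have h2 : S'.1 ⊆ insert k S.1 := by
          intro t ht
          by_contra htk
          simp only [Finset.mem_insert, not_or] at htk
          have := hT (Sum.inl t) ((D.inl_mem_cutT_inr w₀).mpr ⟨S'.2.1 ht, htk.2⟩)
            (fun h => htk.1 (Sum.inl.inj h))
          rw [inl_mem_cutT_inr] at this
          exact this.2 ht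
        have h3 : S.1.card < S'.1.card := Finset.card_lt_card
          (Finset.ssubset_iff_subset_ne.mpr ⟨h1, hSS⟩)
        have h4 : S'.1.card ≤ S.1.card + 1 := (Finset.card_le_card h2).trans
          (Finset.card_insert_le _ _)
        have h5 : S'.1.card = S.1.card + 1 := by omega
        simp only [Sum.elim_inr, h5]
        intro h
        have : decide (Even S.1.card) = decide (Even (S.1.card + 1)) := by
          simpa using h
        rw [decide_eq_decide, Nat.even_add_one] at this
        by_cases hev : Even S.1.card <;> simp [hev] at this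
      · rw [inr_mem_cutT_inr] at he
        have h1 : S'.1 ⊆ S.1 := by
          intro t ht
          by_contra htS
          have := hT (Sum.inl t) ((D.inl_mem_cutT_inr w₀).mpr ⟨S'.2.1 ht, htS⟩) (by simp)
          rw [inl_mem_cutT_inr] at this
          exact this.2 ht
        have h2 : S.1 ⊆ insert i.1 S'.1 := by
          intro t ht
          by_contra htk
          simp only [Finset.mem_insert, not_or] at htk
          have := hT (Sum.inr ⟨t, S.2.1 ht⟩) ((D.inr_mem_cutT_inr w₀).mpr ht)
            (fun h => htk.1 (congrArg Subtype.val (Sum.inr.inj h)))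
          rw [inr_mem_cutT_inr] at this
          exact htk.2 this
        have h3 : S'.1.card < S.1.card := Finset.card_lt_card
          (Finset.ssubset_iff_subset_ne.mpr ⟨h1, hSS.symm⟩)
        have h4 : S.1.card ≤ S'.1.card + 1 := (Finset.card_le_card h2).trans
          (Finset.card_insert_le _ _)
        have h5 : S.1.card = S'.1.card + 1 := by omega
        simp only [Sum.elim_inr, h5]
        intro h
        have : decide (Even (S'.1.card + 1)) = decide (Even S'.1.card) := by
          simpa using h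
        rw [decide_eq_decide, Nat.even_add_one] at this
        by_cases hev : Even S'.1.card <;> simp [hev] at this

lemma card_cut (hd : 1 ≤ d) :
    Nat.card (D.cut w₀ hδ hδw hd).W + 2 = Nat.card D.W + 2 ^ d := by
  classical
  have := D.finW
  have : Fintype D.W := Fintype.ofFinite _
  have e1 : Nat.card {w : D.W // w ≠ w₀} + 1 = Nat.card D.W := by
    rw [Nat.card_eq_fintype_card, Nat.card_eq_fintype_card, Fintype.card_subtype_compl,
      Fintype.card_subtype_eq]
    have : 0 < Fintype.card D.W := Fintype.card_pos_iff.mpr ⟨w₀⟩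
    omega
  have e2 : Nat.card {S : Finset D.ι // S ⊆ D.T w₀ ∧ S.Nonempty} + 1 = 2 ^ d := by
    have h1 : Nat.card {S : Finset D.ι // S ⊆ D.T w₀ ∧ S.Nonempty} =
        ((D.T w₀).powerset.erase ∅).card := by
      have e : {S : Finset D.ι // S ⊆ D.T w₀ ∧ S.Nonempty} ≃ ((D.T w₀).powerset.erase ∅) :=
        Equiv.subtypeEquivRight fun S => by
          rw [Finset.mem_erase, Finset.mem_powerset, Finset.nonempty_iff_ne_empty, and_comm]
      rw [Nat.card_congr e, Nat.card_eq_fintype_card, Fintype.card_coe]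
    rw [h1, Finset.card_erase_of_mem (Finset.empty_mem_powerset _), Finset.card_powerset, D.card]
    have : 0 < 2 ^ d := by positivity
    omega
  have hfin : Finite {S : Finset D.ι // S ⊆ D.T w₀ ∧ S.Nonempty} := by
    refine Finite.of_injective
      (fun S => (⟨S.1, Finset.mem_powerset.mpr S.2.1⟩ : (D.T w₀).powerset)) fun S S' h => ?_
    exact Subtype.ext (congrArg (fun x : (D.T w₀).powerset => x.1) h)
  change Nat.card ({w : D.W // w ≠ w₀} ⊕ {S : Finset D.ι // S ⊆ D.T w₀ ∧ S.Nonempty}) + 2 = _
  rw [Nat.card_sum]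
  omega

end cut

end SimpleData

end Pool.Agent.Helper70.Poly
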